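import Mathlib
import Pool.Agent.Lib.P0c8ca5Bx.Defs

/-!
# Tuples of group elements

* `gt t`: the group generated by a tuple `t : ι → A`; `cjt g t`: conjugation; `CFt W`: the weight `W` of the
  tuples is invariant under conjugation.
* `nW U W`: the sum of `W` over the tuples in `U`; `bW p U W`: over the tuples in `U` generating a group
  that contains `O^p(U)`; `eW p W`: alternating sum of `nW` over the chains of p-subgroups.
* `rel2`, `rel3`: the relation of the torus with 2 resp. 3 punctures `y_i = c_i u_i`, a tuple is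
  `(a, b, c1, u1, c2, u2, ...)`; `W2 m h`, `W3 m h`: its solutions, weighted by the `m c_i` and `h u_i`.
* `tau2`, `tau3`: the rotations of order 2 and 3.
* `Pn n f`: the pairs `(a, b)`, weighted by `f` at `[a, b]⁻¹`, as tuples `(a, b, 1, ..., 1)`.
* `omf p`, `om p k A`: the sum of the `x` with `x ^ p = 1`; `dl`: `1` at `1`; `cvl f g`: the product of `f` and `g`
  in the group ring.
* `pd r`: the product of the members of a tuple. `bS p n k m`: the `n`-tuples of elements with `r i ^ p = 1`,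
  the first `k` of them nontrivial, weighted by `m (pd r) ^ p`. `aH p n h m`: the tuples `(r 0, ..., r n)`, the first `n` with
  `r i ^ p = 1`, weighted by `(m (pd r) * h (r n)) ^ p`.
-/

namespace Pool.Agent.Lib.P0c8ca5.By

open MonoidAlgebra Bx

section
variable {A : Type*} [Group A] {ι : Type*}

/-- the group generated by a tuple -/
def gt (t : ι → A) : Subgroup A := Subgroup.closure (Set.range t)

/-- conjugation of tuples -/
def cjt (g : A) (t : ι → A) : ι → A := fun i => g * t i * g⁻¹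

/-- weights of tuples invariant under conjugation -/
def CFt (W : (ι → A) → ℤ) : Prop := ∀ g t, W (cjt g t) = W t

open Classical in
/-- the sum over the tuples in `U` -/
noncomputable def nW (U : Subgroup A) (W : (ι → A) → ℤ) : ℤ :=
  ∑ᶠ t : ι → A, if gt t ≤ U then W t else 0

open Classical in
/-- the sum over the tuples in `U` generating a group that contains `O^p(U)` -/
noncomputable def bW (p : ℕ) (U : Subgroup A) (W : (ι → A) → ℤ) : ℤ :=
  ∑ᶠ t : ι → A, if gt t ≤ U ∧ Opr p U ≤ gt t then W t else 0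

/-- alternating sum of `nW` -/
noncomputable def eW (p : ℕ) (W : (ι → A) → ℤ) : ℤ := chS p (fun U => nW U W)

open Classical in
/-- the sum of the `x` with `x ^ p = 1` -/
noncomputable def omf (p : ℕ) (x : A) : ℤ := if x ^ p = 1 then 1 else 0

open Classical in
/-- `1` at `1` -/
noncomputable def dl (x : A) : ℤ := if x = 1 then 1 else 0

/-- the product in the group ring -/
noncomputable def cvl (f g : A → ℤ) : A → ℤ := fun x => ∑ᶠ y : A, f y * g (y⁻¹ * x)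

/-- the sum of the `x` with `x ^ p = 1` -/
noncomputable def om (p : ℕ) (k : Type*) [Field k] (A : Type*) [Group A] [Finite A] :
    MonoidAlgebra k A := zel k (omf p)

/-- the torus with two punctures -/
def rel2 (t : Fin 6 → A) : Prop := t 4 * t 5 * (t 0 * t 1 * (t 0)⁻¹) * (t 2 * t 3) = t 1

/-- the torus with three punctures -/
def rel3 (t : Fin 8 → A) : Prop :=
  t 0 * t 1 * (t 4 * t 5) * (t 0)⁻¹ * (t 6 * t 7) * (t 1)⁻¹ * (t 2 * t 3) = 1

open Classical in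
/-- the weights of the torus with two punctures -/
noncomputable def W2 (m h : A → ℤ) (t : Fin 6 → A) : ℤ :=
  if rel2 t then m (t 2) * h (t 3) * (m (t 4) * h (t 5)) else 0

open Classical in
/-- the weights of the torus with three punctures -/
noncomputable def W3 (m h : A → ℤ) (t : Fin 8 → A) : ℤ :=
  if rel3 t then m (t 2) * h (t 3) * (m (t 4) * h (t 5)) * (m (t 6) * h (t 7)) else 0

/-- the rotation of order 2 -/
def tau2 (t : Fin 6 → A) : Fin 6 → A :=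
  ![(t 0)⁻¹, t 0 * (t 1)⁻¹ * (t 0)⁻¹, t 4, t 5, t 2, t 3]

/-- the rotation of order 3 -/
def tau3 (t : Fin 8 → A) : Fin 8 → A := ![t 1, (t 0 * t 1)⁻¹, t 4, t 5, t 6, t 7, t 2, t 3]

open Classical in
/-- pairs as tuples -/
noncomputable def Pn (n : ℕ) (f : A → ℤ) (t : Fin (n + 2) → A) : ℤ :=
  if ∀ i : Fin n, t i.succ.succ = 1 then f (cmt (t 0) (t 1))⁻¹ else 0

/-- all weights, `p = 2` -/
noncomputable def D2 (m : A → ℤ) (t : Fin 6 → A) : ℤ :=
  W2 m (omf 2) t - W2 m dl t - Pn 4 (sf 2 m) t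

/-- all weights, `p = 3` -/
noncomputable def D3 (m : A → ℤ) (t : Fin 8 → A) : ℤ :=
  W3 m (omf 3) t - W3 m dl t - Pn 6 (sf 3 m) t

/-- the product of the members of a tuple -/
def pd {n : ℕ} (r : Fin n → A) : A := (List.ofFn r).prod

open Classical in
/-- the `n`-tuples with `r i ^ p = 1`, the first `k` members nontrivial -/
noncomputable def bS (p n k : ℕ) (m : A → ℤ) : ℤ :=
  ∑ᶠ r : Fin n → A, if (∀ i, r i ^ p = 1 ∧ (i.1 < k → r i ≠ 1)) ∧ Opr p (⊤ : Subgroup A) ≤ gt r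
    then m (pd r) ^ p else 0

open Classical in
/-- the tuples `(r 0, ..., r n)`, the first `n` with `r i ^ p = 1` -/
noncomputable def aH (p n : ℕ) (h m : A → ℤ) : ℤ :=
  ∑ᶠ r : Fin (n + 1) → A, if (∀ i : Fin n, r i.castSucc ^ p = 1) ∧ Opr p (⊤ : Subgroup A) ≤ gt r
    then (m (pd r) * h (r (Fin.last n))) ^ p else 0

theorem mem_gt (t : ι → A) (i : ι) : t i ∈ gt t := Subgroup.subset_closure ⟨i, rfl⟩

theorem gt_le {t : ι → A} {U : Subgroup A} : gt t ≤ U ↔ ∀ i, t i ∈ U := by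
  unfold gt
  rw [Subgroup.closure_le]
  constructor
  · intro h i
    exact h ⟨i, rfl⟩
  · rintro h _ ⟨i, rfl⟩
    exact h i

theorem cjt_one (t : ι → A) : cjt 1 t = t := by
  funext i
  simp [cjt]

theorem cjt_cjt (g h : A) (t : ι → A) : cjt g (cjt h t) = cjt (g * h) t := by
  funext i
  simp only [cjt, mul_inv_rev, mul_assoc]

theorem gt_cjt_le (g : A) (t : ι → A) : gt (cjt g t) ≤ cg g (gt t) := by
  rw [gt_le]
  intro i
  rw [mem_cg]
  have e : g⁻¹ * cjt g t i * g = t i := by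
    unfold cjt
    group
  rw [e]
  exact mem_gt t i

theorem gt_cjt (g : A) (t : ι → A) : gt (cjt g t) = cg g (gt t) := by
  apply le_antisymm (gt_cjt_le g t)
  intro x hx
  rw [mem_cg] at hx
  have h1 := gt_cjt_le g⁻¹ (cjt g t)
  rw [cjt_cjt, inv_mul_cancel, cjt_one] at h1
  have h2 := h1 hx
  rw [mem_cg] at h2
  have e : g⁻¹⁻¹ * (g⁻¹ * x * g) * g⁻¹ = x := by group
  rwa [e] at h2

theorem CF_omf (p : ℕ) : CF (omf p : A → ℤ) := by
  classical
  intro g x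
  unfold omf
  rw [conj_pow, conj_eq_one_iff]

theorem CF_dl : CF (dl : A → ℤ) := by
  classical
  intro g x
  unfold dl
  rw [conj_eq_one_iff]

theorem CFt_W2 {m h : A → ℤ} (hm : CF m) (hh : CF h) : CFt (W2 m h) := by
  classical
  intro g t
  unfold W2
  have e1 : ∀ i, cjt g t i = g * t i * g⁻¹ := fun _ => rfl
  simp only [e1, hm g, hh g]
  refine if_congr ?_ rfl rfl
  unfold rel2
  simp only [e1]
  have e2 : g * t 4 * g⁻¹ * (g * t 5 * g⁻¹) *
      (g * t 0 * g⁻¹ * (g * t 1 * g⁻¹) * (g * t 0 * g⁻¹)⁻¹) *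
      (g * t 2 * g⁻¹ * (g * t 3 * g⁻¹))
      = g * (t 4 * t 5 * (t 0 * t 1 * (t 0)⁻¹) * (t 2 * t 3)) * g⁻¹ := by group
  rw [e2]
  constructor
  · intro h
    exact mul_left_cancel (mul_right_cancel h)
  · intro h
    rw [h]

theorem CFt_W3 {m h : A → ℤ} (hm : CF m) (hh : CF h) : CFt (W3 m h) := by
  classical
  intro g t
  unfold W3
  have e1 : ∀ i, cjt g t i = g * t i * g⁻¹ := fun _ => rfl
  simp only [e1, hm g, hh g]
  refine if_congr ?_ rfl rfl
  unfold rel3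
  simp only [e1]
  have e2 : g * t 0 * g⁻¹ * (g * t 1 * g⁻¹) * (g * t 4 * g⁻¹ * (g * t 5 * g⁻¹)) *
      (g * t 0 * g⁻¹)⁻¹ * (g * t 6 * g⁻¹ * (g * t 7 * g⁻¹)) * (g * t 1 * g⁻¹)⁻¹ *
      (g * t 2 * g⁻¹ * (g * t 3 * g⁻¹))
      = g * (t 0 * t 1 * (t 4 * t 5) * (t 0)⁻¹ * (t 6 * t 7) * (t 1)⁻¹ * (t 2 * t 3)) * g⁻¹ := by
    group
  rw [e2, conj_eq_one_iff]

theorem CFt_Pn (n : ℕ) {f : A → ℤ} (hf : CF f) : CFt (Pn n f) := by
  classical
  intro g t
  unfold Pn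
  have e1 : ∀ i, cjt g t i = g * t i * g⁻¹ := fun _ => rfl
  simp only [e1, conj_eq_one_iff]
  have e2 : (cmt (g * t 0 * g⁻¹) (g * t 1 * g⁻¹))⁻¹ = g * (cmt (t 0) (t 1))⁻¹ * g⁻¹ := by
    unfold cmt
    group
  rw [e2, hf]

theorem CFt_D2 [Finite A] {m : A → ℤ} (hm : CF m) : CFt (D2 m) := by
  haveI : Fact (Nat.Prime 2) := ⟨Nat.prime_two⟩
  intro g t
  unfold D2
  rw [CFt_W2 hm (CF_omf 2) g t, CFt_W2 hm CF_dl g t, CFt_Pn 4 (CF_sf (p := 2) hm) g t]

theorem CFt_D3 [Finite A] {m : A → ℤ} (hm : CF m) : CFt (D3 m) := by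
  haveI : Fact (Nat.Prime 3) := ⟨Nat.prime_three⟩
  intro g t
  unfold D3
  rw [CFt_W3 hm (CF_omf 3) g t, CFt_W3 hm CF_dl g t, CFt_Pn 6 (CF_sf (p := 3) hm) g t]

theorem tau2_rel {t : Fin 6 → A} : rel2 (tau2 t) ↔ rel2 t := by
  unfold rel2
  have e0 : tau2 t 0 = (t 0)⁻¹ := rfl
  have e1 : tau2 t 1 = t 0 * (t 1)⁻¹ * (t 0)⁻¹ := rfl
  have e2 : tau2 t 2 = t 4 := rfl
  have e3 : tau2 t 3 = t 5 := rfl
  have e4 : tau2 t 4 = t 2 := rfl
  have e5 : tau2 t 5 = t 3 := rfl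
  rw [e0, e1, e2, e3, e4, e5]
  constructor
  · intro h
    have h1 : t 2 * t 3 * (t 1)⁻¹ * (t 4 * t 5) = t 0 * (t 1)⁻¹ * (t 0)⁻¹ := by
      rw [← h]
      group
    calc t 4 * t 5 * (t 0 * t 1 * (t 0)⁻¹) * (t 2 * t 3)
        = t 4 * t 5 * (t 0 * (t 1)⁻¹ * (t 0)⁻¹)⁻¹ * (t 2 * t 3) := by group
      _ = t 4 * t 5 * (t 2 * t 3 * (t 1)⁻¹ * (t 4 * t 5))⁻¹ * (t 2 * t 3) := by rw [h1]
      _ = t 1 := by group
  · intro h
    have h1 : (t 1)⁻¹ = (t 2 * t 3)⁻¹ * (t 0 * (t 1)⁻¹ * (t 0)⁻¹) * (t 4 * t 5)⁻¹ := by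
      conv_lhs => rw [← h]
      group
    calc t 2 * t 3 * ((t 0)⁻¹ * (t 0 * (t 1)⁻¹ * (t 0)⁻¹) * ((t 0)⁻¹)⁻¹) * (t 4 * t 5)
        = t 2 * t 3 * (t 1)⁻¹ * (t 4 * t 5) := by group
      _ = t 2 * t 3 * ((t 2 * t 3)⁻¹ * (t 0 * (t 1)⁻¹ * (t 0)⁻¹) * (t 4 * t 5)⁻¹) *
          (t 4 * t 5) := by rw [← h1]
      _ = t 0 * (t 1)⁻¹ * (t 0)⁻¹ := by group

theorem tau3_rel {t : Fin 8 → A} : rel3 (tau3 t) ↔ rel3 t := by
  unfold rel3
  have e0 : tau3 t 0 = t 1 := rfl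
  have e1 : tau3 t 1 = (t 0 * t 1)⁻¹ := rfl
  have e2 : tau3 t 2 = t 4 := rfl
  have e3 : tau3 t 3 = t 5 := rfl
  have e4 : tau3 t 4 = t 6 := rfl
  have e5 : tau3 t 5 = t 7 := rfl
  have e6 : tau3 t 6 = t 2 := rfl
  have e7 : tau3 t 7 = t 3 := rfl
  rw [e0, e1, e2, e3, e4, e5, e6, e7]
  have e : t 1 * (t 0 * t 1)⁻¹ * (t 6 * t 7) * (t 1)⁻¹ * (t 2 * t 3) * ((t 0 * t 1)⁻¹)⁻¹ *
      (t 4 * t 5) = (t 0 * t 1 * (t 4 * t 5))⁻¹ *
      (t 0 * t 1 * (t 4 * t 5) * (t 0)⁻¹ * (t 6 * t 7) * (t 1)⁻¹ * (t 2 * t 3)) *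
      ((t 0 * t 1 * (t 4 * t 5))⁻¹)⁻¹ := by group
  rw [e, conj_eq_one_iff]

theorem W2_tau (m h : A → ℤ) (t : Fin 6 → A) : W2 m h (tau2 t) = W2 m h t := by
  classical
  unfold W2
  refine if_congr tau2_rel ?_ rfl
  change m (t 4) * h (t 5) * (m (t 2) * h (t 3)) = _
  ring

theorem W3_tau (m h : A → ℤ) (t : Fin 8 → A) : W3 m h (tau3 t) = W3 m h t := by
  classical
  unfold W3
  refine if_congr tau3_rel ?_ rfl
  change m (t 4) * h (t 5) * (m (t 6) * h (t 7)) * (m (t 2) * h (t 3)) = _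
  ring

end

end Pool.Agent.Lib.P0c8ca5.By
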