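import Mathlib
import Pool.Agent.Lib.P0c8ca5V.DA
import Pool.Agent.Lib.P0c8ca5By.Defs

/-!
# BijA: the sphere, p = 2

PROOF. Bijection between the `(t, x)` with `x ^ 2 = 1`, `tau2 t = cjt x t`, `rel2 t` and the `r : Fin 5 → A` with `r 0, .., r 3` of square `1`:
`(t, x) ↦ r = ![x, x a, x a b, (x b)⁻¹ c1 u1, u1⁻¹]` (`a = t 0`, `b = t 1`, `c1 = t 2`, `u1 = t 3`), inverse
`r ↦ x = r 0, a = r 0 r 1, b = r 1 r 2, c1 = r 0 r 1 r 2 r 3 r 4, u1 = (r 4)⁻¹, c2 = x c1 x⁻¹, u2 = x u1 x⁻¹`.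
Given `x ^ 2 = 1`: `(r 1) ^ 2 = 1 ↔ x a x⁻¹ = a⁻¹`; then `(r 2) ^ 2 = 1 ↔ x b x⁻¹ = a b⁻¹ a⁻¹`; `r 0 r 1 r 2 = x a x a b = x b`; with `y1 = c1 u1`, `y2 = x y1 x⁻¹`:
`(r 3) ^ 2 = b⁻¹ x y1 b⁻¹ x y1 = 1 ↔ b = (x y1 x)(x b⁻¹ x) y1 = y2 a b a⁻¹ y1` (`rel2`). Product of `r` is `c1`. Weights: `m c2 = m c1`, `h u2 = h u1`, `h u1 = h (r 4)` by `hh'`.
Groups: `gt r` is generated by `gt t` and `x`; `x` normalizes `gt t` (`gt (cjt x t) = gt (tau2 t) = gt t`) and `x ^ 2 = 1`, so every `y ∈ gt r` has `y ^ 2 ∈ gt t` (`Subgroup.mem_sup`, normal closure;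
or: `gt r ≤ normalizer`, index at most 2): `Opr 2 ⊤ ≤ gt r → Opr 2 ⊤ ≤ gt t` by `Opr_eq_of_le`, `Opr_le_of_pow` (P0c8ca5V.DA, see `sum_H2` in Bx.PA for their use).
-/

namespace Pool.Agent.Lib.P0c8ca5.By

open MonoidAlgebra Bx

variable {A : Type*} [Group A] [Finite A]

private theorem tau2_gt_le (t : Fin 6 → A) : gt (tau2 t) ≤ gt t := by
  rw [gt_le]
  have h := mem_gt t
  intro i
  fin_cases i
  · exact inv_mem (h 0)
  · exact mul_mem (mul_mem (h 0) (inv_mem (h 1))) (inv_mem (h 0))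
  · exact h 4
  · exact h 5
  · exact h 2
  · exact h 3

private theorem tau2_iter (t : Fin 6 → A) : tau2 (tau2 t) = t := by
  funext i
  fin_cases i
  · change ((t 0)⁻¹)⁻¹ = t 0
    group
  · change (t 0)⁻¹ * (t 0 * (t 1)⁻¹ * (t 0)⁻¹)⁻¹ * ((t 0)⁻¹)⁻¹ = t 1
    group
  · rfl
  · rfl
  · rfl
  · rfl

theorem tau2_spec (t : Fin 6 → A) : tau2^[2] t = t ∧ gt (tau2 t) = gt t ∧
    ∀ g : A, tau2 (cjt g t) = cjt g (tau2 t) := by
  refine ⟨tau2_iter t, le_antisymm (tau2_gt_le t) ?_, ?_⟩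
  · conv_lhs => rw [← tau2_iter t]
    exact tau2_gt_le _
  · intro g
    funext i
    fin_cases i
    · change (g * t 0 * g⁻¹)⁻¹ = g * (t 0)⁻¹ * g⁻¹
      group
    · change g * t 0 * g⁻¹ * (g * t 1 * g⁻¹)⁻¹ * (g * t 0 * g⁻¹)⁻¹ =
        g * (t 0 * (t 1)⁻¹ * (t 0)⁻¹) * g⁻¹
      group
    · rfl
    · rfl
    · rfl
    · rfl

namespace BijAAux

/-- from the solutions to the tuples -/
def FF (y : (Fin 6 → A) × A) : Fin 5 → A :=
  ![y.2, y.2 * y.1 0, y.2 * y.1 0 * y.1 1, (y.2 * y.1 1)⁻¹ * (y.1 2 * y.1 3), (y.1 3)⁻¹]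

/-- the solution with given `x, a, b, c, u` -/
def sl (x a b c u : A) : Fin 6 → A :=
  ![a, b, c, u, x * c * x⁻¹, x * u * x⁻¹]

/-- from the tuples to the solutions -/
def GG (r : Fin 5 → A) : (Fin 6 → A) × A :=
  (sl (r 0) ((r 0)⁻¹ * r 1) ((r 1)⁻¹ * r 2) (r 0 * ((r 1)⁻¹ * r 2) * r 3 * r 4) (r 4)⁻¹, r 0)

omit [Finite A] in
theorem hx2 {x : A} (hx : x ^ 2 = 1) : x⁻¹ = x := by
  rw [pow_two] at hx
  exact inv_eq_of_mul_eq_one_left hx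

omit [Finite A] in
theorem hx3 {x : A} (hx : x ^ 2 = 1) (y : A) : x * (x * y * x⁻¹) * x⁻¹ = y := by
  rw [pow_two] at hx
  have h : x * (x * y * x⁻¹) * x⁻¹ = (x * x) * y * (x * x)⁻¹ := by group
  rw [h, hx]
  group

omit [Finite A] in
theorem axa {a x : A} (hx : x ^ 2 = 1) : (x * a) ^ 2 = 1 ↔ a⁻¹ = x * a * x⁻¹ := by
  rw [hx2 hx, pow_two]
  have e : x * a * (x * a) = (x * a * x) * a := by group
  rw [e, mul_eq_one_iff_eq_inv]
  exact eq_comm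

omit [Finite A] in
theorem axb {a b x : A} (hx : x ^ 2 = 1) (ha : (x * a) ^ 2 = 1) :
    (x * a * b) ^ 2 = 1 ↔ a * b⁻¹ * a⁻¹ = x * b * x⁻¹ := by
  have h1 := (axa hx).mp ha
  have h2 : x * a = a⁻¹ * x := by
    rw [h1]
    group
  have h3 : (x * a * b) ^ 2 = a⁻¹ * ((x * b * x⁻¹) * (a * b * a⁻¹)) * (a⁻¹)⁻¹ := by
    calc (x * a * b) ^ 2 = (x * a) * b * (x * a) * b := by
          rw [pow_two]
          group
      _ = (a⁻¹ * x) * b * (x * a) * b := by rw [h2]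
      _ = a⁻¹ * (x * b * x⁻¹) * (x ^ 2 * a * b) := by
          rw [pow_two]
          group
      _ = a⁻¹ * ((x * b * x⁻¹) * (a * b * a⁻¹)) * (a⁻¹)⁻¹ := by
          rw [hx]
          group
  rw [h3, conj_eq_one_iff, mul_eq_one_iff_eq_inv]
  have e : (a * b * a⁻¹)⁻¹ = a * b⁻¹ * a⁻¹ := by group
  rw [e]
  exact eq_comm

omit [Finite A] in
theorem key {x a b y : A} (hx : x ^ 2 = 1) (hb : a * b⁻¹ * a⁻¹ = x * b * x⁻¹) :
    ((x * b)⁻¹ * y) ^ 2 = b⁻¹ * (x * y * x⁻¹ * (a * b * a⁻¹) * y) := by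
  have e : a * b * a⁻¹ = (a * b⁻¹ * a⁻¹)⁻¹ := by group
  rw [e, hb]
  have e1 : b⁻¹ * (x * y * x⁻¹ * (x * b * x⁻¹)⁻¹ * y) = b⁻¹ * x * y * b⁻¹ * x⁻¹ * y := by group
  have e2 : ((x * b)⁻¹ * y) ^ 2 = b⁻¹ * x⁻¹ * y * b⁻¹ * x⁻¹ * y := by
    rw [pow_two]
    group
  rw [e1, e2, hx2 hx]

omit [Finite A] in
theorem rel2_sl {x a b c u : A} : rel2 (sl x a b c u) ↔
    x * (c * u) * x⁻¹ * (a * b * a⁻¹) * (c * u) = b := by
  unfold rel2
  have e : sl x a b c u 4 * sl x a b c u 5 *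
      (sl x a b c u 0 * sl x a b c u 1 * (sl x a b c u 0)⁻¹) *
      (sl x a b c u 2 * sl x a b c u 3)
      = x * (c * u) * x⁻¹ * (a * b * a⁻¹) * (c * u) := by
    change x * c * x⁻¹ * (x * u * x⁻¹) * (a * b * a⁻¹) * (c * u) = _
    group
  rw [e]
  rfl

omit [Finite A] in
theorem tau_sl {x a b c u : A} (hx : x ^ 2 = 1) (ha : (x * a) ^ 2 = 1)
    (hb : (x * a * b) ^ 2 = 1) :
    tau2 (sl x a b c u) = cjt x (sl x a b c u) := by
  funext i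
  fin_cases i
  · exact (axa hx).mp ha
  · exact (axb hx ha).mp hb
  · rfl
  · rfl
  · exact (hx3 hx c).symm
  · exact (hx3 hx u).symm

omit [Finite A] in
/-- the solutions are the `sl` -/
theorem eq_sl {t : Fin 6 → A} {x : A} (ht : tau2 t = cjt x t) :
    t = sl x (t 0) (t 1) (t 2) (t 3) := by
  have h2 : t 4 = x * t 2 * x⁻¹ := congrFun ht 2
  have h3 : t 5 = x * t 3 * x⁻¹ := congrFun ht 3
  funext i
  fin_cases i
  · rfl
  · rfl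
  · rfl
  · rfl
  · exact h2
  · exact h3

omit [Finite A] in
theorem ax2 {t : Fin 6 → A} {x : A} (hx : x ^ 2 = 1) (ht : tau2 t = cjt x t) :
    (x * t 0) ^ 2 = 1 := (axa hx).mpr (congrFun ht 0)

omit [Finite A] in
theorem FF_GG (r : Fin 5 → A) : FF (GG r) = r := by
  funext i
  fin_cases i
  · rfl
  · change r 0 * ((r 0)⁻¹ * r 1) = r 1
    group
  · change r 0 * ((r 0)⁻¹ * r 1) * ((r 1)⁻¹ * r 2) = r 2
    group
  · change (r 0 * ((r 1)⁻¹ * r 2))⁻¹ * (r 0 * ((r 1)⁻¹ * r 2) * r 3 * r 4 * (r 4)⁻¹) = r 3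
    group
  · change ((r 4)⁻¹)⁻¹ = r 4
    group

omit [Finite A] in
theorem GG_FF {t : Fin 6 → A} {x : A} (ht : tau2 t = cjt x t) : GG (FF (t, x)) = (t, x) := by
  have h1 : GG (FF (t, x)) = (sl x (t 0) (t 1) (t 2) (t 3), x) := by
    change (sl x (x⁻¹ * (x * t 0)) ((x * t 0)⁻¹ * (x * t 0 * t 1))
      (x * ((x * t 0)⁻¹ * (x * t 0 * t 1)) * ((x * t 1)⁻¹ * (t 2 * t 3)) * (t 3)⁻¹)
      ((t 3)⁻¹)⁻¹, x) = _
    have e1 : x⁻¹ * (x * t 0) = t 0 := by group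
    have e2 : (x * t 0)⁻¹ * (x * t 0 * t 1) = t 1 := by group
    have e3 : x * t 1 * ((x * t 1)⁻¹ * (t 2 * t 3)) * (t 3)⁻¹ = t 2 := by group
    rw [e1, e2, e3, inv_inv]
  rw [h1, ← eq_sl ht]

/-- the groups -/
theorem gt_iff {t : Fin 6 → A} {x : A} (hx : x ^ 2 = 1) (ht : tau2 t = cjt x t) :
    Opr 2 (⊤ : Subgroup A) ≤ gt t ↔ Opr 2 (⊤ : Subgroup A) ≤ gt (FF (t, x)) := by
  haveI : Fact (Nat.Prime 2) := ⟨Nat.prime_two⟩
  have hle : gt t ≤ gt (FF (t, x)) := by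
    rw [gt_le]
    have r := mem_gt (FF (t, x))
    have r0 : x ∈ gt (FF (t, x)) := r 0
    have r1 : x * t 0 ∈ gt (FF (t, x)) := r 1
    have r2 : x * t 0 * t 1 ∈ gt (FF (t, x)) := r 2
    have r3 : (x * t 1)⁻¹ * (t 2 * t 3) ∈ gt (FF (t, x)) := r 3
    have r4 : (t 3)⁻¹ ∈ gt (FF (t, x)) := r 4
    have k0 : t 0 ∈ gt (FF (t, x)) := by
      have h := mul_mem (inv_mem r0) r1
      rwa [inv_mul_cancel_left] at h
    have k1 : t 1 ∈ gt (FF (t, x)) := by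
      have h := mul_mem (inv_mem r1) r2
      rwa [inv_mul_cancel_left] at h
    have k3 : t 3 ∈ gt (FF (t, x)) := by
      have h := inv_mem r4
      rwa [inv_inv] at h
    have k2 : t 2 ∈ gt (FF (t, x)) := by
      have h := mul_mem (mul_mem (mul_mem r0 k1) r3) r4
      have e : x * t 1 * ((x * t 1)⁻¹ * (t 2 * t 3)) * (t 3)⁻¹ = t 2 := by group
      rwa [e] at h
    have cj : ∀ y ∈ gt (FF (t, x)), x * y * x⁻¹ ∈ gt (FF (t, x)) :=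
      fun y hy => mul_mem (mul_mem r0 hy) (inv_mem r0)
    have h4 : t 4 = x * t 2 * x⁻¹ := congrFun ht 2
    have h5 : t 5 = x * t 3 * x⁻¹ := congrFun ht 3
    intro i
    fin_cases i
    · exact k0
    · exact k1
    · exact k2
    · exact k3
    · change t 4 ∈ _
      rw [h4]
      exact cj _ k2
    · change t 5 ∈ _
      rw [h5]
      exact cj _ k3
  refine ⟨fun h => h.trans hle, fun h => ?_⟩
  -- `x` normalizes `gt t`
  have hcg : cg x (gt t) = gt t := by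
    rw [← gt_cjt, ← ht]
    exact (tau2_spec t).2.1
  have hxN : x ∈ Subgroup.normalizer (gt t : Set A) := cg_eq_self_iff.mp hcg
  have hN : ∀ (i : ℤ) (k : A), k ∈ gt t → x ^ i * k * (x ^ i)⁻¹ ∈ gt t := fun i k hk =>
    (Subgroup.mem_normalizer_iff.mp (zpow_mem hxN i) k).mp hk
  have hrep : ∀ y ∈ gt (FF (t, x)), ∃ k ∈ gt t, ∃ i : ℤ, y = k * x ^ i := by
    intro y hy
    unfold gt at hy
    induction hy using Subgroup.closure_induction with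
    | mem y hy =>
      obtain ⟨i, rfl⟩ := hy
      have k := mem_gt t
      fin_cases i
      · exact ⟨1, one_mem _, 1, by simp [FF]⟩
      · refine ⟨x ^ (1 : ℤ) * t 0 * (x ^ (1 : ℤ))⁻¹, hN _ _ (k 0), 1, ?_⟩
        change x * t 0 = _
        group
      · refine ⟨x ^ (1 : ℤ) * (t 0 * t 1) * (x ^ (1 : ℤ))⁻¹, hN _ _ (mul_mem (k 0) (k 1)), 1, ?_⟩
        change x * t 0 * t 1 = _
        group
      · refine ⟨(t 1)⁻¹ * (x ^ (-1 : ℤ) * (t 2 * t 3) * (x ^ (-1 : ℤ))⁻¹),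
          mul_mem (inv_mem (k 1)) (hN _ _ (mul_mem (k 2) (k 3))), -1, ?_⟩
        change (x * t 1)⁻¹ * (t 2 * t 3) = _
        group
      · exact ⟨(t 3)⁻¹, inv_mem (k 3), 0, by simp [FF]⟩
    | one => exact ⟨1, one_mem _, 0, by simp⟩
    | mul y z _ _ hy hz =>
      obtain ⟨k, hk, i, rfl⟩ := hy
      obtain ⟨l, hl, j, rfl⟩ := hz
      refine ⟨k * (x ^ i * l * (x ^ i)⁻¹), mul_mem hk (hN i l hl), i + j, ?_⟩
      rw [zpow_add]
      group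
    | inv y _ hy =>
      obtain ⟨k, hk, i, rfl⟩ := hy
      refine ⟨x ^ (-i) * k⁻¹ * (x ^ (-i))⁻¹, hN (-i) _ (inv_mem hk), -i, ?_⟩
      group
  have h1 : Opr 2 (gt (FF (t, x))) = Opr 2 (⊤ : Subgroup A) := Opr_eq_of_le h le_top
  rw [← h1]
  refine Opr_le_of_pow hle ?_ ?_
  · intro y hy
    obtain ⟨k, hk, i, rfl⟩ := hrep y hy
    exact mul_mem (Subgroup.le_normalizer hk) (zpow_mem hxN i)
  · intro y hy
    obtain ⟨k, hk, i, rfl⟩ := hrep y hy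
    refine ⟨1, ?_⟩
    have e : (k * x ^ i) ^ 2 ^ 1 = k * (x ^ i * k * (x ^ i)⁻¹) * (x ^ 2) ^ i := by
      rw [pow_one, pow_two]
      have e3 : (x ^ 2) ^ i = x ^ i * x ^ i := by
        rw [← zpow_natCast, ← zpow_mul, ← zpow_add]
        congr 1
        push_cast
        ring
      rw [e3]
      group
    rw [e, hx, one_zpow, mul_one]
    exact mul_mem hk (hN i k hk)

end BijAAux

open BijAAux

open Classical in
theorem bijA {m h : A → ℤ} (hm : CF m) (hh : CF h) (hh' : ∀ x, h x⁻¹ = h x) :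
    (∑ᶠ y : (Fin 6 → A) × A, if y.2 ^ 2 = 1 ∧ tau2 y.1 = cjt y.2 y.1 ∧
      Opr 2 (⊤ : Subgroup A) ≤ gt y.1 then W2 m h y.1 else 0) = aH 2 4 h m := by
  haveI : Fintype A := Fintype.ofFinite A
  have hL : ∀ y : (Fin 6 → A) × A, (if y.2 ^ 2 = 1 ∧ tau2 y.1 = cjt y.2 y.1 ∧
      Opr 2 (⊤ : Subgroup A) ≤ gt y.1 then W2 m h y.1 else 0) =
      if (y.2 ^ 2 = 1 ∧ tau2 y.1 = cjt y.2 y.1 ∧
      Opr 2 (⊤ : Subgroup A) ≤ gt y.1) ∧ rel2 y.1 then (m (y.1 2) * h (y.1 3)) ^ 2 else 0 := by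
    rintro ⟨t, x⟩
    by_cases hc : x ^ 2 = 1 ∧ tau2 t = cjt x t ∧ Opr 2 (⊤ : Subgroup A) ≤ gt t
    · rw [if_pos hc]
      unfold W2
      by_cases hr : rel2 t
      · rw [if_pos hr, if_pos ⟨hc, hr⟩]
        have e4 : m (t 4) = m (t 2) := by
          rw [show t 4 = x * t 2 * x⁻¹ from congrFun hc.2.1 2, hm]
        have e5 : h (t 5) = h (t 3) := by
          rw [show t 5 = x * t 3 * x⁻¹ from congrFun hc.2.1 3, hh]
        rw [e4, e5]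
        ring
      · rw [if_neg hr, if_neg (fun hh => hr hh.2)]
    · rw [if_neg hc, if_neg (fun hh => hc hh.1)]
  rw [finsum_congr hL]
  unfold aH
  rw [finsum_eq_sum_of_fintype, finsum_eq_sum_of_fintype, ← Finset.sum_filter,
    ← Finset.sum_filter]
  refine Finset.sum_nbij' FF GG ?_ ?_ ?_ ?_ ?_
  · rintro ⟨t, x⟩ hy
    rw [Finset.mem_filter] at hy ⊢
    obtain ⟨-, ⟨hx, ht, hO⟩, hr⟩ := hy
    refine ⟨Finset.mem_univ _, ?_, (gt_iff hx ht).mp hO⟩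
    have ha := ax2 hx ht
    have hb : t 0 * (t 1)⁻¹ * (t 0)⁻¹ = x * t 1 * x⁻¹ := congrFun ht 1
    intro i
    fin_cases i
    · exact hx
    · exact ha
    · exact (axb hx ha).mpr hb
    · change ((x * t 1)⁻¹ * (t 2 * t 3)) ^ 2 = 1
      rw [key hx hb]
      rw [eq_sl ht, rel2_sl] at hr
      rw [hr, inv_mul_cancel]
  · intro r hr
    rw [Finset.mem_filter] at hr ⊢
    obtain ⟨-, hr, hO⟩ := hr
    have hx : r 0 ^ 2 = 1 := hr 0
    have ha : (r 0 * ((r 0)⁻¹ * r 1)) ^ 2 = 1 := by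
      rw [mul_inv_cancel_left]
      exact hr 1
    have hb : (r 0 * ((r 0)⁻¹ * r 1) * ((r 1)⁻¹ * r 2)) ^ 2 = 1 := by
      rw [mul_inv_cancel_left, mul_inv_cancel_left]
      exact hr 2
    have ht : tau2 (GG r).1 = cjt (r 0) (GG r).1 := tau_sl hx ha hb
    refine ⟨Finset.mem_univ _, ⟨hx, ht, ?_⟩, ?_⟩
    · rw [gt_iff hx ht]
      have e : FF ((GG r).1, r 0) = r := FF_GG r
      rw [e]
      exact hO
    · change rel2 (sl (r 0) ((r 0)⁻¹ * r 1) ((r 1)⁻¹ * r 2) (r 0 * ((r 1)⁻¹ * r 2) * r 3 * r 4)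
        (r 4)⁻¹)
      rw [rel2_sl]
      have e := key (y := r 0 * ((r 1)⁻¹ * r 2) * r 3 * r 4 * (r 4)⁻¹) hx ((axb hx ha).mp hb)
      have e1 : (r 0 * ((r 1)⁻¹ * r 2))⁻¹ * (r 0 * ((r 1)⁻¹ * r 2) * r 3 * r 4 * (r 4)⁻¹) = r 3 := by
        group
      have h3 : r 3 ^ 2 = 1 := hr 3
      rw [e1, h3] at e
      exact (inv_mul_eq_one.mp e.symm).symm
  · rintro ⟨t, x⟩ hy
    rw [Finset.mem_filter] at hy
    exact GG_FF hy.2.1.2.1
  · intro r _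
    exact FF_GG r
  · rintro ⟨t, x⟩ hy
    rw [Finset.mem_filter] at hy
    have hx := hy.2.1.1
    have ha : (t 0)⁻¹ = x * t 0 * x⁻¹ := congrFun hy.2.1.2.1 0
    have e1 : pd (FF (t, x)) = t 2 := by
      unfold pd FF
      simp only [List.ofFn_succ, List.ofFn_zero, List.prod_cons, List.prod_nil]
      change x * (x * t 0 * (x * t 0 * t 1 * ((x * t 1)⁻¹ * (t 2 * t 3) * ((t 3)⁻¹ * 1)))) = t 2
      have e2 : x * (x * t 0 * (x * t 0 * t 1 * ((x * t 1)⁻¹ * (t 2 * t 3) * ((t 3)⁻¹ * 1)))) =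
        x ^ 2 * t 0 * (x * t 0 * x⁻¹) * t 2 := by
        rw [pow_two]
        group
      rw [e2, hx, ← ha]
      group
    have e2 : FF (t, x) (Fin.last 4) = (t 3)⁻¹ := rfl
    rw [e1, e2, hh']

end Pool.Agent.Lib.P0c8ca5.By
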