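import Mathlib
import Pool.Agent.Lib.P0c8ca5V.DA
import Pool.Agent.Lib.P0c8ca5By.Defs

/-!
# BijB: the sphere, p = 3

PROOF. As BijA: bijection between the `(t, x)` with `x ^ 3 = 1`, `tau3 t = cjt x t`, `rel3 t` and the `r : Fin 4 → A` with `r 0, r 1, r 2` of cube `1`:
`(t, x) ↦ r = ![x, a x, (x a x)⁻¹ c1 u1, u1⁻¹]`, inverse `r ↦ x = r 0, a = r 1 (r 0)⁻¹, b = x a x⁻¹, c1 = r 0 r 1 r 2 r 3, u1 = (r 3)⁻¹, c2 = x c1 x⁻¹, u2 = x u1 x⁻¹, c3 = x c2 x⁻¹, u3 = x u2 x⁻¹`.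
`tau3 t = cjt x t` says `b = x a x⁻¹`, `(a b)⁻¹ = x b x⁻¹`, `c2 = x c1 x⁻¹` etc. (the last ones, `c1 = x c3 x⁻¹`, follow from `x ^ 3 = 1`). `(a x) ^ 3 = a (x a x⁻¹) (x ^ 2 a x ^ (-2)) x ^ 3
= a b (x b x⁻¹)`, so `(r 1) ^ 3 = 1 ↔ x b x⁻¹ = (a b)⁻¹`. With `y1 = c1 u1`, `y2 = x y1 x⁻¹`, `y3 = x y2 x⁻¹`: `r 2 = (x⁻¹ a⁻¹ x) y2 x = a b y2 x` (`x⁻¹ a x = x ^ 2 a x ^ (-2) = x b x⁻¹ = (a b)⁻¹`), so
`(r 2) ^ 3 = (a b y2) (a⁻¹ y3) (b⁻¹ y1) = a b y2 a⁻¹ y3 b⁻¹ y1` (`x (a b) x⁻¹ = b (a b)⁻¹ = a⁻¹`, `x a⁻¹ x⁻¹ = b⁻¹`): `(r 2) ^ 3 = 1 ↔ rel3 t`. Product of `r` is `c1`. Weights: `m c1 = m c2 = m c3` etc.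
Groups: `x` normalizes `gt t`, `gt r` is generated by `gt t` and `x`, `x ^ 3 = 1`; see BijA (`y ^ 3 ∈ gt t` for `y ∈ gt r`).
-/

namespace Pool.Agent.Lib.P0c8ca5.By

open MonoidAlgebra Bx

variable {A : Type*} [Group A] [Finite A]

private theorem tau3_gt_le (t : Fin 8 → A) : gt (tau3 t) ≤ gt t := by
  rw [gt_le]
  have h := mem_gt t
  intro i
  fin_cases i
  · exact h 1
  · exact inv_mem (mul_mem (h 0) (h 1))
  · exact h 4
  · exact h 5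
  · exact h 6
  · exact h 7
  · exact h 2
  · exact h 3

private theorem tau3_iter (t : Fin 8 → A) : tau3 (tau3 (tau3 t)) = t := by
  funext i
  fin_cases i
  · change (t 1 * (t 0 * t 1)⁻¹)⁻¹ = t 0
    group
  · change ((t 0 * t 1)⁻¹ * (t 1 * (t 0 * t 1)⁻¹)⁻¹)⁻¹ = t 1
    group
  · rfl
  · rfl
  · rfl
  · rfl
  · rfl
  · rfl

theorem tau3_spec (t : Fin 8 → A) : tau3^[3] t = t ∧ gt (tau3 t) = gt t ∧
    ∀ g : A, tau3 (cjt g t) = cjt g (tau3 t) := by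
  refine ⟨tau3_iter t, le_antisymm (tau3_gt_le t) ?_, ?_⟩
  · conv_lhs => rw [← tau3_iter t]
    exact (tau3_gt_le _).trans (tau3_gt_le _)
  · intro g
    funext i
    fin_cases i
    · rfl
    · change (g * t 0 * g⁻¹ * (g * t 1 * g⁻¹))⁻¹ = g * (t 0 * t 1)⁻¹ * g⁻¹
      group
    · rfl
    · rfl
    · rfl
    · rfl
    · rfl
    · rfl

namespace BijBAux

/-- from the solutions to the tuples -/
def FF (y : (Fin 8 → A) × A) : Fin 4 → A :=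
  ![y.2, y.1 0 * y.2, (y.2 * y.1 0 * y.2)⁻¹ * (y.1 2 * y.1 3), (y.1 3)⁻¹]

/-- the solution with given `x, a, c, u` -/
def sl (x a c u : A) : Fin 8 → A :=
  ![a, x * a * x⁻¹, c, u, x * c * x⁻¹, x * u * x⁻¹, x * (x * c * x⁻¹) * x⁻¹,
    x * (x * u * x⁻¹) * x⁻¹]

/-- from the tuples to the solutions -/
def GG (r : Fin 4 → A) : (Fin 8 → A) × A :=
  (sl (r 0) (r 1 * (r 0)⁻¹) (r 0 * r 1 * r 2 * r 3) (r 3)⁻¹, r 0)

omit [Finite A] in
theorem hx2 {x : A} (hx : x ^ 3 = 1) : x * x = x⁻¹ := by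
  have h : x * x * x = 1 := by rw [← hx, pow_succ, pow_two]
  exact eq_inv_of_mul_eq_one_left h

omit [Finite A] in
theorem hx3 {x : A} (hx : x ^ 3 = 1) (y : A) : x * (x * (x * y * x⁻¹) * x⁻¹) * x⁻¹ = y := by
  have h : x * (x * (x * y * x⁻¹) * x⁻¹) * x⁻¹ = (x * x) * x * y * ((x * x) * x)⁻¹ := by group
  rw [h, hx2 hx]
  group

omit [Finite A] in
theorem cube {a x : A} : (a * x) ^ 3 = a * x * a * (x * a * x) := by
  rw [pow_succ, pow_two]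
  group

omit [Finite A] in
theorem axa {a x : A} (h : (a * x) ^ 3 = 1) : x⁻¹ * a⁻¹ * x⁻¹ = a * x * a := by
  rw [cube] at h
  rw [eq_inv_of_mul_eq_one_left h]
  group

omit [Finite A] in
theorem axb {a x : A} (hx : x ^ 3 = 1) :
    (a * x) ^ 3 = 1 ↔ (a * (x * a * x⁻¹))⁻¹ = x * (x * a * x⁻¹) * x⁻¹ := by
  have e : x * (x * a * x⁻¹) * x⁻¹ = x⁻¹ * a * x := by
    have h : x * (x * a * x⁻¹) * x⁻¹ = (x * x) * a * (x * x)⁻¹ := by group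
    rw [h, hx2 hx, inv_inv]
  rw [e]
  constructor
  · intro h
    have h1 := axa h
    calc (a * (x * a * x⁻¹))⁻¹ = x * (a * x * a)⁻¹ := by group
      _ = x * (x⁻¹ * a⁻¹ * x⁻¹)⁻¹ := by rw [h1]
      _ = x * x * a * x := by group
      _ = x⁻¹ * a * x := by rw [hx2 hx]
  · intro h
    rw [cube]
    have h2 : a * x * a = (x⁻¹ * a * x)⁻¹ * x := by
      rw [← h]
      group
    rw [h2]
    have h3 : (x⁻¹ * a * x)⁻¹ * x * (x * a * x) = x⁻¹ * a⁻¹ * (x * x * x) * a * x := by group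
    rw [h3, hx2 hx]
    group

omit [Finite A] in
theorem key {x a y : A} (hx : x ^ 3 = 1) (ha : (a * x) ^ 3 = 1) :
    ((x * a * x)⁻¹ * y) ^ 3 = a * (x * a * x⁻¹) * (x * y * x⁻¹) * a⁻¹ *
      (x * (x * y * x⁻¹) * x⁻¹) * (x * a * x⁻¹)⁻¹ * y := by
  have h1 := axa ha
  have h2 := hx2 hx
  have e1 : (x * a * x)⁻¹ = x⁻¹ * a⁻¹ * x⁻¹ := by group
  have e2 : a * (x * a * x⁻¹) * (x * y * x⁻¹) * a⁻¹ *
      (x * (x * y * x⁻¹) * x⁻¹) * (x * a * x⁻¹)⁻¹ * y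
      = a * x * a * y * (x⁻¹ * a⁻¹ * (x * x)) * y * (x⁻¹ * a⁻¹ * x⁻¹) * y := by group
  rw [e1, e2, h2, h1, pow_succ, pow_two]
  group

omit [Finite A] in
theorem rel3_sl {x a c u : A} : rel3 (sl x a c u) ↔ a * (x * a * x⁻¹) * (x * (c * u) * x⁻¹) *
      a⁻¹ * (x * (x * (c * u) * x⁻¹) * x⁻¹) * (x * a * x⁻¹)⁻¹ * (c * u) = 1 := by
  unfold rel3
  have e : sl x a c u 0 * sl x a c u 1 * (sl x a c u 4 * sl x a c u 5) * (sl x a c u 0)⁻¹ *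
      (sl x a c u 6 * sl x a c u 7) * (sl x a c u 1)⁻¹ * (sl x a c u 2 * sl x a c u 3)
      = a * (x * a * x⁻¹) * (x * (c * u) * x⁻¹) *
      a⁻¹ * (x * (x * (c * u) * x⁻¹) * x⁻¹) * (x * a * x⁻¹)⁻¹ * (c * u) := by
    change a * (x * a * x⁻¹) * (x * c * x⁻¹ * (x * u * x⁻¹)) * a⁻¹ *
      (x * (x * c * x⁻¹) * x⁻¹ * (x * (x * u * x⁻¹) * x⁻¹)) * (x * a * x⁻¹)⁻¹ * (c * u) = _
    group
  rw [e]

omit [Finite A] in
theorem tau_sl {x a c u : A} (hx : x ^ 3 = 1) (ha : (a * x) ^ 3 = 1) :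
    tau3 (sl x a c u) = cjt x (sl x a c u) := by
  funext i
  fin_cases i
  · rfl
  · exact (axb hx).mp ha
  · rfl
  · rfl
  · rfl
  · rfl
  · exact (hx3 hx c).symm
  · exact (hx3 hx u).symm

omit [Finite A] in
/-- the solutions are the `sl` -/
theorem eq_sl {t : Fin 8 → A} {x : A} (ht : tau3 t = cjt x t) :
    t = sl x (t 0) (t 2) (t 3) := by
  have h0 : t 1 = x * t 0 * x⁻¹ := congrFun ht 0
  have h2 : t 4 = x * t 2 * x⁻¹ := congrFun ht 2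
  have h3 : t 5 = x * t 3 * x⁻¹ := congrFun ht 3
  have h4 : t 6 = x * t 4 * x⁻¹ := congrFun ht 4
  have h5 : t 7 = x * t 5 * x⁻¹ := congrFun ht 5
  funext i
  fin_cases i
  · rfl
  · exact h0
  · rfl
  · rfl
  · exact h2
  · exact h3
  · rw [h2] at h4
    exact h4
  · rw [h3] at h5
    exact h5

omit [Finite A] in
theorem ax3 {t : Fin 8 → A} {x : A} (hx : x ^ 3 = 1) (ht : tau3 t = cjt x t) :
    (t 0 * x) ^ 3 = 1 := by
  rw [axb hx]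
  have h0 : t 1 = x * t 0 * x⁻¹ := congrFun ht 0
  have h1 : (t 0 * t 1)⁻¹ = x * t 1 * x⁻¹ := congrFun ht 1
  rw [← h0]
  exact h1

omit [Finite A] in
theorem FF_GG (r : Fin 4 → A) : FF (GG r) = r := by
  funext i
  fin_cases i
  · rfl
  · change r 1 * (r 0)⁻¹ * r 0 = r 1
    group
  · change (r 0 * (r 1 * (r 0)⁻¹) * r 0)⁻¹ * (r 0 * r 1 * r 2 * r 3 * (r 3)⁻¹) = r 2
    group
  · change ((r 3)⁻¹)⁻¹ = r 3
    group

omit [Finite A] in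
theorem GG_FF {t : Fin 8 → A} {x : A} (ht : tau3 t = cjt x t) : GG (FF (t, x)) = (t, x) := by
  have h1 : GG (FF (t, x)) = (sl x (t 0) (t 2) (t 3), x) := by
    change (sl x (t 0 * x * x⁻¹) (x * (t 0 * x) * ((x * t 0 * x)⁻¹ * (t 2 * t 3)) * (t 3)⁻¹)
      ((t 3)⁻¹)⁻¹, x) = _
    have e1 : t 0 * x * x⁻¹ = t 0 := by group
    have e2 : x * (t 0 * x) * ((x * t 0 * x)⁻¹ * (t 2 * t 3)) * (t 3)⁻¹ = t 2 := by group
    rw [e1, e2, inv_inv]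
  rw [h1, ← eq_sl ht]

/-- the groups -/
theorem gt_iff {t : Fin 8 → A} {x : A} (hx : x ^ 3 = 1) (ht : tau3 t = cjt x t) :
    Opr 3 (⊤ : Subgroup A) ≤ gt t ↔ Opr 3 (⊤ : Subgroup A) ≤ gt (FF (t, x)) := by
  haveI : Fact (Nat.Prime 3) := ⟨Nat.prime_three⟩
  have hle : gt t ≤ gt (FF (t, x)) := by
    rw [gt_le]
    have r := mem_gt (FF (t, x))
    have r0 : x ∈ gt (FF (t, x)) := r 0
    have r1 : t 0 * x ∈ gt (FF (t, x)) := r 1
    have r2 : (x * t 0 * x)⁻¹ * (t 2 * t 3) ∈ gt (FF (t, x)) := r 2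
    have r3 : (t 3)⁻¹ ∈ gt (FF (t, x)) := r 3
    have k0 : t 0 ∈ gt (FF (t, x)) := by
      have h := mul_mem r1 (inv_mem r0)
      rwa [mul_inv_cancel_right] at h
    have k3 : t 3 ∈ gt (FF (t, x)) := by
      have h := inv_mem r3
      rwa [inv_inv] at h
    have k2 : t 2 ∈ gt (FF (t, x)) := by
      have h := mul_mem (mul_mem (mul_mem (mul_mem r0 k0) r0) r2) r3
      have e : x * t 0 * x * ((x * t 0 * x)⁻¹ * (t 2 * t 3)) * (t 3)⁻¹ = t 2 := by group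
      rwa [e] at h
    have cj : ∀ y ∈ gt (FF (t, x)), x * y * x⁻¹ ∈ gt (FF (t, x)) :=
      fun y hy => mul_mem (mul_mem r0 hy) (inv_mem r0)
    rw [eq_sl ht]
    intro i
    rw [← eq_sl ht]
    have e := eq_sl ht
    fin_cases i
    · exact k0
    · change t 1 ∈ _
      rw [e]
      exact cj _ k0
    · exact k2
    · exact k3
    · change t 4 ∈ _
      rw [e]
      exact cj _ k2
    · change t 5 ∈ _
      rw [e]
      exact cj _ k3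
    · change t 6 ∈ _
      rw [e]
      exact cj _ (cj _ k2)
    · change t 7 ∈ _
      rw [e]
      exact cj _ (cj _ k3)
  refine ⟨fun h => h.trans hle, fun h => ?_⟩
  -- `x` normalizes `gt t`
  have hcg : cg x (gt t) = gt t := by
    rw [← gt_cjt, ← ht]
    exact (tau3_spec t).2.1
  have hxN : x ∈ Subgroup.normalizer (gt t : Set A) := cg_eq_self_iff.mp hcg
  have hN : ∀ (i : ℤ) (k : A), k ∈ gt t → x ^ i * k * (x ^ i)⁻¹ ∈ gt t := fun i k hk =>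
    (Subgroup.mem_normalizer_iff.mp (zpow_mem hxN i) k).mp hk
  have hrep : ∀ y ∈ gt (FF (t, x)), ∃ k ∈ gt t, ∃ i : ℤ, y = k * x ^ i := by
    intro y hy
    unfold gt at hy
    induction hy using Subgroup.closure_induction with
    | mem y hy =>
      obtain ⟨i, rfl⟩ := hy
      have k := mem_gt t
      fin_cases i
      · exact ⟨1, one_mem _, 1, by simp [FF]⟩
      · exact ⟨t 0, k 0, 1, by simp [FF]⟩
      · refine ⟨(x ^ (-1 : ℤ) * (t 0)⁻¹ * (x ^ (-1 : ℤ))⁻¹) *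
          (x ^ (-2 : ℤ) * (t 2 * t 3) * (x ^ (-2 : ℤ))⁻¹),
          mul_mem (hN _ _ (inv_mem (k 0))) (hN _ _ (mul_mem (k 2) (k 3))), -2, ?_⟩
        change (x * t 0 * x)⁻¹ * (t 2 * t 3) = _
        group
      · exact ⟨(t 3)⁻¹, inv_mem (k 3), 0, by simp [FF]⟩
    | one => exact ⟨1, one_mem _, 0, by simp⟩
    | mul y z _ _ hy hz =>
      obtain ⟨k, hk, i, rfl⟩ := hy
      obtain ⟨l, hl, j, rfl⟩ := hz
      refine ⟨k * (x ^ i * l * (x ^ i)⁻¹), mul_mem hk (hN i l hl), i + j, ?_⟩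
      rw [zpow_add]
      group
    | inv y _ hy =>
      obtain ⟨k, hk, i, rfl⟩ := hy
      refine ⟨x ^ (-i) * k⁻¹ * (x ^ (-i))⁻¹, hN (-i) _ (inv_mem hk), -i, ?_⟩
      group
  have h1 : Opr 3 (gt (FF (t, x))) = Opr 3 (⊤ : Subgroup A) := Opr_eq_of_le h le_top
  rw [← h1]
  refine Opr_le_of_pow hle ?_ ?_
  · intro y hy
    obtain ⟨k, hk, i, rfl⟩ := hrep y hy
    exact mul_mem (Subgroup.le_normalizer hk) (zpow_mem hxN i)
  · intro y hy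
    obtain ⟨k, hk, i, rfl⟩ := hrep y hy
    refine ⟨1, ?_⟩
    have e : (k * x ^ i) ^ 3 ^ 1 = k * (x ^ i * k * (x ^ i)⁻¹) *
        (x ^ (i + i) * k * (x ^ (i + i))⁻¹) * (x ^ 3) ^ i := by
      rw [pow_one, pow_succ, pow_two]
      have e3 : (x ^ 3) ^ i = x ^ i * x ^ i * x ^ i := by
        rw [← zpow_natCast, ← zpow_mul, ← zpow_add, ← zpow_add]
        congr 1
        push_cast
        ring
      rw [e3, zpow_add]
      group
    rw [e, hx, one_zpow, mul_one]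
    exact mul_mem (mul_mem hk (hN i k hk)) (hN _ k hk)

end BijBAux

open BijBAux

open Classical in
theorem bijB {m h : A → ℤ} (hm : CF m) (hh : CF h) (hh' : ∀ x, h x⁻¹ = h x) :
    (∑ᶠ y : (Fin 8 → A) × A, if y.2 ^ 3 = 1 ∧ tau3 y.1 = cjt y.2 y.1 ∧
      Opr 3 (⊤ : Subgroup A) ≤ gt y.1 then W3 m h y.1 else 0) = aH 3 3 h m := by
  haveI : Fintype A := Fintype.ofFinite A
  have hL : ∀ y : (Fin 8 → A) × A, (if y.2 ^ 3 = 1 ∧ tau3 y.1 = cjt y.2 y.1 ∧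
      Opr 3 (⊤ : Subgroup A) ≤ gt y.1 then W3 m h y.1 else 0) =
      if (y.2 ^ 3 = 1 ∧ tau3 y.1 = cjt y.2 y.1 ∧
      Opr 3 (⊤ : Subgroup A) ≤ gt y.1) ∧ rel3 y.1 then (m (y.1 2) * h (y.1 3)) ^ 3 else 0 := by
    rintro ⟨t, x⟩
    by_cases hc : x ^ 3 = 1 ∧ tau3 t = cjt x t ∧ Opr 3 (⊤ : Subgroup A) ≤ gt t
    · rw [if_pos hc]
      unfold W3
      by_cases hr : rel3 t
      · rw [if_pos hr, if_pos ⟨hc, hr⟩]
        have e := eq_sl hc.2.1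
        have e4 : m (t 4) = m (t 2) := by
          rw [show t 4 = x * t 2 * x⁻¹ from congrFun e 4, hm]
        have e5 : h (t 5) = h (t 3) := by
          rw [show t 5 = x * t 3 * x⁻¹ from congrFun e 5, hh]
        have e6 : m (t 6) = m (t 2) := by
          rw [show t 6 = x * (x * t 2 * x⁻¹) * x⁻¹ from congrFun e 6, hm, hm]
        have e7 : h (t 7) = h (t 3) := by
          rw [show t 7 = x * (x * t 3 * x⁻¹) * x⁻¹ from congrFun e 7, hh, hh]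
        rw [e4, e5, e6, e7]
        ring
      · rw [if_neg hr, if_neg (fun hh => hr hh.2)]
    · rw [if_neg hc, if_neg (fun hh => hc hh.1)]
  rw [finsum_congr hL]
  unfold aH
  rw [finsum_eq_sum_of_fintype, finsum_eq_sum_of_fintype, ← Finset.sum_filter,
    ← Finset.sum_filter]
  refine Finset.sum_nbij' FF GG ?_ ?_ ?_ ?_ ?_
  · rintro ⟨t, x⟩ hy
    rw [Finset.mem_filter] at hy ⊢
    obtain ⟨-, ⟨hx, ht, hO⟩, hr⟩ := hy
    refine ⟨Finset.mem_univ _, ?_, (gt_iff hx ht).mp hO⟩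
    have ha := ax3 hx ht
    intro i
    fin_cases i
    · exact hx
    · exact ha
    · change ((x * t 0 * x)⁻¹ * (t 2 * t 3)) ^ 3 = 1
      rw [key hx ha]
      rw [eq_sl ht, rel3_sl] at hr
      exact hr
  · intro r hr
    rw [Finset.mem_filter] at hr ⊢
    obtain ⟨-, hr, hO⟩ := hr
    have hx : r 0 ^ 3 = 1 := hr 0
    have ha : (r 1 * (r 0)⁻¹ * r 0) ^ 3 = 1 := by
      rw [inv_mul_cancel_right]
      exact hr 1
    have ht : tau3 (GG r).1 = cjt (r 0) (GG r).1 := tau_sl hx ha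
    refine ⟨Finset.mem_univ _, ⟨hx, ht, ?_⟩, ?_⟩
    · rw [gt_iff hx ht]
      have e : FF ((GG r).1, r 0) = r := FF_GG r
      rw [e]
      exact hO
    · change rel3 (sl (r 0) (r 1 * (r 0)⁻¹) (r 0 * r 1 * r 2 * r 3) (r 3)⁻¹)
      rw [rel3_sl, ← key hx ha]
      have e : (r 0 * (r 1 * (r 0)⁻¹) * r 0)⁻¹ * (r 0 * r 1 * r 2 * r 3 * (r 3)⁻¹) = r 2 := by
        group
      rw [e]
      exact hr 2
  · rintro ⟨t, x⟩ hy
    rw [Finset.mem_filter] at hy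
    exact GG_FF hy.2.1.2.1
  · intro r _
    exact FF_GG r
  · rintro ⟨t, x⟩ hy
    have e1 : pd (FF (t, x)) = t 2 := by
      unfold pd FF
      simp only [List.ofFn_succ, List.ofFn_zero, List.prod_cons, List.prod_nil]
      change x * (t 0 * x * ((x * t 0 * x)⁻¹ * (t 2 * t 3) * ((t 3)⁻¹ * 1))) = t 2
      group
    have e2 : FF (t, x) (Fin.last 3) = (t 3)⁻¹ := rfl
    rw [e1, e2, hh']

end Pool.Agent.Lib.P0c8ca5.By
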