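import Mathlib
import Pool.Agent.Lib.P0c8ca5By.Defs

/-!
# p-parts of order at most p

* `secT p z`: coefficient `z (y_{p'})` at the `y` whose p-part has order at most `p`, `0` elsewhere.
* `pfT p m`: the same for weights; `sfT p m`: at the `y` whose p-part has order exactly `p`.
-/

namespace Pool.Agent.Lib.P0c8ca5.By

open MonoidAlgebra Bx

section
variable {A : Type*} [Group A]

open Classical in
/-- `y ↦ m (y_{p'})` at the `y` whose p-part has order at most `p` -/
noncomputable def pfT (p : ℕ) (m : A → ℤ) : A → ℤ :=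
  fun y => if (y * (pr p y)⁻¹) ^ p = 1 then m (pr p y) else 0

open Classical in
/-- `y ↦ m (y_{p'})` at the `y` whose p-part has order exactly `p` -/
noncomputable def sfT (p : ℕ) (m : A → ℤ) : A → ℤ :=
  fun y => if (y * (pr p y)⁻¹) ^ p = 1 ∧ ¬ Preg p y then m (pr p y) else 0

open Classical in
/-- the element with the coefficients of `z` at the p'-parts, p-parts of order at most `p` -/
noncomputable def secT (p : ℕ) {k : Type*} [Field k] [Finite A] (z : MonoidAlgebra k A) :
    MonoidAlgebra k A :=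
  MonoidAlgebra.ofCoeff (Finsupp.equivFunOnFinite.symm fun y =>
    if (y * (pr p y)⁻¹) ^ p = 1 then z.coeff (pr p y) else 0)

open Classical in
theorem secT_coeff (p : ℕ) {k : Type*} [Field k] [Finite A] (z : MonoidAlgebra k A) (y : A) :
    (secT p z).coeff y = if (y * (pr p y)⁻¹) ^ p = 1 then z.coeff (pr p y) else 0 := rfl

theorem pp_conj {p : ℕ} [Fact p.Prime] [Finite A] (g y : A) :
    (g * y * g⁻¹ * (pr p (g * y * g⁻¹))⁻¹) ^ p = 1 ↔ (y * (pr p y)⁻¹) ^ p = 1 := by
  rw [pr_conj]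
  have e : g * y * g⁻¹ * (g * pr p y * g⁻¹)⁻¹ = g * (y * (pr p y)⁻¹) * g⁻¹ := by group
  rw [e, conj_pow, conj_eq_one_iff]

theorem secT_mem {p : ℕ} [Fact p.Prime] {k : Type*} [Field k] [Finite A] {z : MonoidAlgebra k A}
    (hz : z ∈ fixAlg k (⊤ : Subgroup A) ⊤) : secT p z ∈ fixAlg k (⊤ : Subgroup A) ⊤ := by
  classical
  rw [mem_fixAlg] at hz ⊢
  refine ⟨fun x _ => Subgroup.mem_top x, fun g hg x => ?_⟩
  rw [secT_coeff, secT_coeff]
  refine if_congr (pp_conj g x) ?_ rfl
  rw [pr_conj, hz.2 g hg]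

theorem secT_zel (p : ℕ) (k : Type*) [Field k] [Finite A] (m : A → ℤ) :
    secT p (zel k m) = zel k (pfT p m) := by
  classical
  ext y
  rw [secT_coeff, zel_coeff, zel_coeff]
  unfold pfT
  split_ifs
  · rfl
  · exact Int.cast_zero.symm

theorem CF_pfT {p : ℕ} [Fact p.Prime] [Finite A] {m : A → ℤ} (hm : CF m) : CF (pfT p m) := by
  classical
  intro g x
  unfold pfT
  refine if_congr (pp_conj g x) ?_ rfl
  rw [pr_conj, hm]

theorem CF_sfT {p : ℕ} [Fact p.Prime] [Finite A] {m : A → ℤ} (hm : CF m) : CF (sfT p m) := by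
  classical
  intro g x
  unfold sfT
  refine if_congr (and_congr (pp_conj g x) (not_congr (preg_cj g x))) ?_ rfl
  rw [pr_conj, hm]

theorem sfT_eq {p : ℕ} [Fact p.Prime] [Finite A] {m : A → ℤ} (hm : IsWt p ⊤ m) (x : A) :
    sfT p m x = pfT p m x - m x := by
  classical
  unfold sfT pfT
  by_cases h : Preg p x
  · rw [pr_eq_self h, mul_inv_cancel, one_pow, if_pos rfl, sub_self, if_neg (fun h1 => h1.2 h)]
  · have h1 : m x = 0 := by
      by_contra h2
      exact h (hm.reg x h2)
    rw [h1, sub_zero]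
    exact if_congr ⟨fun h2 => h2.1, fun h2 => ⟨h2, h⟩⟩ rfl rfl

end

end Pool.Agent.Lib.P0c8ca5.By
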