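import Mathlib
import Pool.Agent.Lib.P0c8ca5Bx.ClsB
import Pool.Agent.Lib.P0c8ca5By.DefsT

/-!
# ClsP: weights and classes, pairs

PROOF. `sfT_dn`: as `sf_dn` (P0c8ca5Bx.ABb). `bQT_cls`: as `bQ_cls` (P0c8ca5Bx.ClsB) with `sfT` in place of `sf`. For `y = cmt a b`: `(y⁻¹)_{p'} = (y_{p'})⁻¹`, the p-part of `y⁻¹` is the inverse of the
p-part of `y`; so `sfT p m y⁻¹ ≠ 0` only if the p-part `u = y * (pr p y)⁻¹` of `y` has order exactly `p` (`orderOf_eq_prime_iff`; `¬ Preg p y ↔ u ≠ 1`), and then the value is `m (pr p y)⁻¹`.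
`∃ u d, orderOf u = p ∧ IsConj c d ∧ Commute u d ∧ y = u * d` for p-regular `c` says: `d = pr p y` (`pr_mul`, `pr_of_pow`, `pr_eq_self`), `u = y * (pr p y)⁻¹`.
(only if) take `m` = indicator function of the class of `c⁻¹`.
-/

namespace Pool.Agent.Lib.P0c8ca5.By

open MonoidAlgebra Bx

theorem sfT_dn {p : ℕ} [Fact p.Prime] {A : Type*} [Group A] [Finite A] (H : Subgroup A)
    (m : A → ℤ) : sfT p (fun x : ↥H => m x) = fun x : ↥H => sfT p m x := by
  funext x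
  unfold sfT
  rw [QuoAux.pr_coe' x]
  have h0 : ((x * (pr p x)⁻¹) ^ p = 1 ∧ ¬ Preg p x) ↔
      (((x : A) * ((pr p x : ↥H) : A)⁻¹) ^ p = 1 ∧ ¬ Preg p (x : A)) := by
    refine and_congr ?_ (not_congr (DCAux.preg_coe x).symm)
    constructor
    · intro h
      have h1 := congrArg (fun z : ↥H => (z : A)) h
      simpa using h1
    · intro h
      apply Subtype.ext
      simpa using h
  by_cases h1 : (x * (pr p x)⁻¹) ^ p = 1 ∧ ¬ Preg p x
  · rw [if_pos h1, if_pos (h0.1 h1)]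
  · rw [if_neg h1, if_neg (fun h => h1 (h0.2 h))]

namespace ClsPAux

open ClsAAux ClsBAux

theorem cmp_iff {p : ℕ} [Fact p.Prime] {A : Type*} [Group A] [Finite A] {c z : A}
    (hc : Preg p c) : (((z * (pr p z)⁻¹) ^ p = 1 ∧ ¬ Preg p z) ∧ IsConj c (pr p z)) ↔
      ∃ u d : A, orderOf u = p ∧ IsConj c d ∧ Commute u d ∧ z = u * d := by
  constructor
  · rintro ⟨⟨h1, h2⟩, h3⟩
    refine ⟨z * (pr p z)⁻¹, pr p z, ?_, h3, comm_u z, ?_⟩
    · refine orderOf_eq_prime h1 (fun h => h2 ?_)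
      rw [mul_inv_eq_one.1 h]
      exact preg_pr _
    · rw [inv_mul_cancel_right]
  · rintro ⟨u, d, hu, hd, hcm, rfl⟩
    have h1 : pr p u = 1 := pr_of_pow (n := 1) (by rw [pow_one, ← hu, pow_orderOf_eq_one])
    have h2 : pr p d = d := pr_eq_self (preg_isConj hd.symm hc)
    have h3 : pr p (u * d) = d := by rw [pr_mul hcm, h1, h2, one_mul]
    have h4 : u ^ p = 1 := by rw [← hu, pow_orderOf_eq_one]
    refine ⟨⟨by rw [h3, mul_inv_cancel_right]; exact h4, fun h => ?_⟩, by rw [h3]; exact hd⟩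
    have h5 := pr_eq_self h
    rw [h3] at h5
    have h6 : u = 1 := by
      have h7 : 1 * d = u * d := by rw [one_mul]; exact h5
      exact (mul_right_cancel h7).symm
    rw [h6, orderOf_one] at hu
    exact (Fact.out : p.Prime).one_lt.ne hu

end ClsPAux

open ClsAAux ClsBAux ClsPAux

theorem bQT_cls {p : ℕ} [Fact p.Prime] {A : Type*} [Group A] [Finite A] (n : ℤ) :
    (∀ m : A → ℤ, IsWt p ⊤ m → n ∣ bQ p (⊤ : Subgroup A) (sfT p m)) ↔
    (∀ c : A, Preg p c → n ∣ (Nat.card {y : A × A //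
      (∃ u d : A, orderOf u = p ∧ IsConj c d ∧ Commute u d ∧ cmt y.1 y.2 = u * d) ∧
      ∀ w : A, Preg p w → w ∈ Subgroup.closure ({y.1, y.2} : Set A)} : ℤ)) := by
  classical
  have : Fintype A := Fintype.ofFinite A
  obtain ⟨P, hP⟩ : ∃ P : A × A → Prop, ∀ y, P y ↔
    Opr p (⊤ : Subgroup A) ≤ gn y ∧ (cmt y.1 y.2 * (pr p (cmt y.1 y.2))⁻¹) ^ p = 1 ∧
      ¬ Preg p (cmt y.1 y.2) := ⟨_, fun _ => Iff.rfl⟩
  have h1 : ∀ m : A → ℤ, bQ p (⊤ : Subgroup A) (sfT p m)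
      = ∑ y : A × A, if P y then m (pr p (cmt y.1 y.2) ^ p ^ 0)⁻¹ else 0 := by
    intro m
    unfold bQ
    rw [finsum_eq_sum_of_fintype]
    refine Finset.sum_congr rfl fun y _ => ?_
    have e0 : pr p (cmt y.1 y.2)⁻¹ = (pr p (cmt y.1 y.2))⁻¹ := by
      unfold pr
      rw [inv_pow]
    have e1 : Preg p (cmt y.1 y.2)⁻¹ ↔ Preg p (cmt y.1 y.2) := by
      unfold Preg
      rw [orderOf_inv]
    have e2 : ((cmt y.1 y.2)⁻¹ * (pr p (cmt y.1 y.2)⁻¹)⁻¹) ^ p = 1 ↔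
        (cmt y.1 y.2 * (pr p (cmt y.1 y.2))⁻¹) ^ p = 1 := by
      rw [e0, inv_inv]
      have h2 : (cmt y.1 y.2)⁻¹ * pr p (cmt y.1 y.2) =
          (cmt y.1 y.2 * (pr p (cmt y.1 y.2))⁻¹)⁻¹ := by
        rw [mul_inv_rev, inv_inv]
        exact (comm_pr (p := p) (cmt y.1 y.2)).inv_left.eq
      rw [h2, inv_pow, inv_eq_one]
    rw [pow_zero, pow_one]
    by_cases a1 : Opr p (⊤ : Subgroup A) ≤ gn y
    · rw [if_pos ⟨le_top, a1⟩]
      unfold sfT
      by_cases a2 : (cmt y.1 y.2 * (pr p (cmt y.1 y.2))⁻¹) ^ p = 1 ∧ ¬ Preg p (cmt y.1 y.2)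
      · rw [if_pos ((and_congr e2 (not_congr e1)).2 a2), if_pos ((hP y).2 ⟨a1, a2⟩), e0]
      · rw [if_neg (fun h => a2 ((and_congr e2 (not_congr e1)).1 h)),
          if_neg (fun h => a2 ((hP y).1 h).2)]
    · rw [if_neg (fun h => a1 h.2), if_neg (fun h => a1 ((hP y).1 h).1)]
  have h2 := gen_cls (p := p) P (fun y => pr p (cmt y.1 y.2)) (fun y => preg_pr _) 0 n
  simp only [h1]
  rw [h2]
  refine forall_congr' fun c => forall_congr' fun hc => ?_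
  have h3 : Nat.card {y : A × A // P y ∧ IsConj c (pr p (cmt y.1 y.2))} =
      Nat.card {y : A × A //
      (∃ u d : A, orderOf u = p ∧ IsConj c d ∧ Commute u d ∧ cmt y.1 y.2 = u * d) ∧
      ∀ w : A, Preg p w → w ∈ Subgroup.closure ({y.1, y.2} : Set A)} := by
    refine Nat.card_congr ((Equiv.refl _).subtypeEquiv fun y => ?_)
    have e3 : gn y = Subgroup.closure {y.1, y.2} := rfl
    rw [Equiv.refl_apply, ← ClsFAux.opr_le_iff, ← e3, hP y, ← cmp_iff hc]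
    tauto
  rw [h3]

end Pool.Agent.Lib.P0c8ca5.By
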