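import Mathlib
import Pool.Agent.Lib.P0c8ca5Bx.ClsB
import Pool.Agent.Lib.P0c8ca5By.Defs

/-!
# ClsT: weights and classes

PROOF. As `bQ_cls` (P0c8ca5Bx.ClsB). `Opr p ⊤ ≤ gt r ↔ ∀ w, Preg p w → w ∈ closure (range r)` (definition of `Opr`). `orderOf (r i) = p ↔ r i ^ p = 1 ∧ r i ≠ 1` (`orderOf_eq_prime_iff`).
(only if) `m = ` indicator function of the class of `c` (`IsWt`), `m ^ p = m`: `bS p n n m` is the number of tuples. (if) `bS p n n m = ∑ m c ^ p * (number for c)` over representatives `c` of the classes of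
p-regular elements (`m` is a class function and vanishes elsewhere; `p ≠ 0`).
-/

namespace Pool.Agent.Lib.P0c8ca5.By

open MonoidAlgebra Bx

namespace ClsTAux

variable {p : ℕ} {A : Type*} [Group A]

theorem cond_iff [Fact p.Prime] {n : ℕ} (r : Fin n → A) :
    ((∀ i, r i ^ p = 1 ∧ (i.1 < n → r i ≠ 1)) ∧ Opr p (⊤ : Subgroup A) ≤ gt r) ↔
    ((∀ i, orderOf (r i) = p) ∧
      ∀ w : A, Preg p w → w ∈ Subgroup.closure (Set.range r)) := by
  rw [ClsFAux.opr_le_iff]
  refine and_congr (forall_congr' fun i => ?_) Iff.rfl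
  rw [orderOf_eq_prime_iff]
  constructor
  · rintro ⟨h1, h2⟩
    exact ⟨h1, h2 i.2⟩
  · rintro ⟨h1, h2⟩
    exact ⟨h1, fun _ => h2⟩

open Classical in
theorem card_eq [Finite A] [Fact p.Prime] {n : ℕ} (c : A) :
    (Nat.card {r : Fin n → A // (∀ i, orderOf (r i) = p) ∧
      IsConj c (List.ofFn r).prod ∧
      ∀ w : A, Preg p w → w ∈ Subgroup.closure (Set.range r)} : ℤ)
      = bS p n n (fun x => if IsConj c x then 1 else 0) := by
  have : Fintype A := Fintype.ofFinite A
  have hp : p ≠ 0 := (Fact.out : p.Prime).ne_zero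
  unfold bS
  rw [finsum_eq_sum_of_fintype, Nat.card_eq_fintype_card, Fintype.card_subtype,
    Finset.card_filter]
  push_cast
  refine Finset.sum_congr rfl fun r _ => ?_
  have hc := cond_iff (p := p) r
  by_cases h1 : (∀ i, orderOf (r i) = p) ∧
      ∀ w : A, Preg p w → w ∈ Subgroup.closure (Set.range r)
  · rw [if_pos (hc.2 h1)]
    by_cases h2 : IsConj c (List.ofFn r).prod
    · rw [if_pos ⟨h1.1, h2, h1.2⟩]
      unfold pd
      rw [if_pos h2, one_pow]
    · rw [if_neg (fun h => h2 h.2.1)]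
      unfold pd
      rw [if_neg h2, zero_pow hp]
  · rw [if_neg (fun h => h1 (hc.1 h)), if_neg (fun h => h1 ⟨h.1, h.2.2⟩)]

open Classical in
theorem bS_eq [Finite A] [Fact p.Prime] {n : ℕ} {m : A → ℤ} (hm : IsWt p ⊤ m) [Fintype A] :
    bS p n n m = ∑ X : ConjClasses A, m (Quotient.out X) ^ p *
      bS p n n (fun x => if IsConj (Quotient.out X) x then 1 else 0) := by
  have hp : p ≠ 0 := (Fact.out : p.Prime).ne_zero
  unfold bS
  simp only [finsum_eq_sum_of_fintype, Finset.mul_sum]
  rw [Finset.sum_comm]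
  refine Finset.sum_congr rfl (fun r _ => ?_)
  by_cases hg : (∀ i : Fin n, r i ^ p = 1 ∧ (i.1 < n → r i ≠ 1)) ∧
      Opr p (⊤ : Subgroup A) ≤ gt r
  · simp only [if_pos hg]
    rw [Finset.sum_eq_single (ConjClasses.mk (pd r))]
    · have h1 : IsConj (Quotient.out (ConjClasses.mk (pd r))) (pd r) :=
        ConjClasses.mk_eq_mk_iff_isConj.1 (Quotient.out_eq _)
      rw [if_pos h1, one_pow, mul_one]
      obtain ⟨c, hc⟩ := isConj_iff.1 h1
      have h2 := hm.conj c (Subgroup.mem_top c) (Quotient.out (ConjClasses.mk (pd r)))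
      rw [hc] at h2
      rw [h2]
    · intro X _ hX
      rw [if_neg, zero_pow hp, mul_zero]
      intro h1
      apply hX
      have h2 := ConjClasses.mk_eq_mk_iff_isConj.2 h1
      rw [← h2]
      exact (Quotient.out_eq X).symm
    · intro h1
      exact absurd (Finset.mem_univ _) h1
  · simp only [if_neg hg, mul_zero, Finset.sum_const_zero]

end ClsTAux

open ClsTAux

theorem bS_cls {p : ℕ} [Fact p.Prime] {A : Type*} [Group A] [Finite A] (n : ℕ) (d : ℤ) :
    (∀ m : A → ℤ, IsWt p ⊤ m → d ∣ bS p n n m) ↔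
    (∀ c : A, Preg p c → d ∣ (Nat.card {r : Fin n → A // (∀ i, orderOf (r i) = p) ∧
      IsConj c (List.ofFn r).prod ∧
      ∀ w : A, Preg p w → w ∈ Subgroup.closure (Set.range r)} : ℤ)) := by
  classical
  have : Fintype A := Fintype.ofFinite A
  constructor
  · intro h c hc
    rw [card_eq]
    exact h _ (MainPAux.isWt_class hc (fun x hx => if_pos hx) (fun x hx => if_neg hx))
  · intro h m hm
    rw [bS_eq hm]
    refine Finset.dvd_sum fun X _ => ?_
    by_cases hX : Preg p (Quotient.out X)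
    · have h1 := h _ hX
      rw [card_eq] at h1
      convert Dvd.dvd.mul_left h1 (m (Quotient.out X) ^ p)
    · have h1 : m (Quotient.out X) = 0 := by
        by_contra h2
        exact hX (hm.reg _ h2)
      rw [h1, zero_pow (Fact.out : p.Prime).ne_zero, zero_mul]
      exact dvd_zero _

end Pool.Agent.Lib.P0c8ca5.By
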