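import Mathlib
import Pool.Agent.Lib.P0c8ca5V.TCnt
import Pool.Agent.Lib.P0c8ca5By.Defs

/-!
# Cv: products of integral elements of the group ring

PROOF. `zel_cvl`: compare coefficients (`coeff_mul_fin` or `MonoidAlgebra.mul_apply`-type lemma used in P0c8ca5V, e.g. in `coeff_hpe_mul`), `Int.cast_sum`. `CF_cvl`: reindex `y ↦ g * y * g⁻¹`.
`cvl_dl`: one term. `cvl_eq2`, `cvl_eq3`: unfold.
-/

namespace Pool.Agent.Lib.P0c8ca5.By

open MonoidAlgebra Bx

variable {A : Type*} [Group A]

theorem zel_cvl [Finite A] {k : Type*} [Field k] (f g : A → ℤ) :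
    zel k (cvl f g) = zel k f * zel k g := by
  classical
  have hF : Fintype A := Fintype.ofFinite A
  ext x
  rw [coeff_mul_fin, zel_coeff]
  unfold cvl
  rw [finsum_eq_sum_of_fintype, Int.cast_sum]
  refine Finset.sum_congr rfl fun y _ => ?_
  rw [Int.cast_mul, zel_coeff, zel_coeff]

theorem CF_cvl [Finite A] {f g : A → ℤ} (hf : CF f) (hg : CF g) : CF (cvl f g) := by
  classical
  have hF : Fintype A := Fintype.ofFinite A
  intro h x
  unfold cvl
  rw [finsum_eq_sum_of_fintype, finsum_eq_sum_of_fintype,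
    ← Equiv.sum_comp (MulAut.conj h).toEquiv]
  refine Finset.sum_congr rfl fun y _ => ?_
  have e1 : (MulAut.conj h).toEquiv y = h * y * h⁻¹ := rfl
  have e2 : (h * y * h⁻¹)⁻¹ * (h * x * h⁻¹) = h * (y⁻¹ * x) * h⁻¹ := by group
  rw [e1, e2, hf, hg]

theorem cvl_dl [Finite A] (f : A → ℤ) : cvl f dl = f := by
  classical
  have hF : Fintype A := Fintype.ofFinite A
  funext x
  unfold cvl
  rw [finsum_eq_sum_of_fintype, Finset.sum_eq_single x]
  · unfold dl
    rw [if_pos (inv_mul_cancel x), mul_one]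
  · intro y _ hy
    unfold dl
    rw [if_neg, mul_zero]
    intro h
    exact hy (inv_mul_eq_one.1 h)
  · intro h
    exact absurd (Finset.mem_univ x) h

open Classical in
theorem cvl_eq [Finite A] (f g : A → ℤ) (x : A) :
    cvl f g x = ∑ᶠ y : A × A, if y.1 * y.2 = x then f y.1 * g y.2 else 0 := by
  have hF : Fintype A := Fintype.ofFinite A
  unfold cvl
  rw [finsum_eq_sum_of_fintype, finsum_eq_sum_of_fintype, Fintype.sum_prod_type]
  refine Finset.sum_congr rfl fun y _ => ?_
  rw [Finset.sum_eq_single (y⁻¹ * x)]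
  · rw [if_pos (mul_inv_cancel_left y x)]
  · intro z _ hz
    rw [if_neg]
    intro h
    exact hz (by rw [← h, inv_mul_cancel_left])
  · intro h
    exact absurd (Finset.mem_univ (y⁻¹ * x)) h

end Pool.Agent.Lib.P0c8ca5.By
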