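import Mathlib
import Pool.Agent.Lib.P0c8ca5By.Cv

/-!
# CntA: the torus with two punctures

PROOF. `gt t ≤ ⊤` always. For fixed `a = t 0`, `b = t 1` the relation `y2 a b a⁻¹ y1 = b` (`y1 = t 2 * t 3`, `y2 = t 4 * t 5`) is `[a, b]⁻¹ = b a b⁻¹ a⁻¹ = (b y1 b⁻¹) y2`
(from `a b a⁻¹ = y2⁻¹ b y1⁻¹`: `[a,b] = y2⁻¹ (b y1⁻¹ b⁻¹)`). Substitute `c1' = b c1 b⁻¹`, `u1' = b u1 b⁻¹` (`m`, `h` are class functions): the sum over the tuples is
`∑_(a,b) ∑_(c1',u1',c2,u2 : c1' u1' c2 u2 = [a,b]⁻¹) m c1' h u1' m c2 h u2 = ∑_(a,b) cvl (cvl m h) (cvl m h) [a,b]⁻¹` (`cvl_eq` twice) `= nE ⊤ (...)`.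
Suggestion: write the sum over `Fin 6 → A` as an iterated sum by an equivalence `(Fin 6 → A) ≃ A × A × A × A × A × A` (`t ↦ (t 0, ..., t 5)`, inverse `![...]`), and eliminate e.g. `u2 = t 5`
by the relation on one side and by `cvl_eq`/definition of `cvl` on the other.
-/

namespace Pool.Agent.Lib.P0c8ca5.By

open MonoidAlgebra Bx

namespace CntAAux

private def e6 {A : Type*} : (Fin 6 → A) ≃ A × A × A × A × A × A where
  toFun t := (t 0, t 1, t 2, t 3, t 4, t 5)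
  invFun p := ![p.1, p.2.1, p.2.2.1, p.2.2.2.1, p.2.2.2.2.1, p.2.2.2.2.2]
  left_inv t := by
    funext i
    fin_cases i <;> rfl
  right_inv p := rfl

open Classical in
private theorem sum6 {A : Type*} [Fintype A] (F : (Fin 6 → A) → ℤ) :
    ∑ t, F t = ∑ a, ∑ b, ∑ c1, ∑ u1, ∑ c2, ∑ u2, F ![a, b, c1, u1, c2, u2] := by
  rw [← Equiv.sum_comp e6.symm F]
  simp only [Fintype.sum_prod_type]
  rfl

open Classical in
private theorem innerSum {A : Type*} [Group A] [Fintype A] (m h : A → ℤ) (x : A) :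
    ∑ c1, ∑ u1, ∑ c2, ∑ u2, (if c1 * u1 * (c2 * u2) = x then m c1 * h u1 * (m c2 * h u2) else 0)
      = cvl (cvl m h) (cvl m h) x := by
  have h1 : ∀ c1 u1 c2 : A,
      ∑ u2, (if c1 * u1 * (c2 * u2) = x then m c1 * h u1 * (m c2 * h u2) else 0)
        = m c1 * h u1 * (m c2 * h (c2⁻¹ * ((c1 * u1)⁻¹ * x))) := by
    intro c1 u1 c2
    have : ∀ u2, (c1 * u1 * (c2 * u2) = x) ↔ (c2⁻¹ * ((c1 * u1)⁻¹ * x) = u2) := by
      intro u2
      constructor
      · intro e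
        rw [← e]
        group
      · intro e
        rw [← e]
        group
    simp only [this]
    rw [Finset.sum_ite_eq]
    simp
  simp only [h1]
  have h2 : ∀ c1 : A, ∑ u1, ∑ c2, m c1 * h u1 * (m c2 * h (c2⁻¹ * ((c1 * u1)⁻¹ * x)))
      = ∑ y, ∑ c2, m c1 * h (c1⁻¹ * y) * (m c2 * h (c2⁻¹ * (y⁻¹ * x))) := by
    intro c1
    rw [← Equiv.sum_comp (Equiv.mulLeft c1⁻¹)
      (fun u1 => ∑ c2, m c1 * h u1 * (m c2 * h (c2⁻¹ * ((c1 * u1)⁻¹ * x))))]
    refine Finset.sum_congr rfl fun y _ => Finset.sum_congr rfl fun c2 _ => ?_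
    simp only [Equiv.coe_mulLeft, mul_inv_cancel_left]
  simp only [h2]
  rw [Finset.sum_comm]
  unfold cvl
  rw [finsum_eq_sum_of_fintype]
  refine Finset.sum_congr rfl fun y _ => ?_
  rw [finsum_eq_sum_of_fintype, finsum_eq_sum_of_fintype, Finset.sum_mul_sum]

end CntAAux

open CntAAux in
theorem nW_W2 {A : Type*} [Group A] [Finite A] {m h : A → ℤ} (hm : CF m) (hh : CF h) :
    nW (⊤ : Subgroup A) (W2 m h) = nE (⊤ : Subgroup A) (cvl (cvl m h) (cvl m h)) := by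
  classical
  haveI := Fintype.ofFinite A
  unfold nW nE
  rw [finsum_eq_sum_of_fintype, finsum_eq_sum_of_fintype]
  simp only [le_top, if_true, Subgroup.mem_top, and_self]
  rw [sum6, Fintype.sum_prod_type]
  refine Finset.sum_congr rfl fun a _ => Finset.sum_congr rfl fun b _ => ?_
  rw [← innerSum]
  have h1 : ∀ (F : A → ℤ), ∑ c, F c = ∑ c, F (b⁻¹ * c * b) := by
    intro F
    rw [← Equiv.sum_comp (MulAut.conj b⁻¹).toEquiv F]
    refine Finset.sum_congr rfl fun c _ => ?_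
    simp [MulAut.conj_apply]
  rw [h1]
  refine Finset.sum_congr rfl fun c1 _ => ?_
  rw [h1]
  refine Finset.sum_congr rfl fun u1 _ => Finset.sum_congr rfl fun c2 _ =>
    Finset.sum_congr rfl fun u2 _ => ?_
  have em : m (b⁻¹ * c1 * b) = m c1 := by
    have := hm b⁻¹ c1
    rwa [inv_inv] at this
  have eh : h (b⁻¹ * u1 * b) = h u1 := by
    have := hh b⁻¹ u1
    rwa [inv_inv] at this
  have er : rel2 ![a, b, b⁻¹ * c1 * b, b⁻¹ * u1 * b, c2, u2]
      ↔ c1 * u1 * (c2 * u2) = (cmt a b)⁻¹ := by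
    change c2 * u2 * (a * b * a⁻¹) * (b⁻¹ * c1 * b * (b⁻¹ * u1 * b)) = b ↔ _
    unfold cmt
    constructor
    · intro e
      have e1 : c2 * u2 = b * (a * b * a⁻¹ * (b⁻¹ * c1 * b * (b⁻¹ * u1 * b)))⁻¹ := by
        rw [eq_mul_inv_iff_mul_eq, ← mul_assoc]
        exact e
      rw [e1]
      group
    · intro e
      have e1 : c2 * u2 = (c1 * u1)⁻¹ * (a * b * a⁻¹ * b⁻¹)⁻¹ := by
        rw [eq_inv_mul_iff_mul_eq]
        exact e
      rw [e1]
      group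
  change (if rel2 ![a, b, b⁻¹ * c1 * b, b⁻¹ * u1 * b, c2, u2] then
    m (b⁻¹ * c1 * b) * h (b⁻¹ * u1 * b) * (m c2 * h u2) else 0) = _
  rw [em, eh]
  exact if_congr er rfl rfl

end Pool.Agent.Lib.P0c8ca5.By
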