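import Mathlib
import Pool.Agent.Lib.P0c8ca5By.Cv

/-!
# CntB: the torus with three punctures

PROOF. As CntA: with `y1 = t 2 * t 3`, `y2 = t 4 * t 5`, `y3 = t 6 * t 7` the relation `a b y2 a⁻¹ y3 b⁻¹ y1 = 1` is
`[a, b] (b a y2 a⁻¹ b⁻¹) (b y3 b⁻¹) y1 = 1`, i.e. `[a, b]⁻¹ = (b a y2 (b a)⁻¹) (b y3 b⁻¹) y1`. Substitute `c2' = (b a) c2 (b a)⁻¹`, `u2'` the same, `c3' = b c3 b⁻¹`, `u3'` the same.
-/

namespace Pool.Agent.Lib.P0c8ca5.By

open MonoidAlgebra Bx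

namespace CntBAux

variable {A : Type*} [Group A] [Fintype A]

theorem sum_pair (m h φ : A → ℤ) :
    ∑ t : A × A, m t.1 * h t.2 * φ (t.1 * t.2) = ∑ y : A, cvl m h y * φ y := by
  have e1 : ∀ y, cvl m h y = ∑ z : A, m z * h (z⁻¹ * y) := by
    intro y
    unfold cvl
    rw [finsum_eq_sum_of_fintype]
  simp only [e1, Finset.sum_mul]
  rw [Finset.sum_comm, Fintype.sum_prod_type]
  refine Finset.sum_congr rfl fun z _ => ?_
  refine Fintype.sum_equiv (Equiv.mulLeft z) _ _ fun u => ?_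
  simp only [Equiv.coe_mulLeft, inv_mul_cancel_left]

theorem cvl3 (F : A → ℤ) (x : A) :
    cvl (cvl F F) F x = ∑ t : A × A, F t.1 * F t.2 * F ((t.1 * t.2)⁻¹ * x) := by
  have h := sum_pair F F (fun y => F (y⁻¹ * x))
  rw [h]
  conv_lhs => unfold cvl
  rw [finsum_eq_sum_of_fintype]
  rfl

/-- eight coordinates as two and three pairs -/
def e8 (A : Type*) : (Fin 8 → A) ≃ A × A × (A × A) × (A × A) × (A × A) where
  toFun t := (t 0, t 1, (t 4, t 5), (t 6, t 7), (t 2, t 3))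
  invFun p := ![p.1, p.2.1, p.2.2.2.2.1, p.2.2.2.2.2, p.2.2.1.1, p.2.2.1.2, p.2.2.2.1.1,
    p.2.2.2.1.2]
  left_inv t := by
    funext i
    fin_cases i <;> rfl
  right_inv p := rfl

open Classical in
theorem sum_y (m h : A → ℤ) (K : A) :
    (∑ s : A × A, if K * (s.1 * s.2) = 1 then m s.1 * h s.2 else 0) = cvl m h K⁻¹ := by
  have h1 := sum_pair m h (fun y => if K * y = 1 then 1 else 0)
  have e1 : (∑ s : A × A, if K * (s.1 * s.2) = 1 then m s.1 * h s.2 else 0)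
      = ∑ t : A × A, m t.1 * h t.2 * (if K * (t.1 * t.2) = 1 then 1 else 0) := by
    refine Finset.sum_congr rfl fun t _ => ?_
    rw [mul_ite, mul_one, mul_zero]
  rw [e1, h1]
  rw [Finset.sum_eq_single K⁻¹]
  · rw [if_pos (mul_inv_cancel K), mul_one]
  · intro y _ hy
    rw [if_neg, mul_zero]
    intro hK
    exact hy (eq_inv_of_mul_eq_one_right hK)
  · intro hn
    exact absurd (Finset.mem_univ _) hn

theorem sum_uv {m h : A → ℤ} (hF : CF (cvl m h)) (a b : A) :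
    (∑ u : A × A, ∑ v : A × A, (m u.1 * h u.2) * ((m v.1 * h v.2) *
      cvl m h (a * b * (u.1 * u.2) * a⁻¹ * (v.1 * v.2) * b⁻¹)⁻¹))
      = ∑ t : A × A, cvl m h t.1 * cvl m h t.2 * cvl m h ((t.1 * t.2)⁻¹ * (cmt a b)⁻¹) := by
  have e1 : ∀ y2 : A, (∑ v : A × A, (m v.1 * h v.2) *
      cvl m h (a * b * y2 * a⁻¹ * (v.1 * v.2) * b⁻¹)⁻¹)
      = ∑ y3 : A, cvl m h y3 * cvl m h (a * b * y2 * a⁻¹ * y3 * b⁻¹)⁻¹ := fun y2 =>
    sum_pair m h (fun y => cvl m h (a * b * y2 * a⁻¹ * y * b⁻¹)⁻¹)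
  have e2 := sum_pair m h (fun y2 => ∑ y3 : A, cvl m h y3 *
    cvl m h (a * b * y2 * a⁻¹ * y3 * b⁻¹)⁻¹)
  simp only [← Finset.mul_sum, e1]
  rw [e2, Fintype.sum_prod_type]
  refine Fintype.sum_equiv (MulAut.conj (b * a)).toEquiv _ _ fun y2 => ?_
  rw [Finset.mul_sum]
  refine Fintype.sum_equiv (MulAut.conj b).toEquiv _ _ fun y3 => ?_
  have e3 : (MulAut.conj (b * a)).toEquiv y2 = b * a * y2 * (b * a)⁻¹ := rfl
  have e4 : (MulAut.conj b).toEquiv y3 = b * y3 * b⁻¹ := rfl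
  rw [e3, e4, hF, hF]
  have e5 : (b * a * y2 * (b * a)⁻¹ * (b * y3 * b⁻¹))⁻¹ * (cmt a b)⁻¹
      = (a * b * y2 * a⁻¹ * y3 * b⁻¹)⁻¹ := by
    unfold cmt
    group
  rw [e5]
  ring

end CntBAux

theorem nW_W3 {A : Type*} [Group A] [Finite A] {m h : A → ℤ} (hm : CF m) (hh : CF h) :
    nW (⊤ : Subgroup A) (W3 m h)
      = nE (⊤ : Subgroup A) (cvl (cvl (cvl m h) (cvl m h)) (cvl m h)) := by
  classical
  haveI : Fintype A := Fintype.ofFinite A
  have hF : CF (cvl m h) := CF_cvl hm hh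
  unfold nW nE
  rw [finsum_eq_sum_of_fintype, finsum_eq_sum_of_fintype]
  have e2 : (∑ t : Fin 8 → A, if gt t ≤ (⊤ : Subgroup A) then W3 m h t else 0)
      = ∑ p : A × A × (A × A) × (A × A) × (A × A),
        (m p.2.2.1.1 * h p.2.2.1.2) * ((m p.2.2.2.1.1 * h p.2.2.2.1.2) *
        (if p.1 * p.2.1 * (p.2.2.1.1 * p.2.2.1.2) * p.1⁻¹ *
          (p.2.2.2.1.1 * p.2.2.2.1.2) * p.2.1⁻¹ * (p.2.2.2.2.1 * p.2.2.2.2.2) = 1
        then m p.2.2.2.2.1 * h p.2.2.2.2.2 else 0)) := by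
    refine Fintype.sum_equiv (CntBAux.e8 A) _ _ fun t => ?_
    rw [if_pos le_top]
    change W3 m h t = (m (t 4) * h (t 5)) * ((m (t 6) * h (t 7)) *
      (if t 0 * t 1 * (t 4 * t 5) * (t 0)⁻¹ * (t 6 * t 7) * (t 1)⁻¹ * (t 2 * t 3) = 1
        then m (t 2) * h (t 3) else 0))
    unfold W3 rel3
    split_ifs
    · ring
    · ring
  rw [e2, Fintype.sum_prod_type, Fintype.sum_prod_type]
  refine Finset.sum_congr rfl fun a _ => ?_
  rw [Fintype.sum_prod_type]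
  refine Finset.sum_congr rfl fun b _ => ?_
  rw [if_pos ⟨Subgroup.mem_top _, Subgroup.mem_top _⟩, CntBAux.cvl3, ← CntBAux.sum_uv hF a b,
    Fintype.sum_prod_type]
  refine Finset.sum_congr rfl fun u _ => ?_
  rw [Fintype.sum_prod_type]
  refine Finset.sum_congr rfl fun v _ => ?_
  dsimp only
  rw [← Finset.mul_sum, ← Finset.mul_sum, CntBAux.sum_y]

end Pool.Agent.Lib.P0c8ca5.By
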