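import Mathlib
import Pool.Agent.Lib.P0c8ca5Bx.PC
import Pool.Agent.Lib.P0c8ca5By.TA

/-!
# TC: `eW p W` and the `bW p U W`

PROOF. A copy of the parts of P0c8ca5Bx.PC (complete) with tuples `t : ι → A` in place of the pairs (`up U t = fun i => (t i : A)`), see TA. `nW_conj`: reindex by `cjt g`. `eW_eq`: as `eE_eq`.
`bW_dn`: as `bQ_dn`; `nW_dn`: the same without the condition on `Opr`. `eW_of_bW`: as `eE_of_bQ`. `bW_of_eW`: the induction step in the proof of `eE_iff_bQ`
(`FHt p W H = ∑ᶠ t, if Opr p (gt t) = H then W t * fK p (gt t) else 0`; the term `H = Opr p ⊤` is `bW p ⊤ W`; for `Opr p U = K ≠ Opr p ⊤` the group `U` is not `⊤`).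
-/

namespace Pool.Agent.Lib.P0c8ca5.By

open MonoidAlgebra Bx

variable {p : ℕ} {A : Type*} [Group A] {ι : Type*}

namespace TCAux

open DAAux DCAux PCAux

/-- conjugation of tuples as an equivalence -/
def cE (g : A) : (ι → A) ≃ (ι → A) where
  toFun t := cjt g t
  invFun t := cjt g⁻¹ t
  left_inv t := by
    change cjt g⁻¹ (cjt g t) = t
    rw [cjt_cjt, inv_mul_cancel, cjt_one]
  right_inv t := by
    change cjt g (cjt g⁻¹ t) = t
    rw [cjt_cjt, mul_inv_cancel, cjt_one]

theorem cE_eq (g : A) (t : ι → A) : cE g t = cjt g t := rfl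

/-- the tuple in `A` of a tuple in `U` -/
def up (U : Subgroup A) (t : ι → ↥U) : ι → A := fun i => (t i : A)

theorem up_injective (U : Subgroup A) : Function.Injective (up (ι := ι) U) := by
  intro a b h
  funext i
  exact Subtype.ext (congrFun h i)

theorem gt_up (U : Subgroup A) (t : ι → ↥U) : gt (up U t) = (gt t).map U.subtype := by
  unfold gt up
  rw [MonoidHom.map_closure]
  congr 1
  ext x
  simp only [Set.mem_range, Set.mem_image, Subgroup.coe_subtype]
  constructor
  · rintro ⟨i, rfl⟩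
    exact ⟨t i, ⟨i, rfl⟩, rfl⟩
  · rintro ⟨_, ⟨i, rfl⟩, rfl⟩
    exact ⟨i, rfl⟩

theorem range_up (U : Subgroup A) : Set.range (up (ι := ι) U) = {t | gt t ≤ U} := by
  ext t
  rw [Set.mem_ofPred_eq, gt_le]
  constructor
  · rintro ⟨s, rfl⟩ i
    exact (s i).2
  · intro h
    exact ⟨fun i => ⟨t i, h i⟩, rfl⟩

open Classical in
/-- the sum over the tuples with `O^p(gt t) = H` -/
noncomputable def FHt (p : ℕ) (W : (ι → A) → ℤ) (H : Subgroup A) : ℤ :=
  ∑ᶠ t : ι → A, (if Opr p (gt t) = H then W t * fK p (gt t) else 0)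

theorem FHt_cg [Fact p.Prime] [Finite A] [Finite ι] {W : (ι → A) → ℤ} (hW : CFt W) (g : A)
    (H : Subgroup A) : FHt p W (cg g H) = FHt p W H := by
  classical
  unfold FHt
  rw [← finsum_comp_equiv (cE g)]
  refine finsum_congr (fun t => ?_)
  rw [cE_eq, gt_cjt, Opr_cg, hW, fK_conj]
  have h : cg g (Opr p (gt t)) = cg g H ↔ Opr p (gt t) = H := by
    constructor
    · intro h
      have := congrArg (cg g⁻¹) h
      rwa [cg_cg, cg_cg, inv_mul_cancel, cg_one, cg_one] at this
    · intro h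
      rw [h]
  simp only [h]

theorem sum_FHt [Finite A] [Finite ι] (W : (ι → A) → ℤ) :
    ∑ᶠ t : ι → A, W t * fK p (gt t) = ∑ᶠ H : Subgroup A, FHt p W H := by
  classical
  have := Fintype.ofFinite (ι → A)
  have := Fintype.ofFinite (Subgroup A)
  simp only [FHt, finsum_eq_sum_of_fintype]
  rw [Finset.sum_comm]
  refine Finset.sum_congr rfl (fun t _ => ?_)
  rw [Finset.sum_ite_eq]
  simp

/-- the term `H = O^p(A)` -/
theorem FHt_top [Fact p.Prime] [Finite A] [Finite ι] (W : (ι → A) → ℤ)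
    (hA : NoP p (⊤ : Subgroup A)) : FHt p W (Opr p ⊤) = bW p (⊤ : Subgroup A) W := by
  classical
  unfold FHt bW
  refine finsum_congr (fun t => ?_)
  have h : Opr p (gt t) = Opr p ⊤ ↔ (gt t ≤ ⊤ ∧ Opr p ⊤ ≤ gt t) := by
    constructor
    · intro h
      exact ⟨le_top, h ▸ Opr_le _⟩
    · rintro ⟨-, h⟩
      exact Opr_eq_of_le h le_top
  by_cases h1 : Opr p (gt t) = Opr p ⊤
  · rw [if_pos h1, if_pos (h.1 h1), fK_one, mul_one]
    intro R hR hn
    exact norm_trivial hA le_top hR ((h.1 h1).2.trans hn)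
  · rw [if_neg h1, if_neg (fun h2 => h1 (h.2 h2))]

theorem eW_eq [Finite A] [Finite ι] (p : ℕ) (W : (ι → A) → ℤ) :
    eW p W = ∑ᶠ t : ι → A, W t * fK p (gt t) := by
  classical
  have := Fintype.ofFinite (ι → A)
  have := Fintype.ofFinite (Subgroup A)
  have e1 : eW p W = ∑ σ : Finset (Subgroup A), if IsCh p σ then
      (-1) ^ σ.card * ∑ t : ι → A, (if gt t ≤ sN σ then W t else 0) else 0 := by
    rw [eW, chS, finsum_eq_sum_of_fintype]
    refine Finset.sum_congr rfl (fun σ _ => ?_)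
    by_cases hc : IsCh p σ
    · rw [if_pos hc, if_pos hc, nW, finsum_eq_sum_of_fintype]
    · rw [if_neg hc, if_neg hc]
  rw [e1, finsum_eq_sum_of_fintype]
  have e2 : ∀ t : ι → A, W t * fK p (gt t) = ∑ σ : Finset (Subgroup A),
      if IsCh p σ then (-1) ^ σ.card * (if gt t ≤ sN σ then W t else 0) else 0 := by
    intro t
    rw [fK, chS, finsum_eq_sum_of_fintype, Finset.mul_sum]
    refine Finset.sum_congr rfl (fun σ _ => ?_)
    by_cases hc : IsCh p σ
    · rw [if_pos hc, if_pos hc]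
      by_cases hg : gt t ≤ sN σ
      · rw [if_pos hg, if_pos hg]
        ring
      · rw [if_neg hg, if_neg hg]
        ring
    · rw [if_neg hc, if_neg hc, mul_zero]
  rw [Finset.sum_congr rfl (fun t _ => e2 t), Finset.sum_comm]
  refine Finset.sum_congr rfl (fun σ _ => ?_)
  by_cases hc : IsCh p σ
  · simp only [hc, if_true]
    rw [Finset.mul_sum]
  · simp [hc]

end TCAux

open DAAux DCAux PCAux TCAux

theorem nW_conj [Finite A] [Finite ι] {W : (ι → A) → ℤ} (hW : CFt W) (g : A) (U : Subgroup A) :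
    nW (cg g U) W = nW U W := by
  classical
  unfold nW
  rw [← finsum_comp_equiv (cE g)]
  refine finsum_congr (fun t => ?_)
  rw [cE_eq, gt_cjt, cg_le_cg_iff, hW]

theorem nW_dn [Finite A] [Finite ι] (U : Subgroup A) (W : (ι → A) → ℤ) :
    nW (⊤ : Subgroup ↥U) (fun t : ι → ↥U => W (fun i => (t i : A))) = nW U W := by
  classical
  unfold nW
  have h1 : ∀ t : ι → ↥U, (if gt t ≤ ⊤ then (fun t : ι → ↥U => W (fun i => (t i : A))) t else 0) =
      (if gt (up U t) ≤ U then W (up U t) else 0) := by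
    intro t
    have h2 : gt (up U t) ≤ U := by
      rw [gt_up]
      rintro _ ⟨y, -, rfl⟩
      exact y.2
    rw [if_pos le_top, if_pos h2]
    rfl
  rw [finsum_congr h1, ← finsum_mem_range (f := fun t : ι → A =>
    if gt t ≤ U then W t else 0) (TCAux.up_injective U), TCAux.range_up, finsum_mem_def]
  refine finsum_congr (fun t => ?_)
  by_cases h : gt t ≤ U
  · rw [Set.indicator_of_mem (show t ∈ {t | gt t ≤ U} from h)]
  · rw [Set.indicator_of_notMem (show t ∉ {t | gt t ≤ U} from h), if_neg h]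

theorem bW_dn [Finite A] [Finite ι] (U : Subgroup A) (W : (ι → A) → ℤ) :
    bW p (⊤ : Subgroup ↥U) (fun t : ι → ↥U => W (fun i => (t i : A))) = bW p U W := by
  classical
  unfold bW
  have h1 : ∀ t : ι → ↥U, (if gt t ≤ ⊤ ∧ Opr p (⊤ : Subgroup ↥U) ≤ gt t
      then (fun t : ι → ↥U => W (fun i => (t i : A))) t else 0) =
      (if gt (up U t) ≤ U ∧ Opr p U ≤ gt (up U t) then W (up U t) else 0) := by
    intro t
    rw [gt_up, Opr_top' U, Subgroup.map_le_map_iff_of_injective U.subtype_injective]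
    have h2 : (gt t).map U.subtype ≤ U := by
      rintro _ ⟨y, -, rfl⟩
      exact y.2
    simp only [le_top, h2, true_and]
    rfl
  rw [finsum_congr h1, ← finsum_mem_range (f := fun t : ι → A =>
    if gt t ≤ U ∧ Opr p U ≤ gt t then W t else 0) (TCAux.up_injective U), TCAux.range_up,
    finsum_mem_def]
  refine finsum_congr (fun t => ?_)
  by_cases h : gt t ≤ U
  · rw [Set.indicator_of_mem (show t ∈ {t | gt t ≤ U} from h)]
  · rw [Set.indicator_of_notMem (show t ∉ {t | gt t ≤ U} from h), if_neg (fun h' => h h'.1)]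

theorem eW_of_bW [Fact p.Prime] [Finite A] [Finite ι] {W : (ι → A) → ℤ} (hW : CFt W)
    (h : ∀ U : Subgroup A, NoP p U →
      (p : ℤ) * (ordProj[p] (Nat.card U) : ℕ) ∣ bW p U W) :
    (p : ℤ) * (ordProj[p] (Nat.card A) : ℕ) ∣ eW p W := by
  rw [eW_eq, sum_FHt]
  refine sub_dvd_p _ (fun g U => FHt_cg hW g U) _ (fun K => ?_)
  exact sum_Ht hW (fun U _ hU2 => h U hU2)

theorem bW_of_eW [Fact p.Prime] [Finite A] [Finite ι] {W : (ι → A) → ℤ} (hW : CFt W)
    (hA : NoP p (⊤ : Subgroup A)) (h : ∀ U : Subgroup A, U ≠ ⊤ → NoP p U →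
      (p : ℤ) * (ordProj[p] (Nat.card U) : ℕ) ∣ bW p U W)
    (h1 : (p : ℤ) * (ordProj[p] (Nat.card A) : ℕ) ∣ eW p W) :
    (p : ℤ) * (ordProj[p] (Nat.card A) : ℕ) ∣ bW p (⊤ : Subgroup A) W := by
  classical
  have := Fintype.ofFinite (Subgroup A)
  rw [eW_eq, sum_FHt] at h1
  have h2 : (p : ℤ) * (ordProj[p] (Nat.card A) : ℕ) ∣
      ∑ᶠ H : Subgroup A, (if H = Opr p ⊤ then 0 else FHt p W H) := by
    refine sub_dvd_p _ ?_ _ ?_
    · intro g U
      have h3 : cg g U = Opr p ⊤ ↔ U = Opr p ⊤ := by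
        constructor
        · intro h
          have := congrArg (cg g⁻¹) h
          rwa [cg_cg, inv_mul_cancel, cg_one, cg_Opr_top'] at this
        · intro h
          rw [h, cg_Opr_top']
      simp only [h3, FHt_cg hW]
    · intro K
      split_ifs with hK
      · exact dvd_zero _
      · refine sum_Ht hW (fun U hU hU2 => h U (fun hT => hK ?_) hU2)
        rw [← hU, hT]
  have h4 : ∑ᶠ H : Subgroup A, FHt p W H =
      (∑ᶠ H : Subgroup A, (if H = Opr p ⊤ then 0 else FHt p W H)) +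
        FHt p W (Opr p ⊤) := by
    rw [finsum_eq_sum_of_fintype, finsum_eq_sum_of_fintype,
      ← Finset.sum_erase_add _ _ (Finset.mem_univ (Opr p (⊤ : Subgroup A))),
      ← Finset.sum_erase_add (Finset.univ : Finset (Subgroup A))
        (fun H => if H = Opr p ⊤ then 0 else FHt p W H)
        (Finset.mem_univ (Opr p (⊤ : Subgroup A)))]
    simp only [if_true, add_zero]
    congr 1
    refine Finset.sum_congr rfl (fun K hK => ?_)
    rw [if_neg (Finset.ne_of_mem_erase hK)]
  rw [h4] at h1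
  rw [← FHt_top W hA]
  exact (dvd_add_right h2).1 h1

end Pool.Agent.Lib.P0c8ca5.By
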