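import Mathlib
import Pool.Agent.Lib.P0c8ca5V.ChOrb
import Pool.Agent.Lib.P0c8ca5V.DC
import Pool.Agent.Lib.P0c8ca5By.TC

/-!
# Fam: natural families of weights of tuples

`bW_family`: if for all groups `p |G|` divides the sum over all tuples, then `p |G|_p` divides the sum over
the tuples generating a group that contains `O^p(G)`, for all `G` with `O_p(G) = 1`.
-/

namespace Pool.Agent.Lib.P0c8ca5.By

open MonoidAlgebra Bx

universe u

theorem eW_dvd {p : ℕ} [Fact p.Prime] {A : Type*} [Group A] [Finite A] {ι : Type*} [Finite ι]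
    {W : (ι → A) → ℤ} (hW : CFt W) (q : ℤ)
    (h : ∀ U : Subgroup A, q * (Nat.card U : ℤ) ∣ nW U W) :
    q * (Nat.card A : ℤ) ∣ eW p W :=
  chS_dvd (p := p) (fun U => nW U W) (fun g U => nW_conj hW g U) q (fun σ _ => h (sN σ))

theorem bW_family {p : ℕ} [Fact p.Prime] {ι : Type} [Finite ι]
    (W : ∀ (G : Type u) [Group G], (G → ℤ) → (ι → G) → ℤ)
    (hdn : ∀ (G : Type u) [Group G] [Finite G] (U : Subgroup G) (m : G → ℤ) (t : ι → ↥U),
      W ↥U (fun x => m x) t = W G m (fun i => (t i : G)))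
    (hcf : ∀ (G : Type u) [Group G] [Finite G] (m : G → ℤ), IsWt p ⊤ m → CFt (W G m))
    (he : ∀ (G : Type u) [Group G] [Finite G] (m : G → ℤ), IsWt p ⊤ m →
      (p : ℤ) * (Nat.card G : ℤ) ∣ nW (⊤ : Subgroup G) (W G m))
    (G : Type u) [Group G] [Finite G] (m : G → ℤ) (hm : IsWt p ⊤ m)
    (hG : NoP p (⊤ : Subgroup G)) :
    (p : ℤ) * (ordProj[p] (Nat.card G) : ℕ) ∣ bW p (⊤ : Subgroup G) (W G m) := by
  have key : ∀ n : ℕ, ∀ (G : Type u) [Group G] [Finite G] (m : G → ℤ), Nat.card G = n →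
      IsWt p ⊤ m → NoP p (⊤ : Subgroup G) →
      (p : ℤ) * (ordProj[p] (Nat.card G) : ℕ) ∣ bW p (⊤ : Subgroup G) (W G m) := by
    intro n
    induction n using Nat.strong_induction_on with
    | _ n ih =>
    intro G _ _ m hn hm hG
    refine bW_of_eW (hcf G m hm) hG (fun U hU hU2 => ?_) ?_
    · have hlt : Nat.card U < n := by
        rw [← hn]
        refine lt_of_le_of_ne (Subgroup.card_le_card_group U) ?_
        intro h
        exact hU (Subgroup.eq_top_of_card_eq U h)
      have h1 := ih _ hlt (↥U) (fun x : ↥U => m x) rfl (IsWt_dn U hm) ((NoP_dn U).2 hU2)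
      have h2 : (W ↥U (fun x : ↥U => m x)) = fun t : ι → ↥U => W G m (fun i => (t i : G)) :=
        funext fun t => hdn G U m t
      rw [h2, bW_dn U (W G m)] at h1
      exact h1
    · have h3 : (p : ℤ) * (Nat.card G : ℤ) ∣ eW p (W G m) := by
        refine eW_dvd (hcf G m hm) p (fun U => ?_)
        have h1 := he (↥U) (fun x : ↥U => m x) (IsWt_dn U hm)
        have h2 : (W ↥U (fun x : ↥U => m x)) = fun t : ι → ↥U => W G m (fun i => (t i : G)) :=
          funext fun t => hdn G U m t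
        rw [h2, nW_dn U (W G m)] at h1
        exact h1
      refine dvd_trans (mul_dvd_mul_left _ ?_) h3
      exact_mod_cast Nat.ordProj_dvd (Nat.card G) p
  exact key _ G m rfl hm hG

end Pool.Agent.Lib.P0c8ca5.By
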