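import Mathlib
import Pool.Agent.Lib.P0c8ca5Bx.ABb
import Pool.Agent.Lib.P0c8ca5By.Defs

/-!
# PnM: pairs as tuples; restriction to subgroups

PROOF. `nW_Pn`, `bW_Pn`: the tuples with `t (i + 2) = 1` for all `i` correspond to the pairs `(t 0, t 1)`; `gt t = gn (t 0, t 1)` (closure of `{a, b, 1}`).
Injection `(a, b) ↦ Fin.cons a (Fin.cons b fun _ => 1)`, `finsum_mem_range` or `Finset.sum_bij_ne_zero`.
`D2_dn`, `D3_dn`: unfold everything; `(rel2 t ↔ rel2 (fun i => (t i : A)))` by `Subtype.ext_iff`, `omf p (x : A) = omf p x`, `dl (x : A) = dl x`, `sf_dn` (P0c8ca5Bx.ABb), `cmt` and `⁻¹` commute with the coercion.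
-/

namespace Pool.Agent.Lib.P0c8ca5.By

open MonoidAlgebra Bx

variable {A : Type*} [Group A]

namespace PnMAux

/-- the tuple of a pair -/
def tp (n : ℕ) (s : A × A) : Fin (n + 2) → A :=
  Fin.cons s.1 (Fin.cons s.2 fun _ : Fin n => 1)

theorem tp_zero (n : ℕ) (s : A × A) : tp n s 0 = s.1 := rfl

theorem tp_one (n : ℕ) (s : A × A) : tp n s 1 = s.2 := rfl

theorem tp_succ (n : ℕ) (s : A × A) (i : Fin n) : tp n s i.succ.succ = 1 := rfl

theorem tp_inj (n : ℕ) : Function.Injective (tp n : A × A → Fin (n + 2) → A) := by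
  intro s s' h
  have h0 : s.1 = s'.1 := congrFun h 0
  have h1 : s.2 = s'.2 := congrFun h 1
  exact Prod.ext h0 h1

theorem eq_tp {n : ℕ} {t : Fin (n + 2) → A} (h : ∀ i : Fin n, t i.succ.succ = 1) :
    tp n (t 0, t 1) = t := by
  funext i
  refine Fin.cases rfl (fun i => ?_) i
  refine Fin.cases rfl (fun i => ?_) i
  rw [tp_succ, h]

theorem gt_tp (n : ℕ) (s : A × A) : gt (tp n s) = gn s := by
  apply le_antisymm
  · rw [gt_le]
    intro i
    refine Fin.cases ?_ (fun i => ?_) i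
    · exact Subgroup.subset_closure (Or.inl rfl)
    · refine Fin.cases ?_ (fun i => ?_) i
      · exact Subgroup.subset_closure (Or.inr rfl)
      · rw [tp_succ]
        exact Subgroup.one_mem _
  · unfold gn
    rw [Subgroup.closure_le]
    rintro x (rfl | rfl)
    · exact mem_gt (tp n s) 0
    · exact mem_gt (tp n s) 1

theorem sum_tp [Finite A] (n : ℕ) (F : (Fin (n + 2) → A) → ℤ)
    (hF : ∀ t, (¬ ∀ i : Fin n, t i.succ.succ = 1) → F t = 0) :
    ∑ᶠ t, F t = ∑ᶠ s : A × A, F (tp n s) := by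
  classical
  have := Fintype.ofFinite A
  rw [finsum_eq_sum_of_fintype, finsum_eq_sum_of_fintype]
  refine (Fintype.sum_of_injective (tp n) (tp_inj n) _ _ (fun t ht => ?_) (fun _ => rfl)).symm
  exact hF t (fun h => ht ⟨_, eq_tp h⟩)

theorem gn_le (s : A × A) (U : Subgroup A) : gn s ≤ U ↔ s.1 ∈ U ∧ s.2 ∈ U := by
  unfold gn
  rw [Subgroup.closure_le]
  constructor
  · intro h
    exact ⟨h (Or.inl rfl), h (Or.inr rfl)⟩
  · rintro ⟨h1, h2⟩ x (rfl | rfl)
    · exact h1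
    · exact h2

theorem Pn_tp (n : ℕ) (f : A → ℤ) (s : A × A) : Pn n f (tp n s) = f (cmt s.1 s.2)⁻¹ := by
  classical
  unfold Pn
  rw [if_pos (fun i => tp_succ n s i)]
  rfl

theorem Pn_zero {n : ℕ} (f : A → ℤ) {t : Fin (n + 2) → A}
    (h : ¬ ∀ i : Fin n, t i.succ.succ = 1) : Pn n f t = 0 := by
  classical
  unfold Pn
  rw [if_neg h]

theorem rel2_coe (U : Subgroup A) (t : Fin 6 → ↥U) :
    rel2 (fun i => (t i : A)) ↔ rel2 t := by
  unfold rel2
  rw [Subtype.ext_iff]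
  simp

theorem rel3_coe (U : Subgroup A) (t : Fin 8 → ↥U) :
    rel3 (fun i => (t i : A)) ↔ rel3 t := by
  unfold rel3
  rw [Subtype.ext_iff]
  simp

theorem omf_coe (p : ℕ) (U : Subgroup A) (x : ↥U) : omf p (x : A) = omf p x := by
  classical
  have h : ((x : A) ^ p = 1) ↔ x ^ p = 1 := by
    rw [Subtype.ext_iff]
    simp
  unfold omf
  by_cases h1 : x ^ p = 1
  · rw [if_pos h1, if_pos (h.2 h1)]
  · rw [if_neg h1, if_neg (fun h2 => h1 (h.1 h2))]

theorem dl_coe (U : Subgroup A) (x : ↥U) : dl (x : A) = dl x := by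
  classical
  have h : ((x : A) = 1) ↔ x = 1 := by
    rw [Subtype.ext_iff]
    simp
  unfold dl
  by_cases h1 : x = 1
  · rw [if_pos h1, if_pos (h.2 h1)]
  · rw [if_neg h1, if_neg (fun h2 => h1 (h.1 h2))]

theorem W2_coe (U : Subgroup A) (m h : A → ℤ) (h' : ↥U → ℤ) (hh : ∀ x : ↥U, h x = h' x)
    (t : Fin 6 → ↥U) :
    W2 (fun x : ↥U => m x) h' t = W2 m h (fun i => (t i : A)) := by
  classical
  unfold W2
  refine if_congr (rel2_coe U t).symm ?_ rfl
  simp only [hh]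

theorem W3_coe (U : Subgroup A) (m h : A → ℤ) (h' : ↥U → ℤ) (hh : ∀ x : ↥U, h x = h' x)
    (t : Fin 8 → ↥U) :
    W3 (fun x : ↥U => m x) h' t = W3 m h (fun i => (t i : A)) := by
  classical
  unfold W3
  refine if_congr (rel3_coe U t).symm ?_ rfl
  simp only [hh]

theorem Pn_coe (U : Subgroup A) (n : ℕ) (f : A → ℤ) (t : Fin (n + 2) → ↥U) :
    Pn n (fun x : ↥U => f x) t = Pn n f (fun i => (t i : A)) := by
  classical
  unfold Pn
  have h1 : (((cmt (t 0) (t 1))⁻¹ : ↥U) : A) = (cmt (t 0 : A) (t 1 : A))⁻¹ := by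
    simp [cmt]
  have h2 : (∀ i : Fin n, (t i.succ.succ : A) = 1) ↔ ∀ i : Fin n, t i.succ.succ = 1 := by
    refine forall_congr' fun i => ?_
    rw [Subtype.ext_iff]
    simp
  by_cases h3 : ∀ i : Fin n, t i.succ.succ = 1
  · rw [if_pos h3, if_pos (h2.2 h3), ← h1]
  · rw [if_neg h3, if_neg (fun h4 => h3 (h2.1 h4))]

end PnMAux

open PnMAux

theorem nW_Pn [Finite A] (n : ℕ) (f : A → ℤ) (U : Subgroup A) : nW U (Pn n f) = nE U f := by
  classical
  unfold nW nE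
  rw [sum_tp n (fun t => if gt t ≤ U then Pn n f t else 0) (fun t ht => by
    rw [Pn_zero f ht, ite_self])]
  refine finsum_congr (fun s => ?_)
  rw [Pn_tp, gt_tp]
  exact if_congr (gn_le s U) rfl rfl

theorem bW_Pn [Finite A] (p n : ℕ) (f : A → ℤ) (U : Subgroup A) :
    bW p U (Pn n f) = bQ p U f := by
  classical
  unfold bW bQ
  rw [sum_tp n (fun t => if gt t ≤ U ∧ Opr p U ≤ gt t then Pn n f t else 0) (fun t ht => by
    rw [Pn_zero f ht, ite_self])]
  refine finsum_congr (fun s => ?_)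
  rw [Pn_tp, gt_tp]

theorem D2_dn [Finite A] (U : Subgroup A) (m : A → ℤ) (t : Fin 6 → ↥U) :
    D2 (fun x : ↥U => m x) t = D2 m (fun i => (t i : A)) := by
  haveI : Fact (Nat.Prime 2) := ⟨Nat.prime_two⟩
  unfold D2
  rw [sf_dn, W2_coe U m (omf 2) (omf 2) (omf_coe 2 U), W2_coe U m dl dl (dl_coe U), Pn_coe]

theorem D3_dn [Finite A] (U : Subgroup A) (m : A → ℤ) (t : Fin 8 → ↥U) :
    D3 (fun x : ↥U => m x) t = D3 m (fun i => (t i : A)) := by
  haveI : Fact (Nat.Prime 3) := ⟨Nat.prime_three⟩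
  unfold D3
  rw [sf_dn, W3_coe U m (omf 3) (omf 3) (omf_coe 3 U), W3_coe U m dl dl (dl_coe U), Pn_coe]

end Pool.Agent.Lib.P0c8ca5.By
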