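import Mathlib
import Pool.Agent.Lib.P0c8ca5Bx.TrS
import Pool.Agent.Lib.P0c8ca5Bx.ABa
import Pool.Agent.Lib.P0c8ca5By.DefsT

/-!
# TrT: the traces of `hpe * z` and of `secT z` agree

PROOF. Copies of `sec_nonDZ` (P0c8ca5Bx.Sec), `trE_sec` (P0c8ca5Bx.TrS) and `nA_pf` (P0c8ca5Bx.ABa) with `secT p z`, `pfT p m` in place of `sec p z`, `pf p m`. The only new point: in `sec_nonDZ` take an element
`d` of ORDER `p` in the p-subgroup `P` (`HasBr P f`, `P ≠ ⊥`); for `y` in the centralizer of `zpowers d` and `d' ∈ zpowers d`: `pr p (d' * y) = pr p y` (`pr_mul`, `pr_of_pow`) and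
`(d' * y * (pr p (d' * y))⁻¹) ^ p = (d' * (y * (pr p y)⁻¹)) ^ p = (y * (pr p y)⁻¹) ^ p` (`Commute.mul_pow`, `d' ^ p = 1`), so the coefficients of `resS C (secT p z)` are invariant under `y ↦ d' * y`.
On a block of defect zero: `(secT z - z).coeff y = 0` for p-regular `y` (`pr_eq_self`), so `(secT z - z) * b = 0` by `sing_dz`.
-/

namespace Pool.Agent.Lib.P0c8ca5.By

open MonoidAlgebra Bx

set_option linter.unusedSectionVars false

section Aux

variable {p : ℕ} {k : Type*} [Field k] {A : Type*} [Group A] [Finite A]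
variable [Fact p.Prime] [CharP k p] [IsAlgClosed k]

namespace TrTAux

theorem exists_ord {P : Subgroup A} (hP : IsPGroup p P) (hne : P ≠ ⊥) :
    ∃ d ∈ P, d ≠ 1 ∧ d ^ p = 1 := by
  classical
  obtain ⟨d, hd, hd1⟩ := (Subgroup.bot_or_exists_ne_one P).resolve_left hne
  have hex : ∃ n : ℕ, d ^ p ^ n = 1 := by
    obtain ⟨n, hn⟩ := hP ⟨d, hd⟩
    exact ⟨n, by simpa using congrArg Subtype.val hn⟩
  have h1 := Nat.find_spec hex
  have h2 : Nat.find hex ≠ 0 := by
    intro h0
    rw [h0, pow_zero, pow_one] at h1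
    exact hd1 h1
  obtain ⟨j, hj⟩ := Nat.exists_eq_succ_of_ne_zero h2
  have h3 : ¬ d ^ p ^ j = 1 := Nat.find_min hex (by omega)
  refine ⟨d ^ p ^ j, P.pow_mem hd _, h3, ?_⟩
  rw [← pow_mul, ← pow_succ, ← Nat.succ_eq_add_one, ← hj]
  exact h1


theorem res_sq {z : MonoidAlgebra k A} {D : Subgroup A} (hDp : ∀ d ∈ D, d ^ p = 1)
    (hD : IsPGroup p D) (hne : D ≠ ⊥)
    (hcomm : D ≤ Subgroup.centralizer (D : Set A)) :
    resS (Subgroup.centralizer (D : Set A) : Set A) (secT p z) *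
      resS (Subgroup.centralizer (D : Set A) : Set A) (secT p z) = 0 := by
  classical
  cases nonempty_fintype A
  set C := Subgroup.centralizer (D : Set A) with hC
  have hcm : ∀ d ∈ D, ∀ u ∈ C, d * u = u * d := by
    intro d hd u hu
    exact Subgroup.mem_centralizer_iff.1 hu d hd
  have hpr : ∀ d ∈ D, pr p d = 1 := by
    intro d hd
    obtain ⟨n, hn⟩ := hD ⟨d, hd⟩
    exact pr_of_pow (n := n) (by simpa using congrArg Subtype.val hn)
  have hb : ∀ d ∈ D, ∀ u, (resS (C : Set A) (secT p z)).coeff (d * u) =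
      (resS (C : Set A) (secT p z)).coeff u := by
    intro d hd u
    by_cases hu : u ∈ C
    · have hdu : d * u ∈ C := C.mul_mem (hcomm hd) hu
      rw [coeff_resS_of_mem _ (SetLike.mem_coe.2 hu), coeff_resS_of_mem _ (SetLike.mem_coe.2 hdu),
        secT_coeff, secT_coeff, pr_mul (show Commute d u from hcm d hd u hu), hpr d hd, one_mul]
      have hc1 : Commute d u := hcm d hd u hu
      have hc2 : Commute d (pr p u) := commute_pr hc1
      have e1 : (d * u * (pr p u)⁻¹) ^ p = (u * (pr p u)⁻¹) ^ p := by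
        rw [mul_assoc, (hc1.mul_right hc2.inv_right).mul_pow, hDp d hd, one_mul]
      rw [e1]
    · have hdu : d * u ∉ C := by
        intro h'
        apply hu
        have := C.mul_mem (C.inv_mem (hcomm hd)) h'
        rwa [inv_mul_cancel_left] at this
      rw [coeff_resS_of_notMem _ (fun h' => hu (SetLike.mem_coe.1 h')),
        coeff_resS_of_notMem _ (fun h' => hdu (SetLike.mem_coe.1 h'))]
  ext y
  rw [coeff_mul_fin]
  rw [sum_eq_sum_fixed (p := p) hD ((MulAction.toPermHom A A).comp D.subtype)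
    (fun u => (resS (C : Set A) (secT p z)).coeff u *
      (resS (C : Set A) (secT p z)).coeff (u⁻¹ * y)) ?_ ∅ ?_]
  · rw [Finset.sum_empty]
    rfl
  · intro g u
    change (resS (C : Set A) (secT p z)).coeff ((g : A) * u) *
      (resS (C : Set A) (secT p z)).coeff (((g : A) * u)⁻¹ * y) = _
    rw [hb g g.2 u]
    by_cases hu : u ∈ C
    · have h1 : ((g : A) * u)⁻¹ * y = (g : A)⁻¹ * (u⁻¹ * y) := by
        rw [hcm g g.2 u hu]
        group
      rw [h1, hb _ (D.inv_mem g.2)]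
    · rw [coeff_resS_of_notMem _ (fun h' => hu (SetLike.mem_coe.1 h')), zero_mul, zero_mul]
  · intro x
    constructor
    · intro hx
      exact absurd hx (Finset.notMem_empty x)
    · intro hx
      exfalso
      obtain ⟨d, hd, hd1⟩ := (Subgroup.bot_or_exists_ne_one D).resolve_left hne
      apply hd1
      have h1 : d * x = x := hx ⟨d, hd⟩
      exact mul_eq_right.1 h1



theorem secT_nonDZ {f z : MonoidAlgebra k A} (hf : IsBlock (⊤ : Subgroup A) f)
    (h : ¬ IsDZ p (⊤ : Subgroup A) f) (hz : z ∈ fixAlg k (⊤ : Subgroup A) ⊤) :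
    IsNilpotent (secT p z * f) := by
  classical
  cases nonempty_fintype A
  have hh : secT p z ∈ fixAlg k (⊤ : Subgroup A) ⊤ := secT_mem hz
  rcases blk_nilp_or_unit hf hh with h1 | ⟨w, hw, hwf⟩
  · exact h1
  exfalso
  have hex : ∃ P : Subgroup A, IsPGroup p P ∧ HasBr P f ∧ P ≠ ⊥ := by
    by_contra hcon
    apply h
    refine ⟨hf, fun P _ hP hbr => ?_⟩
    by_contra hne
    exact hcon ⟨P, hP, hbr, hne⟩
  obtain ⟨P, hP, ⟨x, hx, hfx⟩, hPne⟩ := hex
  obtain ⟨d, hd, hd1, hdp⟩ := exists_ord hP hPne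
  have hDp : ∀ d' ∈ Subgroup.zpowers d, d' ^ p = 1 := by
    rintro _ ⟨n, rfl⟩
    change (d ^ n) ^ p = 1
    rw [← zpow_natCast, ← zpow_mul, mul_comm, zpow_mul, zpow_natCast, hdp, one_zpow]
  have hDP : Subgroup.zpowers d ≤ P := by rwa [Subgroup.zpowers_le]
  have hD : IsPGroup p (Subgroup.zpowers d) := hP.to_le hDP
  have hDne : Subgroup.zpowers d ≠ ⊥ := by
    rwa [Ne, Subgroup.zpowers_eq_bot]
  have hcomm : Subgroup.zpowers d ≤
      Subgroup.centralizer ((Subgroup.zpowers d : Subgroup A) : Set A) := by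
    rw [Subgroup.zpowers_le, Subgroup.mem_centralizer_iff]
    rintro _ ⟨n, rfl⟩
    exact ((Commute.refl d).zpow_left n).eq
  have hsq := res_sq (p := p) (k := k) (z := z) hDp hD hDne hcomm
  have hwf' : w * f ∈ fixAlg k (⊤ : Subgroup A) ⊤ := (fixAlg k _ _).mul_mem hw hf.mem
  have hwwf : w * (w * f) ∈ fixAlg k (⊤ : Subgroup A) ⊤ := (fixAlg k _ _).mul_mem hw hwf'
  have hhh : secT p z * secT p z ∈ fixAlg k (⊤ : Subgroup A) ⊤ := (fixAlg k _ _).mul_mem hh hh
  have hfe : secT p z * secT p z * (w * (w * f)) = f := by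
    have hc : w * secT p z = secT p z * w :=
      commute_of (mem_fixAlg.1 hw).1 (mem_fixAlg.1 hh).2
    calc secT p z * secT p z * (w * (w * f)) = secT p z * (secT p z * w) * (w * f) := by
          simp only [mul_assoc]
      _ = secT p z * (w * secT p z) * (w * f) := by rw [hc]
      _ = secT p z * w * (secT p z * w * f) := by simp only [mul_assoc]
      _ = f := by rw [hwf, hwf]
  have hinv : ∀ a : MonoidAlgebra k A, a ∈ fixAlg k (⊤ : Subgroup A) ⊤ →
      InvBy (Subgroup.zpowers d) a := fun a ha => (mem_fixAlg.1 ha).2.mono le_top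
  have h0 : resS (Subgroup.centralizer ((Subgroup.zpowers d : Subgroup A) : Set A) : Set A) f
      = 0 := by
    rw [← hfe, resS_mul hD (hinv _ hhh) (hinv _ hwwf), resS_mul hD (hinv _ hh) (hinv _ hh), hsq,
      zero_mul]
  apply hfx
  have hxC : x ∈ Subgroup.centralizer ((Subgroup.zpowers d : Subgroup A) : Set A) :=
    Subgroup.centralizer_le (SetLike.coe_subset_coe.2 hDP) hx
  rw [← coeff_resS_of_mem (S := (Subgroup.centralizer
    ((Subgroup.zpowers d : Subgroup A) : Set A) : Set A)) f hxC, h0]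
  rfl

end TrTAux

end Aux

open TrTAux

theorem trE_secT {p : ℕ} {k : Type*} [Field k] {A : Type*} [Group A] [Fintype A]
    [Fact p.Prime] [CharP k p] [IsAlgClosed k] {z : MonoidAlgebra k A}
    (hz : z ∈ fixAlg k (⊤ : Subgroup A) ⊤) :
    trE k (⊤ : Subgroup A) (fun x => (hpe p k A * z).coeff x)
      = trE k (⊤ : Subgroup A) (fun x => (secT p z).coeff x) := by
  classical
  have hone : (1 : MonoidAlgebra k A) ∈ fixAlg k (⊤ : Subgroup A) ⊤ := (fixAlg k _ _).one_mem
  have hfin : {b : MonoidAlgebra k A | IsBlock (⊤ : Subgroup A) b ∧ b * 1 ≠ 0}.Finite :=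
    (finite_isBlock (k := k) (⊤ : Subgroup A)).subset (fun b hb => hb.1)
  have hB : ∀ b, b ∈ hfin.toFinset ↔ IsBlock (⊤ : Subgroup A) b ∧ b * 1 ≠ 0 := by
    intro b
    rw [Set.Finite.mem_toFinset]
    rfl
  generalize hfin.toFinset = B at hB
  have hsum : ∑ b ∈ B, b = 1 := WSumAux.sum_blocks (p := p) hone (one_mul 1) B hB
  have hsec : secT p z ∈ fixAlg k (⊤ : Subgroup A) ⊤ := secT_mem hz
  have e1 : hpe p k A * z = ∑ b ∈ B, hpe p k A * z * b := by
    rw [← Finset.mul_sum, hsum, mul_one]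
  have e2 : secT p z = ∑ b ∈ B, secT p z * b := by
    rw [← Finset.mul_sum, hsum, mul_one]
  have key : ∀ b ∈ B, trE k (⊤ : Subgroup A) (fun x => (hpe p k A * z * b).coeff x)
      = trE k (⊤ : Subgroup A) (fun x => (secT p z * b).coeff x) := by
    intro b hb
    obtain ⟨hb1, _⟩ := (hB b).1 hb
    have hzb : z * b = b * z := commute_of (mem_fixAlg.1 hz).1 (mem_fixAlg.1 hb1.mem).2
    have e3 : hpe p k A * z * b = hpe p k A * b * z := by
      rw [mul_assoc, hzb, ← mul_assoc]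
    by_cases hdz : IsDZ p (⊤ : Subgroup A) b
    · have h1 : hpe p k A * z * b = z * b := by
        rw [e3, hpe_mul_dz hdz, hzb]
      have h2 : (secT p z - z) * b = 0 := by
        refine sing_dz (p := p) hdz ((fixAlg k (⊤ : Subgroup A) ⊤).sub_mem hsec hz) ?_
        intro y hy
        rw [coeff_sub, Finsupp.sub_apply, secT_coeff, pr_eq_self hy, mul_inv_cancel, one_pow,
          if_pos rfl, sub_self]
      have h3 : secT p z * b = z * b := by
        rw [sub_mul, sub_eq_zero] at h2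
        exact h2
      rw [h1, h3]
    · have hhb : hpe p k A * b ∈ fixAlg k (⊤ : Subgroup A) ⊤ :=
        (fixAlg k (⊤ : Subgroup A) ⊤).mul_mem hpe_mem hb1.mem
      have hm1 : hpe p k A * z * b ∈ fixAlg k (⊤ : Subgroup A) ⊤ := by
        rw [e3]
        exact (fixAlg k (⊤ : Subgroup A) ⊤).mul_mem hhb hz
      have hm2 : secT p z * b ∈ fixAlg k (⊤ : Subgroup A) ⊤ :=
        (fixAlg k (⊤ : Subgroup A) ⊤).mul_mem hsec hb1.mem
      have hc : Commute (hpe p k A * b) z :=
        commute_of (mem_fixAlg.1 hhb).1 (mem_fixAlg.1 hz).2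
      have hn1 : IsNilpotent (hpe p k A * z * b) := by
        rw [e3]
        exact hc.isNilpotent_mul_right (hpe_nonDZ hb1 hdz)
      rw [trE_nilpotent (p := p) (mem_fixAlg.1 hm1).1 (mem_fixAlg.1 hm1).2 hn1,
        trE_nilpotent (p := p) (mem_fixAlg.1 hm2).1 (mem_fixAlg.1 hm2).2
          (secT_nonDZ hb1 hdz hz)]
  calc trE k (⊤ : Subgroup A) (fun x => (hpe p k A * z).coeff x)
      = trE k (⊤ : Subgroup A) (fun x => (∑ b ∈ B, hpe p k A * z * b).coeff x) := by rw [← e1]
    _ = ∑ b ∈ B, trE k (⊤ : Subgroup A) (fun x => (hpe p k A * z * b).coeff x) :=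
        TDzBAux.trE_sum _ _ _
    _ = ∑ b ∈ B, trE k (⊤ : Subgroup A) (fun x => (secT p z * b).coeff x) :=
        Finset.sum_congr rfl key
    _ = trE k (⊤ : Subgroup A) (fun x => (∑ b ∈ B, secT p z * b).coeff x) :=
        (TDzBAux.trE_sum _ _ _).symm
    _ = trE k (⊤ : Subgroup A) (fun x => (secT p z).coeff x) := by rw [← e2]

theorem nA_pfT {p : ℕ} [Fact p.Prime] {A : Type*} [Group A] [Finite A] {m : A → ℤ}
    (hm : IsWt p ⊤ m) :
    (p : ℤ) * (Nat.card A : ℤ) ∣ nA p (⊤ : Subgroup A) m - nE (⊤ : Subgroup A) (pfT p m) := by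
  classical
  cases nonempty_fintype A
  have hc : CF m := CF_of_wt hm
  obtain ⟨t, h1, h2⟩ := nA_trE (k := AlgebraicClosure (ZMod p)) (p := p) hc
  obtain ⟨t', h3, h4⟩ := nE_trE (k := AlgebraicClosure (ZMod p)) (⊤ : Subgroup A) (m := pfT p m)
    (fun h _ x => CF_pfT hc h x)
  have h5 := trE_secT (p := p) (k := AlgebraicClosure (ZMod p)) (z := zel _ m) (zel_mem hc)
  have h6 : ((t - t' : ℤ) : AlgebraicClosure (ZMod p)) = 0 := by
    rw [Int.cast_sub, h2, h4, h5, sub_eq_zero, secT_zel]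
    rfl
  have h7 : (p : ℤ) ∣ t - t' := (CharP.intCast_eq_zero_iff (AlgebraicClosure (ZMod p)) p _).1 h6
  obtain ⟨c, hc'⟩ := h7
  rw [h1, h3, Subgroup.card_top, ← mul_sub, hc']
  exact ⟨c, by ring⟩

end Pool.Agent.Lib.P0c8ca5.By
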