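import Mathlib
import Pool.Agent.Lib.P0c8ca5Bx.Fin
import Pool.Agent.Lib.P0c8ca5Bx.ABb
import Pool.Agent.Lib.P0c8ca5By.Fam
import Pool.Agent.Lib.P0c8ca5By.PnM
import Pool.Agent.Lib.P0c8ca5By.TrT
import Pool.Agent.Lib.P0c8ca5By.ClsP

/-!
# The blockwise weight conjecture and pairs with commutator `u c`, `u` of order `p`

`baw_iff_comm`: for all primes `p`: the blockwise weight conjecture holds for `p` if and only if for all finite
groups `G` with `O_p(G) = 1` and all classes `C` of p-regular elements `p |G|_p` divides the number of pairs `(a, b)` that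
generate a group containing `O^p(G)` with `[a, b] = u d`, `u` of order `p`, `d ∈ C`, `u d = d u`.
-/

namespace Pool.Agent.Lib.P0c8ca5.By

open MonoidAlgebra Bx TFinAux

universe u v

theorem nE_congr_T {p : ℕ} [Fact p.Prime] {A : Type*} [Group A] [Finite A] {m : A → ℤ}
    (hm : IsWt p ⊤ m) : (p : ℤ) * (Nat.card A : ℤ) ∣
      nE (⊤ : Subgroup A) (fun x => sf p m x - sfT p m x) := by
  classical
  have := Fintype.ofFinite A
  have e : nE (⊤ : Subgroup A) (fun x => sf p m x - sfT p m x) =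
      nE (⊤ : Subgroup A) (pf p m) - nE (⊤ : Subgroup A) (pfT p m) := by
    unfold nE
    rw [finsum_eq_sum_of_fintype, finsum_eq_sum_of_fintype, finsum_eq_sum_of_fintype,
      ← Finset.sum_sub_distrib]
    refine Finset.sum_congr rfl (fun t _ => ?_)
    split_ifs
    · change sf p m _ - sfT p m _ = pf p m _ - pfT p m _
      rw [sf_eq hm, sfT_eq hm, sub_sub_sub_cancel_right]
    · rw [sub_zero]
  rw [e]
  have h1 := nA_pf (p := p) hm
  have h2 := nA_pfT (p := p) hm
  have h3 := dvd_sub h2 h1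
  rwa [sub_sub_sub_cancel_left] at h3

/-- one group -/
theorem bQ_T {p : ℕ} [Fact p.Prime] {A : Type u} [Group A] [Finite A]
    (hA : NoP p (⊤ : Subgroup A)) {m : A → ℤ} (hm : IsWt p ⊤ m) :
    (p : ℤ) * (ordProj[p] (Nat.card A) : ℕ) ∣
      bQ p (⊤ : Subgroup A) (sf p m) - bQ p (⊤ : Subgroup A) (sfT p m) := by
  classical
  have h4 := bW_family (p := p) (ι := Fin (0 + 2))
    (fun (G : Type u) [Group G] m => Pn 0 (fun x => sf p m x - sfT p m x))
    (fun G _ _ U m t => by
      unfold Pn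
      refine if_congr ?_ ?_ rfl
      · exact ⟨fun _ i => i.elim0, fun _ i => i.elim0⟩
      · rw [sf_dn, sfT_dn]
        have e : (((cmt (t 0) (t 1))⁻¹ : ↥U) : G) = (cmt (t 0 : G) (t 1 : G))⁻¹ := by
          simp [cmt]
        change sf p m (((cmt (t 0) (t 1))⁻¹ : ↥U) : G) - sfT p m (((cmt (t 0) (t 1))⁻¹ : ↥U) : G)
          = sf p m (cmt (t 0 : G) (t 1 : G))⁻¹ - sfT p m (cmt (t 0 : G) (t 1 : G))⁻¹
        rw [e])
    (fun G _ _ m hm => CFt_Pn 0 (fun g x => by
      change sf p m (g * x * g⁻¹) - sfT p m (g * x * g⁻¹) = sf p m x - sfT p m x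
      rw [CF_sf (p := p) (CF_of_wt hm) g x, CF_sfT (p := p) (CF_of_wt hm) g x]))
    (fun G _ _ m hm => by
      rw [nW_Pn]
      exact nE_congr_T hm) A m hm hA
  rw [bW_Pn] at h4
  have e : bQ p (⊤ : Subgroup A) (fun x => sf p m x - sfT p m x) =
      bQ p (⊤ : Subgroup A) (sf p m) - bQ p (⊤ : Subgroup A) (sfT p m) := by
    have := Fintype.ofFinite A
    unfold bQ
    rw [finsum_eq_sum_of_fintype, finsum_eq_sum_of_fintype, finsum_eq_sum_of_fintype,
      ← Finset.sum_sub_distrib]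
    refine Finset.sum_congr rfl (fun t _ => ?_)
    split_ifs
    · rfl
    · rw [sub_zero]
  rwa [e] at h4

/-- **Pairs with commutator `u d`, `u` of order `p`.** -/
theorem baw_iff_comm {p : ℕ} [Fact p.Prime] {k : Type v} [Field k] [IsAlgClosed k] [CharP k p] :
    (∀ (G : Type u) [Group G] [Finite G] (b : MonoidAlgebra k G), IsBlock (⊤ : Subgroup G) b →
      gap p (⊤ : Subgroup G) ⊤ b = 0) ↔
    (∀ (G : Type u) [Group G] [Finite G], NoP p (⊤ : Subgroup G) → ∀ c : G, Preg p c →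
      p * ordProj[p] (Nat.card G) ∣ Nat.card {y : G × G //
        (∃ u d : G, orderOf u = p ∧ IsConj c d ∧ Commute u d ∧ cmt y.1 y.2 = u * d) ∧
        ∀ w : G, Preg p w → w ∈ Subgroup.closure ({y.1, y.2} : Set G)}) := by
  constructor
  · intro h G _ _ hG c hc
    have h1 := (bawp_iff_bQ (p := p) (k := k)).1 (fun G _ _ b hb => ⟨0, by
      rw [h G b hb]
      simp⟩)
    have h2 := (bQT_cls (A := G) ((p : ℤ) * (ordProj[p] (Nat.card G) : ℕ))).1
      (fun m hm => (dvd_sub_right (h1 G m hm hG)).1 (bQ_T hG hm)) c hc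
    exact_mod_cast h2
  · intro h
    refine amp (p := p) ?_
    refine (bawp_iff_bQ (p := p) (k := k)).2 (fun G _ _ m hm hG => ?_)
    have h2 := (bQT_cls (A := G) ((p : ℤ) * (ordProj[p] (Nat.card G) : ℕ))).2
      (fun c hc => by exact_mod_cast h G hG c hc) m hm
    have h3 := dvd_add (bQ_T hG hm) h2
    rwa [sub_add_cancel] at h3

end Pool.Agent.Lib.P0c8ca5.By
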