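import Mathlib
import Pool.Agent.Lib.P0c8ca5Bx.Fin
import Pool.Agent.Lib.P0c8ca5By.FinP

/-!
# The blockwise weight conjecture and triangle groups

* `baw_iff_rotT`: if there is a rotation of order `q = p ^ r` (and parameter `s`): pairs `(x, y)` with
  `x ^ s = y ^ q = 1` and `x y = u d`, `u` of order `p ^ (r + 1)` commuting with `d ∈ C`.
* `baw_iff_248`: `p = 2`, pairs `(x, y)` with `x² = y⁴ = 1` and `x y = u d`, `u` of order 8: quotients of the triangle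
  groups `(2, 4, 8 m)`.
* `baw_iff_339`: `p = 3`, pairs `(x, y)` with `x³ = y³ = 1` and `x y = u d`, `u` of order 9: quotients of the triangle
  groups `(3, 3, 9 m)`.
-/

namespace Pool.Agent.Lib.P0c8ca5.By

open MonoidAlgebra Bx TFinAux

universe u v

namespace FinRAux

variable {p : ℕ} {A : Type*} [Group A]

theorem pp_inv_pow (x : A) (q : ℕ) :
    (x ^ q)⁻¹ * (pr p ((x ^ q)⁻¹))⁻¹ = ((x * (pr p x)⁻¹) ^ q)⁻¹ := by
  have h1 : pr p ((x ^ q)⁻¹) = ((pr p x) ^ q)⁻¹ := by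
    rw [ClsAAux.pr_inv, ClsAAux.pr_pow]
  have h2 : x ^ q = (x * (pr p x)⁻¹) ^ q * pr p x ^ q := ClsAAux.x_pow x q
  have h3 : Commute ((x * (pr p x)⁻¹) ^ q) (pr p x ^ q) := (ClsAAux.comm_u x).pow_pow q q
  rw [h1, inv_inv, h2, mul_inv_rev, (h3.inv_inv.eq).symm, mul_assoc, inv_mul_cancel, mul_one]

open Classical in
theorem sfT_eq_sf (m : A → ℤ) (y : A) :
    sfT p m y = if (y * (pr p y)⁻¹) ^ p = 1 then sf p m y else 0 := by
  unfold sfT sf
  by_cases h1 : (y * (pr p y)⁻¹) ^ p = 1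
  · by_cases h2 : Preg p y
    · rw [if_neg (fun h => h.2 h2), if_pos h1, if_pos h2]
    · rw [if_pos ⟨h1, h2⟩, if_pos h1, if_neg h2]
  · rw [if_neg (fun h => h1 h.1), if_neg h1]

theorem order_iff [Fact p.Prime] (v : A) (r : ℕ) :
    orderOf v = p ^ (r + 1) ↔ v ^ p ^ (r + 1) = 1 ∧ v ^ p ^ r ≠ 1 := by
  have hp : p.Prime := Fact.out
  constructor
  · intro h
    refine ⟨by rw [← h]; exact pow_orderOf_eq_one v, fun h1 => ?_⟩
    have h2 := orderOf_dvd_of_pow_eq_one h1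
    rw [h] at h2
    have h3 := (Nat.pow_dvd_pow_iff_le_right hp.one_lt).1 h2
    omega
  · rintro ⟨h1, h2⟩
    exact orderOf_eq_prime_pow h2 h1

theorem sfT_pow [Fact p.Prime] [Finite A] (r : ℕ) (m : A → ℤ) (x : A) :
    (orderOf (x * (pr p x)⁻¹) ≠ p ^ (r + 1) → sfT p m ((x ^ p ^ r)⁻¹) = 0) ∧
    (orderOf (x * (pr p x)⁻¹) = p ^ (r + 1) → sfT p m ((x ^ p ^ r)⁻¹) = m (pr p x ^ p ^ r)⁻¹) := by
  classical
  obtain ⟨s1, s2⟩ := sf_pow (p := p) r m x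
  have e : (((x * (pr p x)⁻¹) ^ p ^ r)⁻¹) ^ p = 1 ↔ (x * (pr p x)⁻¹) ^ p ^ (r + 1) = 1 := by
    rw [inv_pow, inv_eq_one, ← pow_mul, ← pow_succ]
  rw [sfT_eq_sf, pp_inv_pow]
  constructor
  · intro h
    rw [Ne, order_iff] at h
    by_cases h1 : (x * (pr p x)⁻¹) ^ p ^ r = 1
    · rw [s1 h1, ite_self]
    · rw [if_neg]
      rw [e]
      exact fun h2 => h ⟨h2, h1⟩
  · intro h
    obtain ⟨h1, h2⟩ := (order_iff _ _).1 h
    rw [if_pos (e.2 h1), s2 h2]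

theorem ud_iff [Fact p.Prime] [Finite A] {r : ℕ} {c : A} (hc : Preg p c) (z : A) :
    (∃ u e : A, orderOf u = p ^ (r + 1) ∧ IsConj c e ∧ Commute u e ∧ z = u * e) ↔
      IsConj c (pr p z) ∧ orderOf (z * (pr p z)⁻¹) = p ^ (r + 1) := by
  constructor
  · rintro ⟨u, e, h1, h2, h3, rfl⟩
    have he : Preg p e := ClsBAux.preg_isConj h2.symm hc
    have h4 : u ^ p ^ (r + 1) = 1 := by rw [← h1]; exact pow_orderOf_eq_one u
    have h5 : pr p (u * e) = e := by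
      rw [pr_mul h3, pr_of_pow h4, one_mul, pr_eq_self he]
    rw [h5, mul_inv_cancel_right]
    exact ⟨h2, h1⟩
  · rintro ⟨h1, h2⟩
    exact ⟨z * (pr p z)⁻¹, pr p z, h2, h1, ClsAAux.comm_u z, (inv_mul_cancel_right z (pr p z)).symm⟩

end FinRAux

open FinRAux

open Classical in
theorem wXT_cls {p : ℕ} [Fact p.Prime] {G : Type*} [Group G] [Finite G] (r s : ℕ) (d : ℤ) :
    (∀ m : G → ℤ, IsWt p ⊤ m → d ∣ wX p (p ^ r) s (fun x => sfT p m ((x ^ p ^ r)⁻¹))) ↔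
    ∀ c : G, Preg p c → d ∣ (Nat.card {y : G × G // y.1 ^ s = 1 ∧ y.2 ^ p ^ r = 1 ∧
      (∃ u e : G, orderOf u = p ^ (r + 1) ∧ IsConj c e ∧ Commute u e ∧ y.1 * y.2 = u * e) ∧
      ∀ w : G, Preg p w → w ∈ Subgroup.closure ({y.1, y.2} : Set G)} : ℤ) := by
  have : Fintype G := Fintype.ofFinite G
  obtain ⟨P, hP⟩ : ∃ P : G × G → Prop, ∀ y, P y ↔ (y.2 ^ p ^ r = 1 ∧ (y.1 * y.2) ^ s = 1 ∧
    Opr p (⊤ : Subgroup G) ≤ gn y) ∧ orderOf (y.1 * (pr p y.1)⁻¹) = p ^ (r + 1) :=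
    ⟨_, fun _ => Iff.rfl⟩
  have h1 : ∀ m : G → ℤ, wX p (p ^ r) s (fun x => sfT p m ((x ^ p ^ r)⁻¹))
      = ∑ y : G × G, if P y then m (pr p y.1 ^ p ^ r)⁻¹ else 0 := by
    intro m
    unfold wX
    rw [finsum_eq_sum_of_fintype]
    refine Finset.sum_congr rfl fun y _ => ?_
    obtain ⟨s1, s2⟩ := sfT_pow (p := p) r m y.1
    by_cases a1 : y.2 ^ p ^ r = 1 ∧ (y.1 * y.2) ^ s = 1 ∧ Opr p (⊤ : Subgroup G) ≤ gn y
    · rw [if_pos a1]
      beta_reduce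
      by_cases a3 : orderOf (y.1 * (pr p y.1)⁻¹) = p ^ (r + 1)
      · rw [s2 a3, if_pos ((hP y).2 ⟨a1, a3⟩)]
      · rw [s1 a3, if_neg (fun h => a3 ((hP y).1 h).2)]
    · rw [if_neg a1, if_neg (fun h => a1 ((hP y).1 h).1)]
  have h2 := ClsBAux.gen_cls (p := p) P (fun y => pr p y.1) (fun y => preg_pr _) r d
  simp only [h1]
  rw [h2]
  refine forall_congr' fun c => forall_congr' fun hc => ?_
  have h3 : Nat.card {y : G × G // P y ∧ IsConj c (pr p y.1)} =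
      Nat.card {y : G × G // y.1 ^ s = 1 ∧ y.2 ^ p ^ r = 1 ∧
      (∃ u e : G, orderOf u = p ^ (r + 1) ∧ IsConj c e ∧ Commute u e ∧ y.1 * y.2 = u * e) ∧
      ∀ w : G, Preg p w → w ∈ Subgroup.closure ({y.1, y.2} : Set G)} := by
    refine Nat.card_congr ((ClsBAux.eqv G).subtypeEquiv fun y => ?_)
    have e1 : (ClsBAux.eqv G y).1 = y.1 * y.2 := rfl
    have e2 : (ClsBAux.eqv G y).2 = y.2⁻¹ := rfl
    have e3 : gn y = Subgroup.closure {y.1, y.2} := rfl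
    rw [e1, e2, ClsBAux.clo_eqv, mul_inv_cancel_right, ud_iff hc, inv_pow, inv_eq_one,
      ← ClsFAux.opr_le_iff, ← e3, hP y]
    tauto
  rw [h3]

section
variable {p : ℕ} [Fact p.Prime] {k : Type v} [Field k] [IsAlgClosed k] [CharP k p]

/-- **The blockwise weight conjecture and triangle groups.** -/
theorem baw_iff_rotT {r s : ℕ} (E : ∀ (X : Type u) [Group X], X × X → X × X)
    (hE : ∀ (X : Type u) [Group X], IsRq (p ^ r) (E X))
    (T : ∀ (X : Type u) [Group X], X → X → X × X)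
    (hT : ∀ (X : Type u) [Group X], IsPq (p ^ r) s (E X) (T X)) :
    (∀ (G : Type u) [Group G] [Finite G] (b : MonoidAlgebra k G), IsBlock (⊤ : Subgroup G) b →
      gap p (⊤ : Subgroup G) ⊤ b = 0) ↔
    (∀ (G : Type u) [Group G] [Finite G], NoP p (⊤ : Subgroup G) → ∀ c : G, Preg p c →
      p * ordProj[p] (Nat.card G) ∣ Nat.card {y : G × G // y.1 ^ s = 1 ∧ y.2 ^ p ^ r = 1 ∧
        (∃ u e : G, orderOf u = p ^ (r + 1) ∧ IsConj c e ∧ Commute u e ∧ y.1 * y.2 = u * e) ∧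
        ∀ w : G, Preg p w → w ∈ Subgroup.closure ({y.1, y.2} : Set G)}) := by
  classical
  have key : ∀ (G : Type u) [Group G] [Finite G] (m : G → ℤ), IsWt p ⊤ m →
      NoP p (⊤ : Subgroup G) → (p : ℤ) * (ordProj[p] (Nat.card G) : ℕ) ∣
        bQ p (⊤ : Subgroup G) (sf p m) - wX p (p ^ r) s (fun x => sfT p m ((x ^ p ^ r)⁻¹)) := by
    intro G _ _ m hm hG
    have h1 := bQ_T hG hm
    have h2 := bQ_congr (hE G) (hT G) hG (CF_sfT (p := p) (CF_of_wt hm))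
    have h3 := dvd_add h1 h2
    rwa [sub_add_sub_cancel] at h3
  constructor
  · intro h G _ _ hG c hc
    have h1 := (bawp_iff_bQ (p := p) (k := k)).1 (fun G _ _ b hb => ⟨0, by
      rw [h G b hb]
      simp⟩)
    have h2 := (wXT_cls (G := G) r s ((p : ℤ) * (ordProj[p] (Nat.card G) : ℕ))).1
      (fun m hm => (dvd_sub_right (h1 G m hm hG)).1 (key G m hm hG)) c hc
    exact_mod_cast h2
  · intro h
    refine amp (p := p) ?_
    refine (bawp_iff_bQ (p := p) (k := k)).2 (fun G _ _ m hm hG => ?_)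
    have h2 := (wXT_cls (G := G) r s ((p : ℤ) * (ordProj[p] (Nat.card G) : ℕ))).2
      (fun c hc => by exact_mod_cast h G hG c hc) m hm
    have h4 := dvd_add (key G m hm hG) h2
    rwa [sub_add_cancel] at h4

end

/-- `p = 3`: pairs `(x, y)` with `x³ = y³ = 1`, `x y = u d`, `u` of order 9 -/
theorem baw_iff_339 {k : Type v} [Field k] [IsAlgClosed k] [CharP k 3] :
    (∀ (G : Type u) [Group G] [Finite G] (b : MonoidAlgebra k G), IsBlock (⊤ : Subgroup G) b →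
      gap 3 (⊤ : Subgroup G) ⊤ b = 0) ↔
    (∀ (G : Type u) [Group G] [Finite G], NoP 3 (⊤ : Subgroup G) → ∀ c : G, Preg 3 c →
      3 * ordProj[3] (Nat.card G) ∣ Nat.card {y : G × G // y.1 ^ 3 = 1 ∧ y.2 ^ 3 = 1 ∧
        (∃ u e : G, orderOf u = 9 ∧ IsConj c e ∧ Commute u e ∧ y.1 * y.2 = u * e) ∧
        ∀ w : G, Preg 3 w → w ∈ Subgroup.closure ({y.1, y.2} : Set G)}) := by
  have : Fact (Nat.Prime 3) := ⟨Nat.prime_three⟩
  have h := baw_iff_rotT (p := 3) (k := k) (r := 1) (s := 3) (fun X _ => Eq3)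
    (fun X _ => by norm_num; exact Eq3_isRq) (fun X _ => Tq3)
    (fun X _ => by norm_num; exact Tq3_isPq)
  have e : (3 : ℕ) ^ (1 + 1) = 9 := by norm_num
  simpa only [pow_one, e] using h

/-- `p = 2`: pairs `(x, y)` with `x² = y⁴ = 1`, `x y = u d`, `u` of order 8 -/
theorem baw_iff_248 {k : Type v} [Field k] [IsAlgClosed k] [CharP k 2] :
    (∀ (G : Type u) [Group G] [Finite G] (b : MonoidAlgebra k G), IsBlock (⊤ : Subgroup G) b →
      gap 2 (⊤ : Subgroup G) ⊤ b = 0) ↔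
    (∀ (G : Type u) [Group G] [Finite G], NoP 2 (⊤ : Subgroup G) → ∀ c : G, Preg 2 c →
      2 * ordProj[2] (Nat.card G) ∣ Nat.card {y : G × G // y.1 ^ 2 = 1 ∧ y.2 ^ 4 = 1 ∧
        (∃ u e : G, orderOf u = 8 ∧ IsConj c e ∧ Commute u e ∧ y.1 * y.2 = u * e) ∧
        ∀ w : G, Preg 2 w → w ∈ Subgroup.closure ({y.1, y.2} : Set G)}) := by
  have : Fact (Nat.Prime 2) := ⟨Nat.prime_two⟩
  have h := baw_iff_rotT (p := 2) (k := k) (r := 2) (s := 2) (fun X _ => Eq4)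
    (fun X _ => by norm_num; exact Eq4_isRq) (fun X _ => Tq4)
    (fun X _ => by norm_num; exact Tq4_isPq)
  have e1 : (2 : ℕ) ^ (2 + 1) = 8 := by norm_num
  have e2 : (2 : ℕ) ^ 2 = 4 := by norm_num
  simpa only [e1, e2] using h

end Pool.Agent.Lib.P0c8ca5.By
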