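import Mathlib
import Pool.Agent.Lib.P0c8ca5By.FinR

/-!
# The blockwise weight conjecture and triangle groups, p = 2: exact orders, classes of pairs

* `baw_iff_even`: the blockwise weight conjecture for `p = 2` holds if and only if for all finite groups `G` with
  `O_2(G) = 1` and all classes `C` of elements of odd order the number of the classes under `G` of the pairs `(x, y)`,
  `x` of order 2, `y` of order 4, `x y = u d`, `u` of order 8 commuting with `d ∈ C`, that generate a group containing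
  `O^2(G)`, is even.
-/

namespace Pool.Agent.Lib.P0c8ca5.By

open MonoidAlgebra Bx TFinAux

universe u v

namespace FinOAux

section
variable {G : Type*} [Group G]

/-- the elements `z ^ i` and `x z ^ i` of a dihedral group -/
def dih (x z : G) (hx : x ^ 2 = 1) (hz : x * z * x⁻¹ = z⁻¹) : Subgroup G where
  carrier := {g | ∃ i : ℤ, g = z ^ i ∨ g = x * z ^ i}
  one_mem' := ⟨0, Or.inl (zpow_zero z).symm⟩
  mul_mem' := by
    have hx1 : x⁻¹ = x := inv_eq_of_mul_eq_one_left (by rw [← pow_two, hx])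
    have h1 : ∀ i : ℤ, z ^ i * x = x * z ^ (-i) := by
      intro i
      have h2 : x * z ^ i * x⁻¹ = z ^ (-i) := by rw [← conj_zpow, hz, inv_zpow, zpow_neg]
      rw [zpow_neg, ← inv_zpow, ← hz, conj_zpow, hx1]
      have h3 : x * (x * z ^ i * x) = (x * x) * z ^ i * x := by group
      rw [h3, ← pow_two, hx, one_mul]
    rintro a b ⟨i, rfl | rfl⟩ ⟨j, rfl | rfl⟩
    · exact ⟨i + j, Or.inl (zpow_add z i j).symm⟩
    · refine ⟨-i + j, Or.inr ?_⟩
      rw [← mul_assoc, h1, mul_assoc, ← zpow_add]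
    · refine ⟨i + j, Or.inr ?_⟩
      rw [mul_assoc, ← zpow_add]
    · refine ⟨-i + j, Or.inl ?_⟩
      calc x * z ^ i * (x * z ^ j) = x * (z ^ i * x) * z ^ j := by group
        _ = x * (x * z ^ (-i)) * z ^ j := by rw [h1]
        _ = (x * x) * (z ^ (-i) * z ^ j) := by group
        _ = z ^ (-i + j) := by rw [← pow_two, hx, one_mul, ← zpow_add]
  inv_mem' := by
    have hx1 : x⁻¹ = x := inv_eq_of_mul_eq_one_left (by rw [← pow_two, hx])
    rintro a ⟨i, rfl | rfl⟩
    · exact ⟨-i, Or.inl (zpow_neg z i).symm⟩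
    · refine ⟨i, Or.inr ?_⟩
      have h2 : x * z ^ i * x⁻¹ = (z ^ i)⁻¹ := by rw [← conj_zpow, hz, inv_zpow]
      rw [mul_inv_rev, ← h2, hx1, mul_assoc, ← pow_two, hx, mul_one]

theorem dih_odd {x z : G} (hx : x ^ 2 = 1) (hz : x * z * x⁻¹ = z⁻¹) {g : G}
    (hg : g ∈ dih x z hx hz) (ho : Preg 2 g) : g ∈ Subgroup.zpowers z := by
  obtain ⟨i, rfl | rfl⟩ := hg
  · exact ⟨i, rfl⟩
  · have hx1 : x⁻¹ = x := inv_eq_of_mul_eq_one_left (by rw [← pow_two, hx])
    have h2 : x * z ^ i * x⁻¹ = (z ^ i)⁻¹ := by rw [← conj_zpow, hz, inv_zpow]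
    have h3 : (x * z ^ i) ^ 2 = 1 := by
      have h4 : (x * z ^ i) ^ 2 = (x * z ^ i * x⁻¹) * x * x * z ^ i := by
        rw [pow_two]
        group
      rw [h4, h2, mul_assoc (z ^ i)⁻¹, ← pow_two, hx, mul_one, inv_mul_cancel]
    have h5 : orderOf (x * z ^ i) ∣ 2 := orderOf_dvd_of_pow_eq_one h3
    rcases (Nat.dvd_prime Nat.prime_two).1 h5 with h6 | h6
    · rw [orderOf_eq_one_iff.1 h6]
      exact Subgroup.one_mem _
    · exact absurd (dvd_of_eq h6.symm) ho

theorem order_ud [Finite G] {u e : G} (hu : orderOf u = 8) (he : Preg 2 e) (h : Commute u e) :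
    8 ∣ orderOf (u * e) := by
  have h1 : (orderOf u).Coprime (orderOf e) := by
    rw [hu]
    have h2 : Nat.Coprime 2 (orderOf e) := (Nat.Prime.coprime_iff_not_dvd Nat.prime_two).2 he
    exact Nat.Coprime.pow_left 3 h2
  rw [h.orderOf_mul_eq_mul_orderOf_of_coprime h1, hu]
  exact Dvd.intro _ rfl

/-- exact orders -/
theorem exact_ord [Finite G] (hG : NoP 2 (⊤ : Subgroup G)) {c : G} (hc : Preg 2 c) {x y : G}
    (hx : x ^ 2 = 1) (hy : y ^ 4 = 1)
    (hud : ∃ u e : G, orderOf u = 8 ∧ IsConj c e ∧ Commute u e ∧ x * y = u * e)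
    (hgen : ∀ w : G, Preg 2 w → w ∈ Subgroup.closure ({x, y} : Set G)) :
    orderOf x = 2 ∧ orderOf y = 4 := by
  have : Fact (Nat.Prime 2) := ⟨Nat.prime_two⟩
  obtain ⟨u, e, hu, hce, hcom, hxy⟩ := hud
  have he : Preg 2 e := ClsBAux.preg_isConj hce.symm hc
  have h8 : 8 ∣ orderOf (x * y) := by
    rw [hxy]
    exact order_ud hu he hcom
  constructor
  · refine orderOf_eq_prime hx ?_
    rintro rfl
    rw [one_mul] at h8
    have h1 := h8.trans (orderOf_dvd_of_pow_eq_one hy)
    omega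
  · have h2 : y ^ 2 ^ 1 ≠ 1 := by
      intro hy2
      rw [pow_one] at hy2
      have hx1 : x⁻¹ = x := inv_eq_of_mul_eq_one_left (by rw [← pow_two, hx])
      have hy1 : y⁻¹ = y := inv_eq_of_mul_eq_one_left (by rw [← pow_two, hy2])
      obtain ⟨z, hz⟩ : ∃ z, z = x * y := ⟨_, rfl⟩
      have hxz : x * z * x⁻¹ = z⁻¹ := by
        rw [hz, mul_inv_rev, hy1, hx1]
        calc x * (x * y) * x = (x * x) * y * x := by group
          _ = y * x := by rw [← pow_two, hx, one_mul]
      have hle : Subgroup.closure ({x, y} : Set G) ≤ dih x z hx hxz := by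
        rw [Subgroup.closure_le]
        rintro g (rfl | rfl)
        · exact ⟨0, Or.inr (by rw [zpow_zero, mul_one])⟩
        · refine ⟨1, Or.inr ?_⟩
          rw [zpow_one, hz, ← mul_assoc, ← pow_two, hx, one_mul]
      have hO : Opr 2 (⊤ : Subgroup G) ≤ gen (z, z, z) := by
        rw [ClsFAux.opr_le_iff]
        intro w hw
        obtain ⟨i, rfl⟩ := dih_odd hx hxz (hle (hgen w hw)) hw
        have hzz : z ∈ gen (z, z, z) := Subgroup.subset_closure (Set.mem_insert z _)
        exact Subgroup.zpow_mem _ hzz i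
      have hzu : Commute u z := by
        rw [hz, hxy]
        exact (Commute.refl u).mul_right hcom
      have h3 : cj3 u (z, z, z) = (z, z, z) := by
        have h4 : u * z * u⁻¹ = z := by rw [hzu.eq, mul_inv_cancel_right]
        unfold cj3
        rw [h4]
      have h5 := RotAux.no_p_cent (p := 2) hG hO h3
      rw [hu] at h5
      exact h5 (by norm_num)
    have h3 := orderOf_eq_prime_pow (p := 2) (n := 1) h2 (by simpa using hy)
    simpa using h3

end

section
variable {G X : Type*} [Group G] [Finite G] [MulAction G X] [Finite X]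

/-- counting orbits -/
theorem card_orb2 (h : ∀ x : X, ¬ 2 ∣ Nat.card (MulAction.stabilizer G x)) :
    2 * ordProj[2] (Nat.card G) ∣ Nat.card X ↔ 2 ∣ Nat.card (MulAction.orbitRel.Quotient G X) := by
  classical
  have hG : Nat.card G ≠ 0 := Nat.card_pos.ne'
  have hfin : Finite (MulAction.orbitRel.Quotient G X) := Quotient.finite _
  have : Fintype (MulAction.orbitRel.Quotient G X) := Fintype.ofFinite _
  have h1 : Nat.card X = ∑ ω : MulAction.orbitRel.Quotient G X, Nat.card ω.orbit := by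
    rw [Nat.card_congr (MulAction.selfEquivSigmaOrbits' G X), Nat.card_sigma]
  have h2 : ∀ ω : MulAction.orbitRel.Quotient G X, ∃ n : ℕ,
      Nat.card ω.orbit = ordProj[2] (Nat.card G) * (2 * n + 1) := by
    intro ω
    obtain ⟨x, rfl⟩ := Quotient.exists_rep ω
    have h3 : Nat.card (MulAction.orbitRel.Quotient.orbit (⟦x⟧ : MulAction.orbitRel.Quotient G X))
        = Nat.card (MulAction.orbit G x) := by
      rfl
    have h4 : Nat.card (MulAction.orbit G x) * Nat.card (MulAction.stabilizer G x)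
        = Nat.card G := by
      rw [Nat.card_congr (MulAction.orbitEquivQuotientStabilizer G x)]
      exact (Subgroup.card_eq_card_quotient_mul_card_subgroup _).symm
    have h5 : Nat.card (MulAction.orbit G x) ≠ 0 := by
      intro h6
      rw [h6, zero_mul] at h4
      exact hG h4.symm
    have h6 : Nat.card (MulAction.stabilizer G x) ≠ 0 := Nat.card_pos.ne'
    have h7 : ordProj[2] (Nat.card G) = ordProj[2] (Nat.card (MulAction.orbit G x)) := by
      rw [← h4, Nat.ordProj_mul 2 h5 h6, Nat.factorization_eq_zero_of_not_dvd (h x), pow_zero,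
        mul_one]
    have h8 := Nat.not_dvd_ordCompl Nat.prime_two h5
    have h9 : ordCompl[2] (Nat.card (MulAction.orbit G x)) % 2 = 1 := by omega
    refine ⟨ordCompl[2] (Nat.card (MulAction.orbit G x)) / 2, ?_⟩
    rw [h3, h7]
    have h10 : 2 * (ordCompl[2] (Nat.card (MulAction.orbit G x)) / 2) + 1
        = ordCompl[2] (Nat.card (MulAction.orbit G x)) := by omega
    rw [h10]
    exact (Nat.ordProj_mul_ordCompl_eq_self _ 2).symm
  choose n hn using h2
  have h3 : Nat.card X = ordProj[2] (Nat.card G) *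
      (2 * (∑ ω, n ω) + Nat.card (MulAction.orbitRel.Quotient G X)) := by
    rw [h1, Finset.sum_congr rfl (fun ω _ => hn ω), ← Finset.mul_sum, Finset.sum_add_distrib,
      ← Finset.mul_sum, Finset.sum_const, Finset.card_univ, smul_eq_mul, mul_one,
      Nat.card_eq_fintype_card (α := MulAction.orbitRel.Quotient G X)]
  rw [h3, mul_comm 2, Nat.mul_dvd_mul_iff_left (Nat.ordProj_pos _ _)]
  omega

end

end FinOAux

open FinOAux

/-- conjugacy of pairs -/
def cjR {G : Type*} [Group G] (S : G × G → Prop) (y z : {y : G × G // S y}) : Prop :=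
  ∃ g : G, z.1.1 = g * y.1.1 * g⁻¹ ∧ z.1.2 = g * y.1.2 * g⁻¹

theorem card_cls {G : Type*} [Group G] [Finite G] (hG : NoP 2 (⊤ : Subgroup G))
    (S : G × G → Prop) (hS : ∀ g y, S y → S (cj2 g y))
    (hgen : ∀ y, S y → ∀ w : G, Preg 2 w → w ∈ Subgroup.closure ({y.1, y.2} : Set G)) :
    2 * ordProj[2] (Nat.card G) ∣ Nat.card {y : G × G // S y} ↔
      Even (Nat.card (Quot (cjR S))) := by
  have : Fact (Nat.Prime 2) := ⟨Nat.prime_two⟩
  letI : MulAction G {y : G × G // S y} :=
    { smul := fun g y => ⟨cj2 g y.1, hS g y.1 y.2⟩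
      one_smul := fun y => Subtype.ext (RqAAux.cj2_one y.1)
      mul_smul := fun g h y => Subtype.ext (RqAAux.cj2_mul g h y.1) }
  have hsm : ∀ (g : G) (y : {y : G × G // S y}), (g • y).1 = cj2 g y.1 := fun _ _ => rfl
  rw [card_orb2 (G := G) (X := {y : G × G // S y}) (fun y hy => ?_), even_iff_two_dvd]
  · have e : Nat.card (Quot (cjR S)) =
        Nat.card (MulAction.orbitRel.Quotient G {y : G × G // S y}) := by
      refine Nat.card_congr (Quot.congr (Equiv.refl _) fun a b => ?_)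
      change cjR S a b ↔ a ∈ MulAction.orbit G b
      constructor
      · rintro ⟨g, hg1, hg2⟩
        have h1 : g • a = b := Subtype.ext (Prod.ext hg1.symm hg2.symm)
        exact ⟨g⁻¹, by
          change g⁻¹ • b = a
          rw [← h1, inv_smul_smul]⟩
      · rintro ⟨g, hg⟩
        have h1 : g⁻¹ • a = b := by
          rw [← hg]
          exact inv_smul_smul g b
        refine ⟨g⁻¹, ?_, ?_⟩
        · rw [← h1]
          rfl
        · rw [← h1]
          rfl
    rw [e]
  · obtain ⟨g, hg⟩ := exists_prime_orderOf_dvd_card' 2 hy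
    have h1 : cj2 (g : G) y.1 = y.1 := congrArg Subtype.val g.2
    have h2 : Opr 2 (⊤ : Subgroup G) ≤ gn y.1 := by
      rw [ClsFAux.opr_le_iff]
      exact hgen y.1 y.2
    refine no_cent2 hG h2 h1 ?_
    rw [Subgroup.orderOf_coe, hg]

/-- the pairs of the type `(2, 4, 8 m)` -/
def S248 {G : Type*} [Group G] (c : G) (y : G × G) : Prop :=
  orderOf y.1 = 2 ∧ orderOf y.2 = 4 ∧
    (∃ u e : G, orderOf u = 8 ∧ IsConj c e ∧ Commute u e ∧ y.1 * y.2 = u * e) ∧
    ∀ w : G, Preg 2 w → w ∈ Subgroup.closure ({y.1, y.2} : Set G)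

theorem S248_cj {G : Type*} [Group G] (c : G) (g : G) (y : G × G) (h : S248 c y) :
    S248 c (cj2 g y) := by
  obtain ⟨h1, h2, ⟨u, e, h3, h4, h5, h6⟩, h7⟩ := h
  have ho : ∀ x : G, orderOf (g * x * g⁻¹) = orderOf x := fun x =>
    orderOf_injective (MulAut.conj g).toMonoidHom (MulAut.conj g).injective x
  refine ⟨(ho _).trans h1, (ho _).trans h2,
    ⟨g * u * g⁻¹, g * e * g⁻¹, (ho _).trans h3, h4.trans (isConj_iff.2 ⟨g, rfl⟩), ?_, ?_⟩, ?_⟩
  · have e1 : g * u * g⁻¹ * (g * e * g⁻¹) = g * (u * e) * g⁻¹ := by group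
    have e2 : g * e * g⁻¹ * (g * u * g⁻¹) = g * (e * u) * g⁻¹ := by group
    change g * u * g⁻¹ * (g * e * g⁻¹) = g * e * g⁻¹ * (g * u * g⁻¹)
    rw [e1, e2, h5.eq]
  · change g * y.1 * g⁻¹ * (g * y.2 * g⁻¹) = _
    have e1 : g * y.1 * g⁻¹ * (g * y.2 * g⁻¹) = g * (y.1 * y.2) * g⁻¹ := by group
    rw [e1, h6]
    group
  · intro w hw
    have h8 := h7 (g⁻¹ * w * g) (by
      have h9 := (preg_cj (p := 2) g⁻¹ w).2 hw
      rwa [inv_inv] at h9)
    have h10 : Subgroup.closure ({(cj2 g y).1, (cj2 g y).2} : Set G) =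
        (Subgroup.closure ({y.1, y.2} : Set G)).map (MulAut.conj g).toMonoidHom := by
      rw [MonoidHom.map_closure, Set.image_insert_eq, Set.image_singleton]
      rfl
    rw [h10]
    refine ⟨_, h8, ?_⟩
    change g * (g⁻¹ * w * g) * g⁻¹ = w
    group

/-- **The blockwise weight conjecture for `p = 2`, exact orders.** -/
theorem baw_iff_248' {k : Type v} [Field k] [IsAlgClosed k] [CharP k 2] :
    (∀ (G : Type u) [Group G] [Finite G] (b : MonoidAlgebra k G), IsBlock (⊤ : Subgroup G) b →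
      gap 2 (⊤ : Subgroup G) ⊤ b = 0) ↔
    (∀ (G : Type u) [Group G] [Finite G], NoP 2 (⊤ : Subgroup G) → ∀ c : G, Preg 2 c →
      2 * ordProj[2] (Nat.card G) ∣ Nat.card {y : G × G // S248 c y}) := by
  rw [baw_iff_248]
  refine forall_congr' fun G => forall_congr' fun i1 => forall_congr' fun i2 =>
    forall_congr' fun hG => forall_congr' fun c => forall_congr' fun hc => ?_
  have e : Nat.card {y : G × G // y.1 ^ 2 = 1 ∧ y.2 ^ 4 = 1 ∧
      (∃ u e : G, orderOf u = 8 ∧ IsConj c e ∧ Commute u e ∧ y.1 * y.2 = u * e) ∧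
      ∀ w : G, Preg 2 w → w ∈ Subgroup.closure ({y.1, y.2} : Set G)} =
      Nat.card {y : G × G // S248 c y} := by
    refine Nat.card_congr (Equiv.subtypeEquivRight fun y => ?_)
    constructor
    · rintro ⟨h1, h2, h3, h4⟩
      have h5 := exact_ord hG hc h1 h2 h3 h4
      exact ⟨h5.1, h5.2, h3, h4⟩
    · rintro ⟨h1, h2, h3, h4⟩
      refine ⟨?_, ?_, h3, h4⟩
      · rw [← h1]
        exact pow_orderOf_eq_one _
      · rw [← h2]
        exact pow_orderOf_eq_one _
  rw [e]

/-- **The blockwise weight conjecture for `p = 2` and the parity of the number of classes of pairs.** -/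
theorem baw_iff_even {k : Type v} [Field k] [IsAlgClosed k] [CharP k 2] :
    (∀ (G : Type u) [Group G] [Finite G] (b : MonoidAlgebra k G), IsBlock (⊤ : Subgroup G) b →
      gap 2 (⊤ : Subgroup G) ⊤ b = 0) ↔
    (∀ (G : Type u) [Group G] [Finite G], NoP 2 (⊤ : Subgroup G) → ∀ c : G, Preg 2 c →
      Even (Nat.card (Quot (cjR (S248 c))))) := by
  rw [baw_iff_248']
  refine forall_congr' fun G => forall_congr' fun i1 => forall_congr' fun i2 =>
    forall_congr' fun hG => forall_congr' fun c => forall_congr' fun hc => ?_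
  exact card_cls hG (S248 c) (S248_cj c) (fun y hy => hy.2.2.2)

/-- `p = 3`, exact orders -/
theorem baw_iff_339' {k : Type v} [Field k] [IsAlgClosed k] [CharP k 3] :
    (∀ (G : Type u) [Group G] [Finite G] (b : MonoidAlgebra k G), IsBlock (⊤ : Subgroup G) b →
      gap 3 (⊤ : Subgroup G) ⊤ b = 0) ↔
    (∀ (G : Type u) [Group G] [Finite G], NoP 3 (⊤ : Subgroup G) → ∀ c : G, Preg 3 c →
      3 * ordProj[3] (Nat.card G) ∣ Nat.card {y : G × G // orderOf y.1 = 3 ∧ orderOf y.2 = 3 ∧
        (∃ u e : G, orderOf u = 9 ∧ IsConj c e ∧ Commute u e ∧ y.1 * y.2 = u * e) ∧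
        ∀ w : G, Preg 3 w → w ∈ Subgroup.closure ({y.1, y.2} : Set G)}) := by
  have : Fact (Nat.Prime 3) := ⟨Nat.prime_three⟩
  rw [baw_iff_339]
  refine forall_congr' fun G => forall_congr' fun i1 => forall_congr' fun i2 =>
    forall_congr' fun hG => forall_congr' fun c => forall_congr' fun hc => ?_
  have e : Nat.card {y : G × G // y.1 ^ 3 = 1 ∧ y.2 ^ 3 = 1 ∧
      (∃ u e : G, orderOf u = 9 ∧ IsConj c e ∧ Commute u e ∧ y.1 * y.2 = u * e) ∧
      ∀ w : G, Preg 3 w → w ∈ Subgroup.closure ({y.1, y.2} : Set G)} =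
      Nat.card {y : G × G // orderOf y.1 = 3 ∧ orderOf y.2 = 3 ∧
      (∃ u e : G, orderOf u = 9 ∧ IsConj c e ∧ Commute u e ∧ y.1 * y.2 = u * e) ∧
      ∀ w : G, Preg 3 w → w ∈ Subgroup.closure ({y.1, y.2} : Set G)} := by
    refine Nat.card_congr (Equiv.subtypeEquivRight fun y => ?_)
    constructor
    · rintro ⟨h1, h2, h3, h4⟩
      obtain ⟨u, e, hu, hce, hcom, hxy⟩ := h3
      have he : Preg 3 e := ClsBAux.preg_isConj hce.symm hc
      have h9 : 9 ∣ orderOf (y.1 * y.2) := by
        have h1 : (orderOf u).Coprime (orderOf e) := by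
          rw [hu]
          have h2 : Nat.Coprime 3 (orderOf e) :=
            (Nat.Prime.coprime_iff_not_dvd Nat.prime_three).2 he
          exact Nat.Coprime.pow_left 2 h2
        rw [hxy, hcom.orderOf_mul_eq_mul_orderOf_of_coprime h1, hu]
        exact Dvd.intro _ rfl
      refine ⟨orderOf_eq_prime h1 ?_, orderOf_eq_prime h2 ?_, ⟨u, e, hu, hce, hcom, hxy⟩, h4⟩
      · intro h5
        rw [h5, one_mul] at h9
        have h6 := h9.trans (orderOf_dvd_of_pow_eq_one h2)
        omega
      · intro h5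
        rw [h5, mul_one] at h9
        have h6 := h9.trans (orderOf_dvd_of_pow_eq_one h1)
        omega
    · rintro ⟨h1, h2, h3, h4⟩
      refine ⟨?_, ?_, h3, h4⟩
      · rw [← h1]
        exact pow_orderOf_eq_one _
      · rw [← h2]
        exact pow_orderOf_eq_one _
  rw [e]

end Pool.Agent.Lib.P0c8ca5.By
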