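import Mathlib
import Pool.Agent.Lib.P0c8ca5Bx.ClsC
import Pool.Agent.Lib.P0c8ca5By.FinO

/-!
# The blockwise weight conjecture for p = 2 and regular maps of type `{4, 8 m}`

* `baw_iff_map8`: the blockwise weight conjecture for `p = 2` holds if and only if for all finite groups `G` with
  `O_2(G) = 1` and all classes `C` of elements of odd order `2 |G|_2` divides the number of the triples `(a, b, c)` with
  `a² = b² = c² = (a c)² = (a b)⁴ = 1`, `b c = u d`, `u` of order 8 commuting with `d ∈ C`, that generate a group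
  containing `O^2(G)`.
* `baw_iff_map_even`: the number of the classes of these triples is even.
-/

namespace Pool.Agent.Lib.P0c8ca5.By

open MonoidAlgebra Bx TFinAux

universe u v

namespace FinMAux

open ClsCAux

theorem fact2 : Fact (Nat.Prime 2) := ⟨Nat.prime_two⟩

attribute [local instance] fact2

theorem sfT_inv {A : Type*} [Group A] {m : A → ℤ} (hr : ∀ x, m x⁻¹ = m x) (x : A) :
    sfT 2 m x⁻¹ = sfT 2 m x := by
  classical
  have h1 : pr 2 x⁻¹ = (pr 2 x)⁻¹ := ClsAAux.pr_inv x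
  have h2 : Commute x (pr 2 x) := ClsAAux.comm_pr x
  have h3 : x⁻¹ * (pr 2 x⁻¹)⁻¹ = (x * (pr 2 x)⁻¹)⁻¹ := by
    rw [h1, mul_inv_rev, inv_inv]
    exact h2.inv_left.eq
  unfold sfT
  rw [h1, hr]
  rw [h1] at h3
  rw [h3, inv_pow, inv_eq_one]
  refine if_congr (and_congr Iff.rfl (not_congr ?_)) rfl rfl
  unfold Preg
  rw [orderOf_inv]

/-- one group -/
theorem bQT_inv {A : Type*} [Group A] [Finite A] (hO : NoP 2 (⊤ : Subgroup A)) {m : A → ℤ}
    (hm : CF m) (hr : ∀ x, m x⁻¹ = m x) :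
    (2 : ℤ) * (ordProj[2] (Nat.card A) : ℕ) ∣ bQ 2 (⊤ : Subgroup A) (sfT 2 m) -
      tM {z : A | z ^ 4 = 1} (fun x => sfT 2 m ((x ^ 4)⁻¹)) := by
  have h1 := bQ_congr (p := 2) (r := 2) (s := 2) (E := Eq4) (T := Tq4) (A := A)
    (by norm_num; exact Eq4_isRq) (by norm_num; exact Tq4_isPq) hO (CF_sfT (p := 2) hm)
  norm_num at h1
  have hMr : ∀ x : A, sfT 2 m (((x⁻¹) ^ 4)⁻¹) = sfT 2 m ((x ^ 4)⁻¹) := by
    intro x
    rw [inv_pow, sfT_inv hr]
  have hMc : CF (fun x : A => sfT 2 m ((x ^ 4)⁻¹)) := by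
    intro g x
    have e : ((g * x * g⁻¹) ^ 4)⁻¹ = g * (x ^ 4)⁻¹ * g⁻¹ := by
      rw [conj_pow]
      group
    change sfT 2 m (((g * x * g⁻¹) ^ 4)⁻¹) = sfT 2 m ((x ^ 4)⁻¹)
    rw [e, CF_sfT hm]
  rw [wX_eq_pM hMr] at h1
  have h2 := pM_congr_tM hO (P := {z : A | z ^ 4 = 1}) (fun g x => by
    change (g * x * g⁻¹) ^ 4 = 1 ↔ x ^ 4 = 1
    rw [conj_pow, conj_eq_one_iff]) (fun x => by
    change (x⁻¹) ^ 4 = 1 ↔ x ^ 4 = 1
    rw [inv_pow, inv_eq_one]) hMc hMr
  push_cast at h2 ⊢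
  have h3 := dvd_add h1 h2
  rwa [sub_add_sub_cancel] at h3

variable {G : Type*} [Group G] [Finite G]

/-- the triples counted -/
def Gd8 {G : Type*} [Group G] (y : G × G × G) : Prop :=
  y.1 ^ 2 = 1 ∧ y.2.1 ^ 2 = 1 ∧ y.2.2 ^ 2 = 1 ∧ y.1 * y.2.2 = y.2.2 * y.1 ∧
    (y.1 * y.2.1) ^ 4 = 1 ∧
    (∀ w : G, Preg 2 w → w ∈ Subgroup.closure ({y.1, y.2.1, y.2.2} : Set G)) ∧
    orderOf (xx y * (pr 2 (xx y))⁻¹) = 8

open Classical in
theorem tM_eq8 [Fintype G] (m : G → ℤ) :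
    tM {z : G | z ^ 4 = 1} (fun x => sfT 2 m ((x ^ 4)⁻¹))
      = ∑ y : G × G × G, if Gd8 y then m (((pr 2 (xx y)) ^ 4)⁻¹) else 0 := by
  unfold tM
  rw [finsum_eq_sum_of_fintype]
  refine Finset.sum_congr rfl (fun y _ => ?_)
  have hs := FinRAux.sfT_pow (p := 2) 2 m (xx y)
  rw [show (2 : ℕ) ^ 2 = 4 from rfl, show (2 : ℕ) ^ (2 + 1) = 8 from rfl] at hs
  by_cases h1 : y.1 ^ 2 = 1 ∧ y.2.1 ^ 2 = 1 ∧ y.2.2 ^ 2 = 1 ∧
    y.1 * y.2.2 = y.2.2 * y.1 ∧ y.1 * y.2.1 ∈ {z : G | z ^ 4 = 1} ∧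
    Opr 2 (⊤ : Subgroup G) ≤ Subgroup.closure {y.1, y.2.1, y.2.2}
  · rw [if_pos h1]
    obtain ⟨a1, a2, a3, a4, a5, a6⟩ := h1
    change sfT 2 m ((xx y ^ 4)⁻¹) = _
    by_cases h3 : orderOf (xx y * (pr 2 (xx y))⁻¹) = 8
    · rw [hs.2 h3, if_pos ⟨a1, a2, a3, a4, a5, (ClsFAux.opr_le_iff _).1 a6, h3⟩]
    · rw [hs.1 h3, if_neg (fun h => h3 h.2.2.2.2.2.2)]
  · rw [if_neg h1, if_neg]
    rintro ⟨a1, a2, a3, a4, a5, a6, _⟩
    exact h1 ⟨a1, a2, a3, a4, a5, (ClsFAux.opr_le_iff _).2 a6⟩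

/-- the set of the elements `u d` -/
def R8 {G : Type*} [Group G] (c : G) (x : G) : Prop :=
  ∃ u e : G, orderOf u = 8 ∧ IsConj c e ∧ Commute u e ∧ x = u * e

theorem R8_iff {c : G} (hc : Preg 2 c) (x : G) :
    R8 c x ↔ IsConj c (pr 2 x) ∧ orderOf (x * (pr 2 x)⁻¹) = 8 :=
  FinRAux.ud_iff (p := 2) (r := 2) hc x

theorem r8_conj {c x y : G} (hc : Preg 2 c) (h : IsConj x y) : R8 c x ↔ R8 c y := by
  have key : ∀ x y : G, IsConj x y → R8 c x → R8 c y := by
    intro x y h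
    obtain ⟨g, rfl⟩ := isConj_iff.1 h
    rintro ⟨u, e, h1, h2, h3, rfl⟩
    refine ⟨g * u * g⁻¹, g * e * g⁻¹, ?_, h2.trans (isConj_iff.2 ⟨g, rfl⟩), ?_, by group⟩
    · rw [← h1]
      exact orderOf_injective (MulAut.conj g).toMonoidHom (MulAut.conj g).injective u
    · have e1 : g * u * g⁻¹ * (g * e * g⁻¹) = g * (u * e) * g⁻¹ := by group
      have e2 : g * e * g⁻¹ * (g * u * g⁻¹) = g * (e * u) * g⁻¹ := by group
      change g * u * g⁻¹ * (g * e * g⁻¹) = g * e * g⁻¹ * (g * u * g⁻¹)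
      rw [e1, e2, h3.eq]
  exact ⟨key x y h, key y x h.symm⟩

/-- the triples of the theorem -/
def S8 {G : Type*} [Group G] (c : G) (y : G × G × G) : Prop :=
  y.1 ^ 2 = 1 ∧ y.2.1 ^ 2 = 1 ∧ y.2.2 ^ 2 = 1 ∧ (y.1 * y.2.2) ^ 2 = 1 ∧ (y.1 * y.2.1) ^ 4 = 1 ∧
    (∃ u e : G, orderOf u = 8 ∧ IsConj c e ∧ Commute u e ∧ y.2.1 * y.2.2 = u * e) ∧
    ∀ w : G, Preg 2 w → w ∈ Subgroup.closure ({y.1, y.2.1, y.2.2} : Set G)

theorem card_eq8 {c : G} (hc : Preg 2 c) :
    Nat.card {y : G × G × G // S8 c y} =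
    Nat.card {y : G × G × G // Gd8 y ∧ IsConj c (pr 2 (xx y))} := by
  symm
  refine Nat.card_congr (th.subtypeEquiv ?_)
  rintro ⟨r, s, t⟩
  unfold Gd8 S8 xx th
  simp only [Equiv.coe_fn_mk]
  rw [closure_th]
  constructor
  · rintro ⟨⟨hr, hs, ht, hrt, hrs, hw, hu⟩, hcc⟩
    have hrt2 : r * (r * t) = t := by
      rw [← mul_assoc, ← pow_two, hr, one_mul]
    have e1 : (r * t) ^ 2 = 1 := by
      have hcm : Commute r t := hrt
      rw [hcm.mul_pow, hr, ht, one_mul]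
    have e2 : IsConj (r * s * t) (s * (r * t)) := by
      refine isConj_iff.2 ⟨r, ?_⟩
      rw [inv_of_sq hr]
      calc r * (r * s * t) * r = (r * r) * s * (t * r) := by group
        _ = s * (r * t) := by rw [← pow_two, hr, one_mul, hrt]
    refine ⟨hr, hs, e1, ?_, hrs, ?_, hw⟩
    · rw [hrt2, ht]
    · change R8 c (s * (r * t))
      rw [← r8_conj hc e2, R8_iff hc]
      exact ⟨hcc, hu⟩
  · rintro ⟨hr, hs, hrt1, ht1, hrs, hRC, hw⟩
    have hrt2 : r * (r * t) = t := by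
      rw [← mul_assoc, ← pow_two, hr, one_mul]
    have ht : t ^ 2 = 1 := by rwa [hrt2] at ht1
    have hrt : r * t = t * r := by
      have := inv_of_sq hrt1
      rw [mul_inv_rev, inv_of_sq hr, inv_of_sq ht] at this
      exact this.symm
    have e2 : IsConj (r * s * t) (s * (r * t)) := by
      refine isConj_iff.2 ⟨r, ?_⟩
      rw [inv_of_sq hr]
      calc r * (r * s * t) * r = (r * r) * s * (t * r) := by group
        _ = s * (r * t) := by rw [← pow_two, hr, one_mul, hrt]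
    have hRC' : R8 c (s * (r * t)) := hRC
    rw [← r8_conj hc e2, R8_iff hc] at hRC'
    exact ⟨⟨hr, hs, ht, hrt, hrs, hw, hRC'.2⟩, hRC'.1⟩

open Classical in
/-- the weighted count -/
noncomputable def Ns8 {G : Type*} [Group G] [Fintype G] (c : G) : ℤ :=
  ∑ y : G × G × G, if Gd8 y ∧ IsConj c (pr 2 (xx y)) then 1 else 0

omit [Finite G] in
theorem card_Ns8 [Fintype G] (c : G) :
    ((Nat.card {y : G × G × G // Gd8 y ∧ IsConj c (pr 2 (xx y))} : ℕ) : ℤ) = Ns8 c := by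
  classical
  unfold Ns8
  rw [Nat.card_eq_fintype_card, Fintype.card_subtype, Finset.card_filter]
  push_cast
  rfl

open Classical in
theorem tMT_cls (d : ℤ) :
    (∀ m : G → ℤ, IsWt 2 ⊤ m → (∀ x, m x⁻¹ = m x) → d ∣ tM {z : G | z ^ 4 = 1}
      (fun x => sfT 2 m ((x ^ 4)⁻¹))) ↔
    ∀ c : G, Preg 2 c → d ∣ (Nat.card {y : G × G × G // S8 c y} : ℤ) := by
  have : Fintype G := Fintype.ofFinite G
  constructor
  · intro h c hc
    rw [card_eq8 hc, card_Ns8]
    by_cases hex : ∃ y : G × G × G, Gd8 y ∧ IsConj c (pr 2 (xx y))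
    · obtain ⟨y0, hy0, hcy⟩ := hex
      have hx : IsConj (xx y0) (xx y0)⁻¹ := real_prod hy0.1 hy0.2.1 hy0.2.2.1 hy0.2.2.2.1
      have hcc : IsConj c c⁻¹ := by
        have h1 : IsConj (pr 2 (xx y0)) (pr 2 (xx y0))⁻¹ := by
          have h2 := ClsCAux.isConj_pow hx (uexp 2 G)
          rw [inv_pow] at h2
          exact h2
        exact (hcy.trans h1).trans (isConj_inv hcy).symm
      have hc4 : Preg 2 ((c ^ 4)⁻¹) := by
        have h1 : orderOf ((c ^ 4)⁻¹) ∣ orderOf c := by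
          rw [orderOf_inv]
          exact orderOf_pow_dvd 4
        exact fun h2 => hc (h2.trans h1)
      have hreal : IsConj (c ^ 4) ((c ^ 4)⁻¹) := by
        have h1 := ClsCAux.isConj_pow hcc 4
        rwa [inv_pow] at h1
      have hm : ∀ z : G, (if IsConj ((c ^ 4)⁻¹) z⁻¹ then (1 : ℤ) else 0)
          = if IsConj ((c ^ 4)⁻¹) z then (1 : ℤ) else 0 := by
        intro z
        refine if_congr ?_ rfl rfl
        constructor
        · intro h1
          have h2 := isConj_inv h1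
          rw [inv_inv, inv_inv] at h2
          exact hreal.symm.trans h2
        · intro h1
          have h2 := isConj_inv h1
          rw [inv_inv] at h2
          exact hreal.symm.trans h2
      have h1 := h (fun z => if IsConj ((c ^ 4)⁻¹) z then 1 else 0)
        (MainPAux.isWt_class hc4 (fun z hz => if_pos hz) (fun z hz => if_neg hz)) hm
      rw [tM_eq8] at h1
      refine h1.trans (dvd_of_eq ?_)
      unfold Ns8
      refine Finset.sum_congr rfl (fun y _ => ?_)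
      by_cases hy : Gd8 y
      · rw [if_pos hy]
        refine if_congr ?_ rfl rfl
        rw [isConj_four hc (preg_pr _)]
        exact ⟨fun h => ⟨hy, h⟩, fun h => h.2⟩
      · rw [if_neg hy, if_neg (fun h => hy h.1)]
    · have h0 : Ns8 c = 0 := by
        unfold Ns8
        refine Finset.sum_eq_zero (fun y _ => if_neg (fun h => hex ⟨y, h⟩))
      rw [h0]
      exact dvd_zero d
  · intro h m hm _
    rw [tM_eq8]
    have hf : ∀ x y : G, IsConj x y → m ((x ^ 4)⁻¹) = m ((y ^ 4)⁻¹) := by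
      intro x y hxy
      obtain ⟨g, hg⟩ := isConj_iff.1 (isConj_inv (ClsCAux.isConj_pow hxy 4))
      rw [← hg, hm.conj g (Subgroup.mem_top g)]
    have key : (∑ y : G × G × G, if Gd8 y then m (((pr 2 (xx y)) ^ 4)⁻¹) else 0)
        = ∑ X : ConjClasses G, m ((Quotient.out X ^ 4)⁻¹) * Ns8 (Quotient.out X) := by
      unfold Ns8
      simp only [Finset.mul_sum]
      rw [Finset.sum_comm]
      refine Finset.sum_congr rfl (fun y _ => ?_)
      by_cases hg : Gd8 y
      · rw [if_pos hg]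
        rw [Finset.sum_eq_single (ConjClasses.mk (pr 2 (xx y)))]
        · have h1 : IsConj (Quotient.out (ConjClasses.mk (pr 2 (xx y)))) (pr 2 (xx y)) :=
            ConjClasses.mk_eq_mk_iff_isConj.1 (Quotient.out_eq _)
          rw [if_pos ⟨hg, h1⟩, mul_one]
          exact (hf _ _ h1).symm
        · intro X _ hX
          rw [if_neg, mul_zero]
          rintro ⟨_, h1⟩
          apply hX
          have h2 := ConjClasses.mk_eq_mk_iff_isConj.2 h1
          rw [← h2]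
          exact (Quotient.out_eq X).symm
        · intro h1
          exact absurd (Finset.mem_univ _) h1
      · rw [if_neg hg]
        symm
        refine Finset.sum_eq_zero (fun X _ => ?_)
        rw [if_neg (fun h => hg h.1), mul_zero]
    rw [key]
    refine Finset.dvd_sum (fun X _ => ?_)
    by_cases hX : Preg 2 (Quotient.out X)
    · have h1 := h _ hX
      rw [card_eq8 hX, card_Ns8] at h1
      exact Dvd.dvd.mul_left h1 _
    · have h0 : Ns8 (Quotient.out X) = 0 := by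
        unfold Ns8
        refine Finset.sum_eq_zero (fun y _ => if_neg (fun h => hX ?_))
        exact preg_of_isConj h.2.symm (preg_pr _)
      rw [h0, mul_zero]
      exact dvd_zero d

end FinMAux

open FinMAux

/-- **The blockwise weight conjecture at `p = 2` and regular maps of type `{4, 8 m}`.** -/
theorem baw_iff_map8 {k : Type v} [Field k] [IsAlgClosed k] [CharP k 2] :
    (∀ (G : Type u) [Group G] [Finite G] (b : MonoidAlgebra k G), IsBlock (⊤ : Subgroup G) b →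
      gap 2 (⊤ : Subgroup G) ⊤ b = 0) ↔
    (∀ (G : Type u) [Group G] [Finite G], NoP 2 (⊤ : Subgroup G) → ∀ c : G, Preg 2 c →
      2 * ordProj[2] (Nat.card G) ∣ Nat.card {y : G × G × G // S8 c y}) := by
  classical
  have : Fact (Nat.Prime 2) := ⟨Nat.prime_two⟩
  constructor
  · intro h G _ _ hG c hc
    have h1 := (bawp_iff_bQ (p := 2) (k := k)).1 (fun G _ _ b hb => ⟨0, by
      rw [h G b hb]
      simp⟩)
    have h2 := (tMT_cls (G := G) ((2 : ℤ) * (ordProj[2] (Nat.card G) : ℕ))).1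
      (fun m hm hr => by
        have h3 := bQT_inv hG (CF_of_wt hm) hr
        have h4 := h1 G m hm hG
        have h5 := bQ_T hG hm
        push_cast at h3 h4 h5 ⊢
        exact (dvd_sub_right ((dvd_sub_right h4).1 h5)).1 h3) c hc
    exact_mod_cast h2
  · intro h
    refine amp (p := 2) (fun G _ _ b hb => ?_)
    have key := Bw.all_blocks (k := k) (fun G _ _ e he hreal => ?_) G b hb
    · exact_mod_cast key
    refine real_blocks_bQ (fun X _ _ hO m hm hr => ?_) G he hreal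
    have h1 := bQT_inv hO (CF_of_wt hm) hr
    have h2 := (tMT_cls (G := X) ((2 : ℤ) * (ordProj[2] (Nat.card X) : ℕ))).2
      (fun c hc => by exact_mod_cast h X hO c hc) m hm hr
    have h5 := bQ_T hO hm
    push_cast at h1 h2 h5 ⊢
    have h4 := dvd_add h1 h2
    rw [sub_add_cancel] at h4
    have h6 := dvd_add h5 h4
    rwa [sub_add_cancel] at h6

end Pool.Agent.Lib.P0c8ca5.By
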