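import Mathlib
import Pool.Agent.Lib.P0c8ca5By.FinM

/-!
# The blockwise weight conjecture for p = 2 and regular maps of type `{4, 8 m}`, exact orders and classes

* `baw_iff_maps_even`: the blockwise weight conjecture for `p = 2` holds if and only if for all finite groups `G` with
  `O_2(G) = 1` and all classes `C` of elements of odd order the number of the classes under `G` of the regular maps
  `(r0, r1, r2)` of type `{4, 8 m}` with `r1 r2 = u d`, `u` of order 8 commuting with `d ∈ C`, whose group contains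
  `O^2(G)`, is even.
-/

namespace Pool.Agent.Lib.P0c8ca5.By

open MonoidAlgebra Bx TFinAux

universe u v

/-- regular maps of type `{4, 8 m}` in a group -/
def M48 {G : Type*} [Group G] (c : G) (y : G × G × G) : Prop :=
  orderOf y.1 = 2 ∧ orderOf y.2.1 = 2 ∧ orderOf y.2.2 = 2 ∧ orderOf (y.1 * y.2.2) = 2 ∧
    orderOf (y.1 * y.2.1) = 4 ∧
    (∃ u e : G, orderOf u = 8 ∧ IsConj c e ∧ Commute u e ∧ y.2.1 * y.2.2 = u * e) ∧
    ∀ w : G, Preg 2 w → w ∈ Subgroup.closure ({y.1, y.2.1, y.2.2} : Set G)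

/-- conjugacy of triples -/
def cjR3 {G : Type*} [Group G] (S : G × G × G → Prop) (y z : {y : G × G × G // S y}) : Prop :=
  ∃ g : G, z.1.1 = g * y.1.1 * g⁻¹ ∧ z.1.2.1 = g * y.1.2.1 * g⁻¹ ∧ z.1.2.2 = g * y.1.2.2 * g⁻¹

namespace FinNAux

open FinMAux FinOAux

theorem dih_contra {G : Type*} [Group G] [Finite G] (hG : NoP 2 (⊤ : Subgroup G)) {x y : G}
    (hx : x ^ 2 = 1) (hy : y ^ 2 = 1) {u e : G} (hu : orderOf u = 8) (hcom : Commute u e)
    (hxy : x * y = u * e)
    (hgen : ∀ w : G, Preg 2 w → w ∈ Subgroup.closure ({x, y} : Set G)) : False := by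
  have : Fact (Nat.Prime 2) := ⟨Nat.prime_two⟩
  have hx1 : x⁻¹ = x := inv_eq_of_mul_eq_one_left (by rw [← pow_two, hx])
  have hy1 : y⁻¹ = y := inv_eq_of_mul_eq_one_left (by rw [← pow_two, hy])
  obtain ⟨z, hz⟩ : ∃ z, z = x * y := ⟨_, rfl⟩
  have hxz : x * z * x⁻¹ = z⁻¹ := by
    rw [hz, mul_inv_rev, hy1, hx1]
    calc x * (x * y) * x = (x * x) * y * x := by group
      _ = y * x := by rw [← pow_two, hx, one_mul]
  have hle : Subgroup.closure ({x, y} : Set G) ≤ dih x z hx hxz := by
    rw [Subgroup.closure_le]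
    rintro g (rfl | rfl)
    · exact ⟨0, Or.inr (by rw [zpow_zero, mul_one])⟩
    · refine ⟨1, Or.inr ?_⟩
      rw [zpow_one, hz, ← mul_assoc, ← pow_two, hx, one_mul]
  have hO : Opr 2 (⊤ : Subgroup G) ≤ gen (z, z, z) := by
    rw [ClsFAux.opr_le_iff]
    intro w hw
    obtain ⟨i, rfl⟩ := dih_odd hx hxz (hle (hgen w hw)) hw
    have hzz : z ∈ gen (z, z, z) := Subgroup.subset_closure (Set.mem_insert z _)
    exact Subgroup.zpow_mem _ hzz i
  have hzu : Commute u z := by
    rw [hz, hxy]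
    exact (Commute.refl u).mul_right hcom
  have h3 : cj3 u (z, z, z) = (z, z, z) := by
    have h4 : u * z * u⁻¹ = z := by rw [hzu.eq, mul_inv_cancel_right]
    unfold cj3
    rw [h4]
  have h5 := RotAux.no_p_cent (p := 2) hG hO h3
  rw [hu] at h5
  exact h5 (by norm_num)

theorem sq_of_order {G : Type*} [Group G] {x : G} {n : ℕ} (h : orderOf x = n) : x ^ n = 1 := by
  rw [← h]
  exact pow_orderOf_eq_one x

/-- exact orders -/
theorem exact3 {G : Type*} [Group G] [Finite G] (hG : NoP 2 (⊤ : Subgroup G)) {c : G}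
    (hc : Preg 2 c) (y : G × G × G) : S8 c y ↔ M48 c y := by
  have : Fact (Nat.Prime 2) := ⟨Nat.prime_two⟩
  obtain ⟨r, s, t⟩ := y
  unfold S8 M48
  constructor
  · rintro ⟨hr, hs, ht, hrt, hrs, hud, hgen⟩
    change r ^ 2 = 1 at hr
    change s ^ 2 = 1 at hs
    change t ^ 2 = 1 at ht
    change (r * t) ^ 2 = 1 at hrt
    change (r * s) ^ 4 = 1 at hrs
    change ∀ w : G, Preg 2 w → w ∈ Subgroup.closure ({r, s, t} : Set G) at hgen
    obtain ⟨u, e, hu, hce, hcom, hst⟩ := hud
    change s * t = u * e at hst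
    have he : Preg 2 e := ClsBAux.preg_isConj hce.symm hc
    have h8 : 8 ∣ orderOf (s * t) := by
      rw [hst]
      exact order_ud hu he hcom
    have hr1 : r⁻¹ = r := inv_eq_of_mul_eq_one_left (by rw [← pow_two, hr])
    have hs1 : s⁻¹ = s := inv_eq_of_mul_eq_one_left (by rw [← pow_two, hs])
    have ht1 : t⁻¹ = t := inv_eq_of_mul_eq_one_left (by rw [← pow_two, ht])
    have hrne : r ≠ 1 := by
      intro h1
      refine dih_contra hG hs ht hu hcom hst (fun w hw => ?_)
      have h2 := hgen w hw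
      rw [h1, Subgroup.closure_insert_one] at h2
      exact h2
    have hsne : s ≠ 1 := by
      intro h1
      rw [h1, one_mul] at h8
      have h2 := h8.trans (orderOf_dvd_of_pow_eq_one ht)
      omega
    have htne : t ≠ 1 := by
      intro h1
      rw [h1, mul_one] at h8
      have h2 := h8.trans (orderOf_dvd_of_pow_eq_one hs)
      omega
    have hrtne : r * t ≠ 1 := by
      intro h1
      have h2 : r = t := by
        rw [mul_eq_one_iff_eq_inv.1 h1, ht1]
      have h3 : (s * t) ^ 4 = 1 := by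
        have h4 : s * t = (r * s)⁻¹ := by rw [mul_inv_rev, hs1, hr1, h2]
        rw [h4, inv_pow, hrs, inv_one]
      have h5 := h8.trans (orderOf_dvd_of_pow_eq_one h3)
      omega
    have hrs2 : (r * s) ^ 2 ^ 1 ≠ 1 := by
      intro h1
      rw [pow_one] at h1
      have h2 : r * s * r⁻¹ = s := by
        have h3 : (r * s)⁻¹ = r * s := inv_eq_of_mul_eq_one_left (by rw [← pow_two, h1])
        rw [mul_inv_rev, hs1, hr1] at h3
        rw [hr1, ← h3, mul_assoc, ← pow_two, hr, mul_one]
      have h4 : r * t * r⁻¹ = t := by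
        have h3 : (r * t)⁻¹ = r * t := inv_eq_of_mul_eq_one_left (by rw [← pow_two, hrt])
        rw [mul_inv_rev, ht1, hr1] at h3
        rw [hr1, ← h3, mul_assoc, ← pow_two, hr, mul_one]
      have h5 : cj3 r (r, s, t) = (r, s, t) := by
        unfold cj3
        rw [h2, h4, mul_inv_cancel_right]
      have h7 : Opr 2 (⊤ : Subgroup G) ≤ gen (r, s, t) := by
        rw [ClsFAux.opr_le_iff]
        exact hgen
      have h6 := RotAux.no_p_cent (p := 2) hG h7 h5
      rw [orderOf_eq_prime hr hrne] at h6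
      exact h6 dvd_rfl
    refine ⟨orderOf_eq_prime hr hrne, orderOf_eq_prime hs hsne, orderOf_eq_prime ht htne,
      orderOf_eq_prime hrt hrtne, ?_, ⟨u, e, hu, hce, hcom, hst⟩, hgen⟩
    have h3 := orderOf_eq_prime_pow (p := 2) (n := 1) hrs2 (by simpa using hrs)
    simpa using h3
  · rintro ⟨h1, h2, h3, h4, h5, h6, h7⟩
    exact ⟨sq_of_order h1, sq_of_order h2, sq_of_order h3, sq_of_order h4, sq_of_order h5, h6, h7⟩

theorem cj3_one' {G : Type*} [Group G] (t : G × G × G) : cj3 1 t = t := by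
  simp [cj3]

theorem cj3_mul' {G : Type*} [Group G] (g h : G) (t : G × G × G) :
    cj3 (g * h) t = cj3 g (cj3 h t) := by
  simp [cj3, mul_assoc]

theorem card_cls3 {G : Type*} [Group G] [Finite G] (hG : NoP 2 (⊤ : Subgroup G))
    (S : G × G × G → Prop) (hS : ∀ g y, S y → S (cj3 g y))
    (hgen : ∀ y, S y → ∀ w : G, Preg 2 w →
      w ∈ Subgroup.closure ({y.1, y.2.1, y.2.2} : Set G)) :
    2 * ordProj[2] (Nat.card G) ∣ Nat.card {y : G × G × G // S y} ↔
      Even (Nat.card (Quot (cjR3 S))) := by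
  have : Fact (Nat.Prime 2) := ⟨Nat.prime_two⟩
  let _ : MulAction G {y : G × G × G // S y} :=
    { smul := fun g y => ⟨cj3 g y.1, hS g y.1 y.2⟩
      one_smul := fun y => Subtype.ext (cj3_one' y.1)
      mul_smul := fun g h y => Subtype.ext (cj3_mul' g h y.1) }
  rw [card_orb2 (G := G) (X := {y : G × G × G // S y}) (fun y hy => ?_), even_iff_two_dvd]
  · have e : Nat.card (Quot (cjR3 S)) =
        Nat.card (MulAction.orbitRel.Quotient G {y : G × G × G // S y}) := by
      refine Nat.card_congr (Quot.congr (Equiv.refl _) fun a b => ?_)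
      change cjR3 S a b ↔ a ∈ MulAction.orbit G b
      constructor
      · rintro ⟨g, hg1, hg2, hg3⟩
        have h1 : g • a = b :=
          Subtype.ext (Prod.ext hg1.symm (Prod.ext hg2.symm hg3.symm))
        exact ⟨g⁻¹, by
          change g⁻¹ • b = a
          rw [← h1, inv_smul_smul]⟩
      · rintro ⟨g, hg⟩
        have h1 : g⁻¹ • a = b := by
          rw [← hg]
          exact inv_smul_smul g b
        refine ⟨g⁻¹, ?_, ?_, ?_⟩
        · rw [← h1]
          rfl
        · rw [← h1]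
          rfl
        · rw [← h1]
          rfl
    rw [e]
  · obtain ⟨g, hg⟩ := exists_prime_orderOf_dvd_card' 2 hy
    have h1 : cj3 (g : G) y.1 = y.1 := congrArg Subtype.val g.2
    have h2 : Opr 2 (⊤ : Subgroup G) ≤ gen y.1 := by
      rw [ClsFAux.opr_le_iff]
      exact hgen y.1 y.2
    refine RotAux.no_p_cent (p := 2) hG h2 h1 ?_
    rw [Subgroup.orderOf_coe, hg]

theorem M48_cj {G : Type*} [Group G] (c : G) (g : G) (y : G × G × G) (h : M48 c y) :
    M48 c (cj3 g y) := by
  obtain ⟨r, s, t⟩ := y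
  obtain ⟨h1, h2, h3, h4, h5, ⟨u, e, h6, h7, h8, h9⟩, h10⟩ := h
  change orderOf r = 2 at h1
  change orderOf s = 2 at h2
  change orderOf t = 2 at h3
  change orderOf (r * t) = 2 at h4
  change orderOf (r * s) = 4 at h5
  change s * t = u * e at h9
  change ∀ w : G, Preg 2 w → w ∈ Subgroup.closure ({r, s, t} : Set G) at h10
  have ho : ∀ x : G, orderOf (g * x * g⁻¹) = orderOf x := fun x =>
    orderOf_injective (MulAut.conj g).toMonoidHom (MulAut.conj g).injective x
  have hm : ∀ a b : G, g * a * g⁻¹ * (g * b * g⁻¹) = g * (a * b) * g⁻¹ := fun a b => by group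
  refine ⟨(ho _).trans h1, (ho _).trans h2, (ho _).trans h3, ?_, ?_,
    ⟨g * u * g⁻¹, g * e * g⁻¹, (ho _).trans h6, h7.trans (isConj_iff.2 ⟨g, rfl⟩), ?_, ?_⟩, ?_⟩
  · change orderOf (g * r * g⁻¹ * (g * t * g⁻¹)) = 2
    rw [hm, ho, h4]
  · change orderOf (g * r * g⁻¹ * (g * s * g⁻¹)) = 4
    rw [hm, ho, h5]
  · change g * u * g⁻¹ * (g * e * g⁻¹) = g * e * g⁻¹ * (g * u * g⁻¹)
    rw [hm, hm, h8.eq]
  · change g * s * g⁻¹ * (g * t * g⁻¹) = _
    rw [hm, hm, h9]
  · intro w hw
    have h8 := h10 (g⁻¹ * w * g) (by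
      have h9 := (preg_cj (p := 2) g⁻¹ w).2 hw
      rwa [inv_inv] at h9)
    have h11 : Subgroup.closure ({(cj3 g (r, s, t)).1, (cj3 g (r, s, t)).2.1,
        (cj3 g (r, s, t)).2.2} : Set G) =
        (Subgroup.closure ({r, s, t} : Set G)).map (MulAut.conj g).toMonoidHom := by
      rw [MonoidHom.map_closure, Set.image_insert_eq, Set.image_insert_eq, Set.image_singleton]
      rfl
    rw [h11]
    refine ⟨_, h8, ?_⟩
    change g * (g⁻¹ * w * g) * g⁻¹ = w
    group

end FinNAux

open FinNAux FinMAux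

/-- **The blockwise weight conjecture at `p = 2` and regular maps, divisibility.** -/
theorem baw_iff_maps_dvd {k : Type v} [Field k] [IsAlgClosed k] [CharP k 2] :
    (∀ (G : Type u) [Group G] [Finite G] (b : MonoidAlgebra k G), IsBlock (⊤ : Subgroup G) b →
      gap 2 (⊤ : Subgroup G) ⊤ b = 0) ↔
    (∀ (G : Type u) [Group G] [Finite G], NoP 2 (⊤ : Subgroup G) → ∀ c : G, Preg 2 c →
      2 * ordProj[2] (Nat.card G) ∣ Nat.card {y : G × G × G // M48 c y}) := by
  rw [baw_iff_map8]
  refine forall_congr' fun G => forall_congr' fun i1 => forall_congr' fun i2 =>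
    forall_congr' fun hG => forall_congr' fun c => forall_congr' fun hc => ?_
  have e : Nat.card {y : G × G × G // S8 c y} = Nat.card {y : G × G × G // M48 c y} :=
    Nat.card_congr (Equiv.subtypeEquivRight fun y => exact3 hG hc y)
  rw [e]

/-- **The blockwise weight conjecture at `p = 2` and the parity of the number of regular maps of type
`{4, 8 m}`.** -/
theorem baw_iff_maps_even {k : Type v} [Field k] [IsAlgClosed k] [CharP k 2] :
    (∀ (G : Type u) [Group G] [Finite G] (b : MonoidAlgebra k G), IsBlock (⊤ : Subgroup G) b →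
      gap 2 (⊤ : Subgroup G) ⊤ b = 0) ↔
    (∀ (G : Type u) [Group G] [Finite G], NoP 2 (⊤ : Subgroup G) → ∀ c : G, Preg 2 c →
      Even (Nat.card (Quot (cjR3 (M48 c))))) := by
  rw [baw_iff_maps_dvd]
  refine forall_congr' fun G => forall_congr' fun i1 => forall_congr' fun i2 =>
    forall_congr' fun hG => forall_congr' fun c => forall_congr' fun hc => ?_
  exact card_cls3 hG (M48 c) (M48_cj c) (fun y hy => hy.2.2.2.2.2.2)

end Pool.Agent.Lib.P0c8ca5.By
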