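import Mathlib
import Pool.Agent.Lib.P0c8ca5By.FinN

/-!
# One group, one real class: pairs of type `(2, 4, 8 m)` and regular maps of type `{4, 8 m}`

* `maps_congr`: for a real class their numbers are congruent modulo `2 |G|_2`.
* `maps_nonreal`: there are no maps for a class that is not real.
* `M48'`: maps as tuples.
-/

namespace Pool.Agent.Lib.P0c8ca5.By

open MonoidAlgebra Bx TFinAux

universe u v

namespace FinKAux

open ClsCAux FinMAux FinNAux FinOAux FinRAux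

theorem fact2 : Fact (Nat.Prime 2) := ⟨Nat.prime_two⟩

attribute [local instance] fact2

open Classical in
/-- the weight of a class -/
noncomputable def ind4 {G : Type*} [Group G] (c : G) (x : G) : ℤ :=
  if IsConj ((c ^ 4)⁻¹) x then 1 else 0

theorem preg4 {G : Type*} [Group G] {c : G} (hc : Preg 2 c) : Preg 2 ((c ^ 4)⁻¹) := by
  have h1 : orderOf ((c ^ 4)⁻¹) ∣ orderOf c := by
    rw [orderOf_inv]
    exact orderOf_pow_dvd 4
  exact fun h2 => hc (h2.trans h1)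

theorem ind4_pos {G : Type*} [Group G] {c x : G} (h : IsConj ((c ^ 4)⁻¹) x) : ind4 c x = 1 :=
  if_pos h

theorem ind4_neg {G : Type*} [Group G] {c x : G} (h : ¬ IsConj ((c ^ 4)⁻¹) x) : ind4 c x = 0 :=
  if_neg h

theorem ind4_wt {G : Type*} [Group G] [Finite G] {c : G} (hc : Preg 2 c) :
    IsWt 2 ⊤ (ind4 c) := by
  classical
  exact MainPAux.isWt_class (preg4 hc) (fun z hz => if_pos hz) (fun z hz => if_neg hz)

theorem ind4_real {G : Type*} [Group G] {c : G} (hr : IsConj c c⁻¹) (z : G) :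
    ind4 c z⁻¹ = ind4 c z := by
  classical
  have hreal : IsConj (c ^ 4) ((c ^ 4)⁻¹) := by
    have h1 := ClsCAux.isConj_pow hr 4
    rwa [inv_pow] at h1
  refine if_congr ?_ rfl rfl
  constructor
  · intro h1
    have h2 := isConj_inv h1
    rw [inv_inv, inv_inv] at h2
    exact hreal.symm.trans h2
  · intro h1
    have h2 := isConj_inv h1
    rw [inv_inv] at h2
    exact hreal.symm.trans h2

variable {G : Type*} [Group G] [Finite G]

theorem wX_ind {c : G} (hc : Preg 2 c) :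
    wX 2 4 2 (fun x => sfT 2 (ind4 c) ((x ^ 4)⁻¹)) =
      (Nat.card {y : G × G // y.1 ^ 2 = 1 ∧ y.2 ^ 4 = 1 ∧
      (∃ u e : G, orderOf u = 8 ∧ IsConj c e ∧ Commute u e ∧ y.1 * y.2 = u * e) ∧
      ∀ w : G, Preg 2 w → w ∈ Subgroup.closure ({y.1, y.2} : Set G)} : ℤ) := by
  classical
  have : Fintype G := Fintype.ofFinite G
  obtain ⟨P, hP⟩ : ∃ P : G × G → Prop, ∀ y, P y ↔ (y.2 ^ 4 = 1 ∧ (y.1 * y.2) ^ 2 = 1 ∧
    Opr 2 (⊤ : Subgroup G) ≤ gn y) ∧ orderOf (y.1 * (pr 2 y.1)⁻¹) = 8 :=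
    ⟨_, fun _ => Iff.rfl⟩
  have h3 : Nat.card {y : G × G // P y ∧ IsConj c (pr 2 y.1)} =
      Nat.card {y : G × G // y.1 ^ 2 = 1 ∧ y.2 ^ 4 = 1 ∧
      (∃ u e : G, orderOf u = 8 ∧ IsConj c e ∧ Commute u e ∧ y.1 * y.2 = u * e) ∧
      ∀ w : G, Preg 2 w → w ∈ Subgroup.closure ({y.1, y.2} : Set G)} := by
    refine Nat.card_congr ((ClsBAux.eqv G).subtypeEquiv fun y => ?_)
    have e1 : (ClsBAux.eqv G y).1 = y.1 * y.2 := rfl
    have e2 : (ClsBAux.eqv G y).2 = y.2⁻¹ := rfl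
    have e3 : gn y = Subgroup.closure {y.1, y.2} := rfl
    have e4 := ud_iff (p := 2) (r := 2) hc y.1
    rw [show (2 : ℕ) ^ (2 + 1) = 8 from rfl] at e4
    rw [e1, e2, ClsBAux.clo_eqv, mul_inv_cancel_right, e4, inv_pow, inv_eq_one,
      ← ClsFAux.opr_le_iff, ← e3, hP y]
    tauto
  rw [← h3]
  have hcard : (Nat.card {y : G × G // P y ∧ IsConj c (pr 2 y.1)} : ℤ)
      = ∑ y : G × G, if P y ∧ IsConj c (pr 2 y.1) then 1 else 0 := by
    rw [Nat.card_eq_fintype_card, Fintype.card_subtype, Finset.card_filter]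
    push_cast
    rfl
  rw [hcard]
  unfold wX
  rw [finsum_eq_sum_of_fintype]
  refine Finset.sum_congr rfl fun y _ => ?_
  obtain ⟨s1, s2⟩ := sfT_pow (p := 2) 2 (ind4 c) y.1
  rw [show (2 : ℕ) ^ 2 = 4 from rfl, show (2 : ℕ) ^ (2 + 1) = 8 from rfl] at s1 s2
  by_cases a1 : y.2 ^ 4 = 1 ∧ (y.1 * y.2) ^ 2 = 1 ∧ Opr 2 (⊤ : Subgroup G) ≤ gn y
  · rw [if_pos a1]
    beta_reduce
    by_cases a3 : orderOf (y.1 * (pr 2 y.1)⁻¹) = 8
    · rw [s2 a3]
      by_cases h : IsConj c (pr 2 y.1)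
      · rw [ind4_pos ((isConj_four hc (preg_pr _)).2 h), if_pos ⟨(hP y).2 ⟨a1, a3⟩, h⟩]
      · rw [ind4_neg (fun h' => h ((isConj_four hc (preg_pr _)).1 h')), if_neg (fun h' => h h'.2)]
    · rw [s1 a3, if_neg (fun h => a3 ((hP y).1 h.1).2)]
  · rw [if_neg a1, if_neg (fun h => a1 ((hP y).1 h.1).1)]

theorem tM_ind {c : G} (hc : Preg 2 c) :
    tM {z : G | z ^ 4 = 1} (fun x => sfT 2 (ind4 c) ((x ^ 4)⁻¹)) =
      (Nat.card {y : G × G × G // S8 c y} : ℤ) := by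
  classical
  have : Fintype G := Fintype.ofFinite G
  rw [card_eq8 hc, card_Ns8, tM_eq8]
  unfold Ns8
  refine Finset.sum_congr rfl (fun y _ => ?_)
  by_cases hy : Gd8 y
  · rw [if_pos hy]
    by_cases h : IsConj c (pr 2 (xx y))
    · rw [ind4_pos ((isConj_four hc (preg_pr _)).2 h), if_pos ⟨hy, h⟩]
    · rw [ind4_neg (fun h' => h ((isConj_four hc (preg_pr _)).1 h')), if_neg (fun h' => h h'.2)]
  · rw [if_neg hy, if_neg (fun h => hy h.1)]

theorem card_S248 (hG : NoP 2 (⊤ : Subgroup G)) {c : G} (hc : Preg 2 c) :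
    Nat.card {y : G × G // y.1 ^ 2 = 1 ∧ y.2 ^ 4 = 1 ∧
      (∃ u e : G, orderOf u = 8 ∧ IsConj c e ∧ Commute u e ∧ y.1 * y.2 = u * e) ∧
      ∀ w : G, Preg 2 w → w ∈ Subgroup.closure ({y.1, y.2} : Set G)} =
      Nat.card {y : G × G // S248 c y} := by
  refine Nat.card_congr (Equiv.subtypeEquivRight fun y => ?_)
  constructor
  · rintro ⟨h1, h2, h3, h4⟩
    have h5 := exact_ord hG hc h1 h2 h3 h4
    exact ⟨h5.1, h5.2, h3, h4⟩
  · rintro ⟨h1, h2, h3, h4⟩
    refine ⟨?_, ?_, h3, h4⟩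
    · rw [← h1]
      exact pow_orderOf_eq_one _
    · rw [← h2]
      exact pow_orderOf_eq_one _

end FinKAux

open FinKAux FinMAux FinNAux FinRAux ClsCAux

/-- **Pairs and maps.** -/
theorem maps_congr {G : Type*} [Group G] [Finite G] (hG : NoP 2 (⊤ : Subgroup G)) {c : G}
    (hc : Preg 2 c) (hr : IsConj c c⁻¹) :
    (2 : ℤ) * (ordProj[2] (Nat.card G) : ℕ) ∣
      (Nat.card {y : G × G // S248 c y} : ℤ) - (Nat.card {y : G × G × G // M48 c y} : ℤ) := by
  have : Fact (Nat.Prime 2) := ⟨Nat.prime_two⟩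
  have hcf : CF (ind4 c) := CF_of_wt (ind4_wt hc)
  have h1 := bQ_congr (p := 2) (r := 2) (s := 2) (E := Eq4) (T := Tq4) (A := G)
    (by norm_num; exact Eq4_isRq) (by norm_num; exact Tq4_isPq) hG (CF_sfT (p := 2) hcf)
  norm_num at h1
  have h2 := bQT_inv hG hcf (ind4_real hr)
  have e1 := wX_ind hc
  rw [card_S248 hG hc] at e1
  have e2 := tM_ind hc
  have e3 : Nat.card {y : G × G × G // S8 c y} = Nat.card {y : G × G × G // M48 c y} :=
    Nat.card_congr (Equiv.subtypeEquivRight fun y => exact3 hG hc y)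
  rw [e3] at e2
  rw [← e1, ← e2]
  push_cast at h1 h2 ⊢
  have h3 := dvd_sub h2 h1
  rwa [sub_sub_sub_cancel_left] at h3

theorem maps_iff_pairs {G : Type*} [Group G] [Finite G] (hG : NoP 2 (⊤ : Subgroup G)) {c : G}
    (hc : Preg 2 c) (hr : IsConj c c⁻¹) :
    2 * ordProj[2] (Nat.card G) ∣ Nat.card {y : G × G // S248 c y} ↔
      2 * ordProj[2] (Nat.card G) ∣ Nat.card {y : G × G × G // M48 c y} := by
  have h := maps_congr hG hc hr
  have e1 : 2 * ordProj[2] (Nat.card G) ∣ Nat.card {y : G × G // S248 c y} ↔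
      (2 : ℤ) * (ordProj[2] (Nat.card G) : ℕ) ∣ (Nat.card {y : G × G // S248 c y} : ℤ) := by
    constructor
    · intro h1
      exact_mod_cast h1
    · intro h1
      exact_mod_cast h1
  have e2 : 2 * ordProj[2] (Nat.card G) ∣ Nat.card {y : G × G × G // M48 c y} ↔
      (2 : ℤ) * (ordProj[2] (Nat.card G) : ℕ) ∣ (Nat.card {y : G × G × G // M48 c y} : ℤ) := by
    constructor
    · intro h1
      exact_mod_cast h1
    · intro h1
      exact_mod_cast h1
  rw [e1, e2]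
  constructor
  · intro h1
    exact (dvd_sub_right h1).1 h
  · intro h1
    exact (dvd_sub_left h1).1 h

theorem maps_real {G : Type*} [Group G] [Finite G] {c : G} (hc : Preg 2 c) {y : G × G × G}
    (hy : M48 c y) : IsConj c c⁻¹ := by
  have : Fact (Nat.Prime 2) := ⟨Nat.prime_two⟩
  obtain ⟨r, s, t⟩ := y
  obtain ⟨-, h2, h3, -, -, h6, -⟩ := hy
  have hs : s ^ 2 = 1 := sq_of_order h2
  have ht : t ^ 2 = 1 := sq_of_order h3
  have hs1 : s⁻¹ = s := inv_of_sq hs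
  have ht1 : t⁻¹ = t := inv_of_sq ht
  have h7 := ((ud_iff (p := 2) (r := 2) hc (s * t)).1 h6).1
  have h8 : IsConj (s * t) (s * t)⁻¹ := by
    refine isConj_iff.2 ⟨s, ?_⟩
    rw [mul_inv_rev, hs1, ht1]
    calc s * (s * t) * s = (s * s) * t * s := by group
      _ = t * s := by rw [← pow_two, hs, one_mul]
  have h9 : IsConj (pr 2 (s * t)) (pr 2 (s * t))⁻¹ := by
    have h10 := ClsCAux.isConj_pow h8 (uexp 2 G)
    rw [inv_pow] at h10
    exact h10
  exact (h7.trans h9).trans (isConj_inv h7).symm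

theorem maps_nonreal {G : Type*} [Group G] [Finite G] {c : G} (hc : Preg 2 c)
    (hr : ¬ IsConj c c⁻¹) : Nat.card {y : G × G × G // M48 c y} = 0 := by
  have : IsEmpty {y : G × G × G // M48 c y} := ⟨fun y => hr (maps_real hc y.2)⟩
  exact Nat.card_of_isEmpty

/-- regular maps of type `{4, 8 m}` as tuples -/
def M48' {G : Type*} [Group G] (c : G) (t : Fin 3 → G) : Prop :=
  orderOf (t 0) = 2 ∧ orderOf (t 1) = 2 ∧ orderOf (t 2) = 2 ∧ orderOf (t 0 * t 2) = 2 ∧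
    orderOf (t 0 * t 1) = 4 ∧
    (∃ u e : G, orderOf u = 8 ∧ IsConj c e ∧ Commute u e ∧ t 1 * t 2 = u * e) ∧
    ∀ w : G, Preg 2 w → w ∈ Subgroup.closure (Set.range t)

/-- tuples and triples -/
def eq3 (G : Type*) : (Fin 3 → G) ≃ G × G × G where
  toFun t := (t 0, t 1, t 2)
  invFun y := ![y.1, y.2.1, y.2.2]
  left_inv t := by
    funext i
    fin_cases i <;> rfl
  right_inv y := rfl

theorem range3 {G : Type*} (t : Fin 3 → G) : Set.range t = {t 0, t 1, t 2} := by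
  ext x
  constructor
  · rintro ⟨i, rfl⟩
    fin_cases i <;> simp
  · rintro (rfl | rfl | rfl)
    · exact ⟨0, rfl⟩
    · exact ⟨1, rfl⟩
    · exact ⟨2, rfl⟩

theorem card_M48' {G : Type*} [Group G] (c : G) :
    Nat.card {t : Fin 3 → G // M48' c t} = Nat.card {y : G × G × G // M48 c y} := by
  refine Nat.card_congr ((eq3 G).subtypeEquiv fun t => ?_)
  unfold M48'
  rw [range3]
  exact Iff.rfl

end Pool.Agent.Lib.P0c8ca5.By
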