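import Mathlib
import Pool.Agent.Lib.P0c8ca5V.R2b
import Pool.Agent.Lib.P0c8ca5By.Cv

/-!
# Frob: the trace of a p-th power

PROOF. `trE_pow`: `trE k ⊤ z.coeff` is the trace of the matrix `R2bAux.MT ⊤ z` (unfold; `finsum_eq_sum_of_fintype`), and `MT (z ^ n) = MT z ^ n` for central `z` (from `R2bAux.MT_pow`
applied to the indicator functions of the classes, as in the proof of `R2bAux.MT_nilp`, and `R2bAux.MT_mulVec` for `z ^ n`). For `z = zel k f` the entries of `MT z` are the images of integers: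
`MT z = M0.map (algebraMap (ZMod p) k)` (`ZMod.castHom`/`algebraMap` needs `Algebra (ZMod p) k`: `ZMod.algebra k p`), so `trace (MT z ^ p) = algebraMap (trace (M0 ^ p)) = algebraMap ((trace M0) ^ p)`
(`ZMod.trace_pow_card`) `= algebraMap (trace M0)` (`ZMod.pow_card`) `= trace (MT z)`.
`nE_frob`: `k = AlgebraicClosure (ZMod p)`, `nE_trE` (R2b) for `f` and for a class function `F` with `zel k F = (zel k f) ^ p`. `nE_frob2`, `nE_frob3`: `zel_cvl`, `CF_cvl`.
-/

namespace Pool.Agent.Lib.P0c8ca5.By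

open MonoidAlgebra Bx

namespace FrobAux

theorem trE_MT {k : Type*} [Field k] {A : Type*} [Group A] [Fintype A] (H : Subgroup A)
    [Fintype (Cl H (fun x => x ∈ H))] (z : MonoidAlgebra k A) :
    trE k H (fun y => z.coeff y) = (R2bAux.MT H z).trace := by
  classical
  unfold trE Matrix.trace
  rw [finsum_eq_sum_of_fintype]
  refine Finset.sum_congr rfl fun X _ => ?_
  rw [Matrix.diag_apply]
  unfold R2bAux.MT
  refine Finset.sum_congr rfl fun y _ => ?_
  congr!

theorem MT_pow_eq {k : Type*} [Field k] {A : Type*} [Group A] [Fintype A] {H : Subgroup A}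
    [Fintype (Cl H (fun x => x ∈ H))] [DecidableEq (Cl H (fun x => x ∈ H))]
    {z : MonoidAlgebra k A} (hz : SuppIn H z) (hinv : InvBy H z) (n : ℕ)
    (hzn : SuppIn H (z ^ n)) :
    R2bAux.MT H (z ^ n) = (R2bAux.MT H z) ^ n := by
  classical
  ext X Y
  set f : A → k := fun x => if h : x ∈ H then
    (if (Quotient.mk (clSetoid H (fun x => x ∈ H)) ⟨x, h⟩) = Y then (1 : k) else 0) else 0 with hf
  have hCF : R2bAux.CF H f := by
    refine ⟨fun x hx => dif_neg hx, fun h hh x => ?_⟩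
    by_cases hx : x ∈ H
    · have hx' : h * x * h⁻¹ ∈ H := H.mul_mem (H.mul_mem hh hx) (H.inv_mem hh)
      simp only [hf]
      rw [dif_pos hx, dif_pos hx']
      have e : Quotient.mk (clSetoid H (fun x => x ∈ H)) ⟨h * x * h⁻¹, hx'⟩
          = Quotient.mk _ ⟨x, hx⟩ := (Quotient.sound ⟨h, hh, rfl⟩ :
            Quotient.mk (clSetoid H (fun x => x ∈ H)) ⟨x, hx⟩
              = Quotient.mk _ ⟨h * x * h⁻¹, hx'⟩).symm
      rw [e]
    · have hx' : h * x * h⁻¹ ∉ H := by
        intro h1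
        apply hx
        have := H.mul_mem (H.mul_mem (H.inv_mem hh) h1) hh
        have e : h⁻¹ * (h * x * h⁻¹) * h = x := by group
        rwa [e] at this
      simp only [hf]
      rw [dif_neg hx, dif_neg hx']
  have h2 : (fun Z : Cl H (fun x => x ∈ H) => f (Z.out : A)) = Pi.single Y 1 := by
    funext Z
    simp only [hf]
    rw [dif_pos Z.out.2]
    have e : Quotient.mk (clSetoid H (fun x => x ∈ H)) ⟨(Z.out : A), Z.out.2⟩ = Z :=
      Quotient.out_eq Z
    rw [e, Pi.single_apply]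
  have h1 := congrFun (R2bAux.MT_pow hz hinv n hCF) X
  have h3 := congrFun (R2bAux.MT_mulVec hzn hCF) X
  rw [h2, Matrix.mulVec_single_one] at h1 h3
  exact h3.trans h1.symm

theorem invBy_zel {k : Type*} [Field k] {A : Type*} [Group A] [Finite A] {f : A → ℤ}
    (hf : CF f) : InvBy (⊤ : Subgroup A) (zel k f) := by
  intro g _ x
  rw [zel_coeff, zel_coeff, hf]

end FrobAux

theorem trE_pow {p : ℕ} [Fact p.Prime] {k : Type*} [Field k] [CharP k p] {A : Type*} [Group A]
    [Fintype A] {f : A → ℤ} (hf : CF f) :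
    trE k (⊤ : Subgroup A) (fun x => ((zel k f) ^ p).coeff x)
      = trE k (⊤ : Subgroup A) (fun x => (zel k f).coeff x) := by
  classical
  let _ : Fintype (Cl (⊤ : Subgroup A) (fun x => x ∈ (⊤ : Subgroup A))) := Fintype.ofFinite _
  have ht : ∀ z : MonoidAlgebra k A, SuppIn (⊤ : Subgroup A) z := fun z x _ => Subgroup.mem_top x
  rw [FrobAux.trE_MT, FrobAux.trE_MT,
    FrobAux.MT_pow_eq (ht _) (FrobAux.invBy_zel hf) p (ht _)]
  set M0 : Matrix (Cl (⊤ : Subgroup A) (fun x => x ∈ (⊤ : Subgroup A)))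
      (Cl (⊤ : Subgroup A) (fun x => x ∈ (⊤ : Subgroup A))) (ZMod p) :=
    fun X Y => ((∑ y : A, if y ∈ (⊤ : Subgroup A) ∧ ∃ h ∈ (⊤ : Subgroup A),
      y * (X.out : A) = h * (Y.out : A) * h⁻¹ then f y else 0 : ℤ) : ZMod p) with hM0
  have hM : R2bAux.MT (⊤ : Subgroup A) (zel k f)
      = (ZMod.castHom (dvd_refl p) k).mapMatrix M0 := by
    ext X Y
    rw [RingHom.mapMatrix_apply, Matrix.map_apply]
    simp only [hM0]
    rw [map_intCast]
    unfold R2bAux.MT
    push_cast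
    refine Finset.sum_congr rfl fun y _ => ?_
    rw [zel_coeff]
  have htr : ∀ M : Matrix (Cl (⊤ : Subgroup A) (fun x => x ∈ (⊤ : Subgroup A)))
      (Cl (⊤ : Subgroup A) (fun x => x ∈ (⊤ : Subgroup A))) (ZMod p),
      ((ZMod.castHom (dvd_refl p) k).mapMatrix M).trace
        = ZMod.castHom (dvd_refl p) k M.trace := by
    intro M
    unfold Matrix.trace
    rw [map_sum]
    rfl
  rw [hM, ← map_pow, htr, htr, ZMod.trace_pow_card, ZMod.pow_card]

namespace FrobAux

theorem nE_frob {p : ℕ} [Fact p.Prime] {A : Type*} [Group A] [Finite A] {f F : A → ℤ}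
    (hf : CF f) (hF : CF F) (h : zel (ZMod p) F = (zel (ZMod p) f) ^ p) :
    (p : ℤ) * (Nat.card A : ℤ) ∣ nE (⊤ : Subgroup A) f - nE (⊤ : Subgroup A) F := by
  let _ : Fintype A := Fintype.ofFinite A
  obtain ⟨t, h1, h2⟩ := nE_trE (k := ZMod p) (⊤ : Subgroup A) (m := f) (fun g _ x => hf g x)
  obtain ⟨s, h3, h4⟩ := nE_trE (k := ZMod p) (⊤ : Subgroup A) (m := F) (fun g _ x => hF g x)
  have h5 : ((t : ℤ) : ZMod p) = ((s : ℤ) : ZMod p) := by
    rw [h2, h4]
    have e1 : (fun y : A => ((F y : ℤ) : ZMod p)) = fun y => ((zel (ZMod p) f) ^ p).coeff y := by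
      funext y
      rw [← h, zel_coeff]
    rw [e1, trE_pow hf]
    rfl
  have h6 : (p : ℤ) ∣ t - s := by
    rw [← ZMod.intCast_zmod_eq_zero_iff_dvd, Int.cast_sub, h5, sub_self]
  obtain ⟨c, hc⟩ := h6
  refine ⟨c, ?_⟩
  rw [h1, h3, ← mul_sub, hc, Subgroup.card_top]
  ring

end FrobAux

theorem nE_frob2 {A : Type*} [Group A] [Finite A] {f : A → ℤ} (hf : CF f) :
    (2 : ℤ) * (Nat.card A : ℤ) ∣
      nE (⊤ : Subgroup A) f - nE (⊤ : Subgroup A) (cvl f f) := by
  have : Fact (Nat.Prime 2) := ⟨Nat.prime_two⟩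
  have h := FrobAux.nE_frob (p := 2) hf (CF_cvl hf hf) (by rw [zel_cvl, pow_two])
  exact_mod_cast h

theorem nE_frob3 {A : Type*} [Group A] [Finite A] {f : A → ℤ} (hf : CF f) :
    (3 : ℤ) * (Nat.card A : ℤ) ∣
      nE (⊤ : Subgroup A) f - nE (⊤ : Subgroup A) (cvl (cvl f f) f) := by
  have : Fact (Nat.Prime 3) := ⟨Nat.prime_three⟩
  have h := FrobAux.nE_frob (p := 3) hf (CF_cvl (CF_cvl hf hf) hf)
    (by rw [zel_cvl, zel_cvl, pow_succ, pow_two])
  exact_mod_cast h

end Pool.Agent.Lib.P0c8ca5.By
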