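import Mathlib
import Pool.Agent.Lib.P0c8ca5V.THpB
import Pool.Agent.Lib.P0c8ca5Bx.Sing
import Pool.Agent.Lib.P0c8ca5By.Defs

/-!
# Om: the sum of the elements `x` with `x ^ p = 1` on the blocks

PROOF. `om_mem`: `zel_mem` with `CF_omf`. `om_dz`: `sing_dz` (P0c8ca5Bx.Sing) for `v = om - 1`: `v.coeff y = 0` for p-regular `y`, because `y ^ p = 1` and `y` p-regular give `y = 1`.
`om_nonDZ`: a copy of `sec_nonDZ` (P0c8ca5Bx.Sec; or of `hpe_nonDZ`, P0c8ca5V.THpB) with `om p k A` in place of `sec p z`, and with an element `d` of ORDER `p` in the p-subgroup `P`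
(e.g. `exists_prime_orderOf_dvd_card`, or a suitable power of an element `≠ 1`): `(d * y) ^ p = 1 ↔ y ^ p = 1` for `y` in the centralizer of `zpowers d` (`Commute.mul_pow`), so the
coefficients of `resS C (om p k A)` are invariant under `y ↦ d' * y`, `d' ∈ zpowers d`, and `resS C om * resS C om = 0` as in `SecAux.res_sq`.
-/

namespace Pool.Agent.Lib.P0c8ca5.By

open MonoidAlgebra Bx

set_option linter.unusedSectionVars false

variable {p : ℕ} {k : Type*} [Field k] {A : Type*} [Group A] [Finite A]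
variable [Fact p.Prime] [CharP k p] [IsAlgClosed k]

namespace OmAux

omit [Finite A] [CharP k p] [IsAlgClosed k] [Fact p.Prime] [Field k] in
theorem omf_mul {d u : A} (hd : d ^ p = 1) (hc : Commute d u) :
    (omf p (d * u) : ℤ) = omf p u := by
  classical
  unfold omf
  rw [hc.mul_pow, hd, one_mul]

theorem om_coeff (x : A) : (om p k A).coeff x = ((omf p x : ℤ) : k) := zel_coeff _ _

theorem res_sq {D : Subgroup A} (hD : IsPGroup p D) (hDp : ∀ d ∈ D, d ^ p = 1) (hne : D ≠ ⊥)
    (hcomm : D ≤ Subgroup.centralizer (D : Set A)) :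
    resS (Subgroup.centralizer (D : Set A) : Set A) (om p k A) *
      resS (Subgroup.centralizer (D : Set A) : Set A) (om p k A) = 0 := by
  classical
  cases nonempty_fintype A
  set C := Subgroup.centralizer (D : Set A) with hC
  have hcm : ∀ d ∈ D, ∀ u ∈ C, d * u = u * d := by
    intro d hd u hu
    exact Subgroup.mem_centralizer_iff.1 hu d hd
  have hb : ∀ d ∈ D, ∀ u, (resS (C : Set A) (om p k A)).coeff (d * u) =
      (resS (C : Set A) (om p k A)).coeff u := by
    intro d hd u
    by_cases hu : u ∈ C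
    · have hdu : d * u ∈ C := C.mul_mem (hcomm hd) hu
      rw [coeff_resS_of_mem _ (SetLike.mem_coe.2 hu), coeff_resS_of_mem _ (SetLike.mem_coe.2 hdu),
        om_coeff, om_coeff, omf_mul (hDp d hd) (show Commute d u from hcm d hd u hu)]
    · have hdu : d * u ∉ C := by
        intro h'
        apply hu
        have := C.mul_mem (C.inv_mem (hcomm hd)) h'
        rwa [inv_mul_cancel_left] at this
      rw [coeff_resS_of_notMem _ (fun h' => hu (SetLike.mem_coe.1 h')),
        coeff_resS_of_notMem _ (fun h' => hdu (SetLike.mem_coe.1 h'))]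
  ext y
  rw [coeff_mul_fin]
  rw [sum_eq_sum_fixed (p := p) hD ((MulAction.toPermHom A A).comp D.subtype)
    (fun u => (resS (C : Set A) (om p k A)).coeff u *
      (resS (C : Set A) (om p k A)).coeff (u⁻¹ * y)) ?_ ∅ ?_]
  · rw [Finset.sum_empty]
    rfl
  · intro g u
    change (resS (C : Set A) (om p k A)).coeff ((g : A) * u) *
      (resS (C : Set A) (om p k A)).coeff (((g : A) * u)⁻¹ * y) = _
    rw [hb g g.2 u]
    by_cases hu : u ∈ C
    · have h1 : ((g : A) * u)⁻¹ * y = (g : A)⁻¹ * (u⁻¹ * y) := by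
        rw [hcm g g.2 u hu]
        group
      rw [h1, hb _ (D.inv_mem g.2)]
    · rw [coeff_resS_of_notMem _ (fun h' => hu (SetLike.mem_coe.1 h')), zero_mul, zero_mul]
  · intro x
    constructor
    · intro hx
      exact absurd hx (Finset.notMem_empty x)
    · intro hx
      exfalso
      obtain ⟨d, hd, hd1⟩ := (Subgroup.bot_or_exists_ne_one D).resolve_left hne
      apply hd1
      have h1 : d * x = x := hx ⟨d, hd⟩
      exact mul_eq_right.1 h1

end OmAux

theorem om_mem : om p k A ∈ fixAlg k (⊤ : Subgroup A) ⊤ := zel_mem (CF_omf p)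

theorem om_dz {f : MonoidAlgebra k A} (hf : IsDZ p (⊤ : Subgroup A) f) : om p k A * f = f := by
  classical
  have h1 : (om p k A - 1) * f = 0 := by
    apply sing_dz hf
    · exact (fixAlg k (⊤ : Subgroup A) ⊤).sub_mem om_mem (one_mem (fixAlg k (⊤ : Subgroup A) ⊤))
    · intro y hy
      rw [coeff_sub, Finsupp.sub_apply, OmAux.om_coeff, one_def, coeff_single,
        Finsupp.single_apply]
      by_cases h : y = 1
      · subst h
        simp [omf]
      · have h2 : y ^ p ≠ 1 := by
          intro h3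
          have h4 := orderOf_dvd_of_pow_eq_one h3
          rcases (Nat.dvd_prime (Fact.out : p.Prime)).1 h4 with h5 | h5
          · exact h (orderOf_eq_one_iff.1 h5)
          · exact hy (by rw [h5])
        simp [omf, h2, Ne.symm h]
  rw [sub_mul, one_mul, sub_eq_zero] at h1
  exact h1

theorem om_nonDZ {f : MonoidAlgebra k A} (hf : IsBlock (⊤ : Subgroup A) f)
    (h : ¬ IsDZ p (⊤ : Subgroup A) f) : IsNilpotent (om p k A * f) := by
  classical
  cases nonempty_fintype A
  have hh : om p k A ∈ fixAlg k (⊤ : Subgroup A) ⊤ := om_mem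
  rcases blk_nilp_or_unit hf hh with h1 | ⟨w, hw, hwf⟩
  · exact h1
  exfalso
  have hex : ∃ P : Subgroup A, IsPGroup p P ∧ HasBr P f ∧ P ≠ ⊥ := by
    by_contra hcon
    apply h
    refine ⟨hf, fun P _ hP hbr => ?_⟩
    by_contra hne
    exact hcon ⟨P, hP, hbr, hne⟩
  obtain ⟨P, hP, ⟨x, hx, hfx⟩, hPne⟩ := hex
  obtain ⟨d, hd, hdp⟩ : ∃ d ∈ P, orderOf d = p := by
    have : Nontrivial P := (Subgroup.nontrivial_iff_ne_bot P).2 hPne
    have hdvd : p ∣ Nat.card P := by
      obtain ⟨n, hn⟩ := hP.exists_card_eq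
      rw [hn]
      apply dvd_pow_self
      rintro rfl
      rw [pow_zero] at hn
      exact (Finite.one_lt_card (α := P)).ne' hn
    obtain ⟨d, hd⟩ := exists_prime_orderOf_dvd_card' p hdvd
    exact ⟨d, d.2, by rw [Subgroup.orderOf_coe]; exact hd⟩
  have hd1 : d ≠ 1 := by
    rintro rfl
    rw [orderOf_one] at hdp
    exact (Fact.out : p.Prime).one_lt.ne hdp
  have hdpow : ∀ u ∈ Subgroup.zpowers d, u ^ p = 1 := by
    rintro _ ⟨n, rfl⟩
    change (d ^ n) ^ p = 1
    rw [← zpow_natCast, ← zpow_mul, mul_comm, zpow_mul, zpow_natCast, ← hdp, pow_orderOf_eq_one,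
      one_zpow]
  have hDP : Subgroup.zpowers d ≤ P := by rwa [Subgroup.zpowers_le]
  have hD : IsPGroup p (Subgroup.zpowers d) := hP.to_le hDP
  have hDne : Subgroup.zpowers d ≠ ⊥ := by
    rwa [Ne, Subgroup.zpowers_eq_bot]
  have hcomm : Subgroup.zpowers d ≤
      Subgroup.centralizer ((Subgroup.zpowers d : Subgroup A) : Set A) := by
    rw [Subgroup.zpowers_le, Subgroup.mem_centralizer_iff]
    rintro _ ⟨n, rfl⟩
    exact ((Commute.refl d).zpow_left n).eq
  have hsq := OmAux.res_sq (p := p) (k := k) hD hdpow hDne hcomm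
  have hwf' : w * f ∈ fixAlg k (⊤ : Subgroup A) ⊤ := (fixAlg k _ _).mul_mem hw hf.mem
  have hwwf : w * (w * f) ∈ fixAlg k (⊤ : Subgroup A) ⊤ := (fixAlg k _ _).mul_mem hw hwf'
  have hhh : om p k A * om p k A ∈ fixAlg k (⊤ : Subgroup A) ⊤ := (fixAlg k _ _).mul_mem hh hh
  have hfe : om p k A * om p k A * (w * (w * f)) = f := by
    have hc : w * om p k A = om p k A * w :=
      commute_of (mem_fixAlg.1 hw).1 (mem_fixAlg.1 hh).2
    calc om p k A * om p k A * (w * (w * f)) = om p k A * (om p k A * w) * (w * f) := by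
          simp only [mul_assoc]
      _ = om p k A * (w * om p k A) * (w * f) := by rw [hc]
      _ = om p k A * w * (om p k A * w * f) := by simp only [mul_assoc]
      _ = f := by rw [hwf, hwf]
  have hinv : ∀ a : MonoidAlgebra k A, a ∈ fixAlg k (⊤ : Subgroup A) ⊤ →
      InvBy (Subgroup.zpowers d) a := fun a ha => (mem_fixAlg.1 ha).2.mono le_top
  have h0 : resS (Subgroup.centralizer ((Subgroup.zpowers d : Subgroup A) : Set A) : Set A) f
      = 0 := by
    rw [← hfe, resS_mul hD (hinv _ hhh) (hinv _ hwwf), resS_mul hD (hinv _ hh) (hinv _ hh), hsq,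
      zero_mul]
  apply hfx
  have hxC : x ∈ Subgroup.centralizer ((Subgroup.zpowers d : Subgroup A) : Set A) :=
    Subgroup.centralizer_le (SetLike.coe_subset_coe.2 hDP) hx
  rw [← coeff_resS_of_mem (S := (Subgroup.centralizer
    ((Subgroup.zpowers d : Subgroup A) : Set A) : Set A)) f hxC, h0]
  rfl

end Pool.Agent.Lib.P0c8ca5.By
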