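import Mathlib
import Pool.Agent.Lib.P0c8ca5V.TDzB
import Pool.Agent.Lib.P0c8ca5V.TCnt
import Pool.Agent.Lib.P0c8ca5Bx.TrS
import Pool.Agent.Lib.P0c8ca5By.Om
import Pool.Agent.Lib.P0c8ca5By.Cv

/-!
# TrO: the traces of `hpe * z` and of `om * z` agree

PROOF. `trE_om`: a copy of `trE_sec` (P0c8ca5Bx.TrS) with `om p k A * z` in place of `sec p z`: on a block `b` with `IsDZ`: `om * z * b = z * b` (`om_dz`, commutativity), otherwise
`om * z * b = z * (om * b)` is nilpotent (`om_nonDZ`).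
`nA_om`: as `nA_pf` (P0c8ca5Bx.ABa), `k = AlgebraicClosure (ZMod p)`: `nA_trE` (P0c8ca5V.TCnt) and `nE_trE` (R2b) for the class function `cvl m (omf p)` (`CF_cvl`, `zel_cvl`: `zel (cvl m (omf p)) = zel m * om`).
-/

namespace Pool.Agent.Lib.P0c8ca5.By

open MonoidAlgebra Bx

set_option linter.unusedSectionVars false

theorem trE_om {p : ℕ} {k : Type*} [Field k] {A : Type*} [Group A] [Fintype A]
    [Fact p.Prime] [CharP k p] [IsAlgClosed k] {z : MonoidAlgebra k A}
    (hz : z ∈ fixAlg k (⊤ : Subgroup A) ⊤) :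
    trE k (⊤ : Subgroup A) (fun x => (hpe p k A * z).coeff x)
      = trE k (⊤ : Subgroup A) (fun x => (om p k A * z).coeff x) := by
  classical
  have hone : (1 : MonoidAlgebra k A) ∈ fixAlg k (⊤ : Subgroup A) ⊤ := (fixAlg k _ _).one_mem
  have hfin : {b : MonoidAlgebra k A | IsBlock (⊤ : Subgroup A) b ∧ b * 1 ≠ 0}.Finite :=
    (finite_isBlock (k := k) (⊤ : Subgroup A)).subset (fun b hb => hb.1)
  have hB : ∀ b, b ∈ hfin.toFinset ↔ IsBlock (⊤ : Subgroup A) b ∧ b * 1 ≠ 0 := by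
    intro b
    rw [Set.Finite.mem_toFinset]
    rfl
  generalize hfin.toFinset = B at hB
  have hsum : ∑ b ∈ B, b = 1 := WSumAux.sum_blocks (p := p) hone (one_mul 1) B hB
  have hom : om p k A ∈ fixAlg k (⊤ : Subgroup A) ⊤ := om_mem
  have e1 : hpe p k A * z = ∑ b ∈ B, hpe p k A * z * b := by
    rw [← Finset.mul_sum, hsum, mul_one]
  have e2 : om p k A * z = ∑ b ∈ B, om p k A * z * b := by
    rw [← Finset.mul_sum, hsum, mul_one]
  have key : ∀ b ∈ B, trE k (⊤ : Subgroup A) (fun x => (hpe p k A * z * b).coeff x)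
      = trE k (⊤ : Subgroup A) (fun x => (om p k A * z * b).coeff x) := by
    intro b hb
    obtain ⟨hb1, _⟩ := (hB b).1 hb
    have hzb : z * b = b * z := commute_of (mem_fixAlg.1 hz).1 (mem_fixAlg.1 hb1.mem).2
    have e3 : hpe p k A * z * b = hpe p k A * b * z := by
      rw [mul_assoc, hzb, ← mul_assoc]
    have e4 : om p k A * z * b = om p k A * b * z := by
      rw [mul_assoc, hzb, ← mul_assoc]
    by_cases hdz : IsDZ p (⊤ : Subgroup A) b
    · have h1 : hpe p k A * z * b = z * b := by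
        rw [e3, hpe_mul_dz hdz, hzb]
      have h3 : om p k A * z * b = z * b := by
        rw [e4, om_dz hdz, hzb]
      rw [h1, h3]
    · have hhb : hpe p k A * b ∈ fixAlg k (⊤ : Subgroup A) ⊤ :=
        (fixAlg k (⊤ : Subgroup A) ⊤).mul_mem hpe_mem hb1.mem
      have hob : om p k A * b ∈ fixAlg k (⊤ : Subgroup A) ⊤ :=
        (fixAlg k (⊤ : Subgroup A) ⊤).mul_mem hom hb1.mem
      have hm1 : hpe p k A * z * b ∈ fixAlg k (⊤ : Subgroup A) ⊤ := by
        rw [e3]
        exact (fixAlg k (⊤ : Subgroup A) ⊤).mul_mem hhb hz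
      have hm2 : om p k A * z * b ∈ fixAlg k (⊤ : Subgroup A) ⊤ := by
        rw [e4]
        exact (fixAlg k (⊤ : Subgroup A) ⊤).mul_mem hob hz
      have hc : Commute (hpe p k A * b) z :=
        commute_of (mem_fixAlg.1 hhb).1 (mem_fixAlg.1 hz).2
      have hc2 : Commute (om p k A * b) z :=
        commute_of (mem_fixAlg.1 hob).1 (mem_fixAlg.1 hz).2
      have hn1 : IsNilpotent (hpe p k A * z * b) := by
        rw [e3]
        exact hc.isNilpotent_mul_right (hpe_nonDZ hb1 hdz)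
      have hn2 : IsNilpotent (om p k A * z * b) := by
        rw [e4]
        exact hc2.isNilpotent_mul_right (om_nonDZ hb1 hdz)
      rw [trE_nilpotent (p := p) (mem_fixAlg.1 hm1).1 (mem_fixAlg.1 hm1).2 hn1,
        trE_nilpotent (p := p) (mem_fixAlg.1 hm2).1 (mem_fixAlg.1 hm2).2 hn2]
  calc trE k (⊤ : Subgroup A) (fun x => (hpe p k A * z).coeff x)
      = trE k (⊤ : Subgroup A) (fun x => (∑ b ∈ B, hpe p k A * z * b).coeff x) := by rw [← e1]
    _ = ∑ b ∈ B, trE k (⊤ : Subgroup A) (fun x => (hpe p k A * z * b).coeff x) :=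
        TDzBAux.trE_sum _ _ _
    _ = ∑ b ∈ B, trE k (⊤ : Subgroup A) (fun x => (om p k A * z * b).coeff x) :=
        Finset.sum_congr rfl key
    _ = trE k (⊤ : Subgroup A) (fun x => (∑ b ∈ B, om p k A * z * b).coeff x) :=
        (TDzBAux.trE_sum _ _ _).symm
    _ = trE k (⊤ : Subgroup A) (fun x => (om p k A * z).coeff x) := by rw [← e2]

theorem nA_om {p : ℕ} [Fact p.Prime] {A : Type*} [Group A] [Finite A] {m : A → ℤ} (hm : CF m) :
    (p : ℤ) * (Nat.card A : ℤ) ∣
      nA p (⊤ : Subgroup A) m - nE (⊤ : Subgroup A) (cvl m (omf p)) := by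
  classical
  cases nonempty_fintype A
  obtain ⟨t, h1, h2⟩ := nA_trE (k := AlgebraicClosure (ZMod p)) (p := p) hm
  obtain ⟨t', h3, h4⟩ := nE_trE (k := AlgebraicClosure (ZMod p)) (⊤ : Subgroup A)
    (m := cvl m (omf p)) (fun h _ x => CF_cvl hm (CF_omf p) h x)
  have h5 := trE_om (p := p) (k := AlgebraicClosure (ZMod p)) (z := zel _ m) (zel_mem hm)
  have hz : om p (AlgebraicClosure (ZMod p)) A * zel _ m
      = zel (AlgebraicClosure (ZMod p)) (cvl m (omf p)) := by
    have hc : om p (AlgebraicClosure (ZMod p)) A * zel (AlgebraicClosure (ZMod p)) m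
        = zel (AlgebraicClosure (ZMod p)) m * om p (AlgebraicClosure (ZMod p)) A :=
      commute_of (mem_fixAlg.1 (om_mem (p := p))).1 (mem_fixAlg.1 (zel_mem hm)).2
    rw [hc, zel_cvl]
    rfl
  have h6 : ((t - t' : ℤ) : AlgebraicClosure (ZMod p)) = 0 := by
    rw [Int.cast_sub, h2, h4, h5, sub_eq_zero, hz]
    rfl
  have h7 : (p : ℤ) ∣ t - t' := (CharP.intCast_eq_zero_iff (AlgebraicClosure (ZMod p)) p _).1 h6
  obtain ⟨c, hc'⟩ := h7
  rw [h1, h3, Subgroup.card_top, ← mul_sub, hc']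
  exact ⟨c, by ring⟩

end Pool.Agent.Lib.P0c8ca5.By
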