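import Mathlib
import Pool.Agent.Lib.P0c8ca5Bx.ABb
import Pool.Agent.Lib.P0c8ca5By.TrO
import Pool.Agent.Lib.P0c8ca5By.Frob
import Pool.Agent.Lib.P0c8ca5By.CntA
import Pool.Agent.Lib.P0c8ca5By.CntB
import Pool.Agent.Lib.P0c8ca5By.PnM

/-!
# Mas: the sum over all tuples
-/

namespace Pool.Agent.Lib.P0c8ca5.By

open MonoidAlgebra Bx

variable {A : Type*} [Group A]

theorem nW_sub [Finite A] {ι : Type*} [Finite ι] (U : Subgroup A) (V W : (ι → A) → ℤ) :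
    nW U (fun t => V t - W t) = nW U V - nW U W := by
  classical
  have := Fintype.ofFinite (ι → A)
  unfold nW
  rw [finsum_eq_sum_of_fintype, finsum_eq_sum_of_fintype, finsum_eq_sum_of_fintype,
    ← Finset.sum_sub_distrib]
  refine Finset.sum_congr rfl (fun t _ => ?_)
  split_ifs
  · rfl
  · rw [sub_zero]

theorem bW_sub [Finite A] {ι : Type*} [Finite ι] (p : ℕ) (U : Subgroup A) (V W : (ι → A) → ℤ) :
    bW p U (fun t => V t - W t) = bW p U V - bW p U W := by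
  classical
  have := Fintype.ofFinite (ι → A)
  unfold bW
  rw [finsum_eq_sum_of_fintype, finsum_eq_sum_of_fintype, finsum_eq_sum_of_fintype,
    ← Finset.sum_sub_distrib]
  refine Finset.sum_congr rfl (fun t _ => ?_)
  split_ifs
  · rfl
  · rw [sub_zero]

theorem nE_sf {p : ℕ} [Fact p.Prime] [Finite A] {m : A → ℤ} (hm : IsWt p ⊤ m) (U : Subgroup A) :
    nE U (sf p m) = nE U (pf p m) - nE U m := by
  classical
  have := Fintype.ofFinite A
  unfold nE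
  rw [finsum_eq_sum_of_fintype, finsum_eq_sum_of_fintype, finsum_eq_sum_of_fintype,
    ← Finset.sum_sub_distrib]
  refine Finset.sum_congr rfl (fun t _ => ?_)
  split_ifs
  · exact sf_eq hm _
  · rw [sub_zero]

theorem nW_D2 [Finite A] {m : A → ℤ} (hm : IsWt 2 ⊤ m) :
    (2 : ℤ) * (Nat.card A : ℤ) ∣ nW (⊤ : Subgroup A) (D2 m) := by
  have : Fact (Nat.Prime 2) := ⟨Nat.prime_two⟩
  have hc : CF m := CF_of_wt hm
  have e : nW (⊤ : Subgroup A) (D2 m) = nE (⊤ : Subgroup A) (cvl (cvl m (omf 2)) (cvl m (omf 2)))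
      - nE (⊤ : Subgroup A) (cvl m m) - (nE (⊤ : Subgroup A) (pf 2 m) - nE (⊤ : Subgroup A) m) := by
    rw [← nE_sf hm, ← nW_Pn 4 (sf 2 m) (⊤ : Subgroup A), ← nW_W2 hc (CF_omf 2)]
    have e1 : nE (⊤ : Subgroup A) (cvl m m) = nW (⊤ : Subgroup A) (W2 m dl) := by
      rw [nW_W2 hc CF_dl, cvl_dl]
    rw [e1, ← nW_sub, ← nW_sub]
    rfl
  rw [e]
  have h1 := nA_om (p := 2) hc
  have h2 := nE_frob2 (CF_cvl hc (CF_omf (A := A) 2))
  have h3 := nE_frob2 hc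
  have h4 := nA_pf (p := 2) hm
  push_cast at h1 h4
  have h5 := dvd_add (dvd_sub h4 (dvd_add h1 h2)) h3
  have e2 : nE (⊤ : Subgroup A) (cvl (cvl m (omf 2)) (cvl m (omf 2)))
      - nE (⊤ : Subgroup A) (cvl m m) - (nE (⊤ : Subgroup A) (pf 2 m) - nE (⊤ : Subgroup A) m)
      = nA 2 (⊤ : Subgroup A) m - nE (⊤ : Subgroup A) (pf 2 m) -
        (nA 2 (⊤ : Subgroup A) m - nE (⊤ : Subgroup A) (cvl m (omf 2)) +
        (nE (⊤ : Subgroup A) (cvl m (omf 2)) -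
          nE (⊤ : Subgroup A) (cvl (cvl m (omf 2)) (cvl m (omf 2))))) +
        (nE (⊤ : Subgroup A) m - nE (⊤ : Subgroup A) (cvl m m)) := by ring
  rw [e2]
  exact h5

theorem nW_D3 [Finite A] {m : A → ℤ} (hm : IsWt 3 ⊤ m) :
    (3 : ℤ) * (Nat.card A : ℤ) ∣ nW (⊤ : Subgroup A) (D3 m) := by
  have : Fact (Nat.Prime 3) := ⟨Nat.prime_three⟩
  have hc : CF m := CF_of_wt hm
  have e : nW (⊤ : Subgroup A) (D3 m) =
      nE (⊤ : Subgroup A) (cvl (cvl (cvl m (omf 3)) (cvl m (omf 3))) (cvl m (omf 3)))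
      - nE (⊤ : Subgroup A) (cvl (cvl m m) m)
      - (nE (⊤ : Subgroup A) (pf 3 m) - nE (⊤ : Subgroup A) m) := by
    rw [← nE_sf hm, ← nW_Pn 6 (sf 3 m) (⊤ : Subgroup A), ← nW_W3 hc (CF_omf 3)]
    have e1 : nE (⊤ : Subgroup A) (cvl (cvl m m) m) = nW (⊤ : Subgroup A) (W3 m dl) := by
      rw [nW_W3 hc CF_dl, cvl_dl]
    rw [e1, ← nW_sub, ← nW_sub]
    rfl
  rw [e]
  have h1 := nA_om (p := 3) hc
  have h2 := nE_frob3 (CF_cvl hc (CF_omf (A := A) 3))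
  have h3 := nE_frob3 hc
  have h4 := nA_pf (p := 3) hm
  push_cast at h1 h4
  have h5 := dvd_add (dvd_sub h4 (dvd_add h1 h2)) h3
  have e2 : nE (⊤ : Subgroup A) (cvl (cvl (cvl m (omf 3)) (cvl m (omf 3))) (cvl m (omf 3)))
      - nE (⊤ : Subgroup A) (cvl (cvl m m) m)
      - (nE (⊤ : Subgroup A) (pf 3 m) - nE (⊤ : Subgroup A) m)
      = nA 3 (⊤ : Subgroup A) m - nE (⊤ : Subgroup A) (pf 3 m) -
        (nA 3 (⊤ : Subgroup A) m - nE (⊤ : Subgroup A) (cvl m (omf 3)) +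
        (nE (⊤ : Subgroup A) (cvl m (omf 3)) -
          nE (⊤ : Subgroup A) (cvl (cvl (cvl m (omf 3)) (cvl m (omf 3))) (cvl m (omf 3))))) +
        (nE (⊤ : Subgroup A) m - nE (⊤ : Subgroup A) (cvl (cvl m m) m)) := by ring
  rw [e2]
  exact h5

end Pool.Agent.Lib.P0c8ca5.By
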