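import Mathlib
import Pool.Agent.Lib.P0c8ca5Bx.RqC
import Pool.Agent.Lib.P0c8ca5By.TA

/-!
# Rot: a symmetry of order p of the tuples

PROOF. As P0c8ca5Bx.RqA and RqC (`bQ_congr`), with tuples in place of pairs and `x ^ p = 1` in place of `x ^ q = [a, b]`; `τ` of order `p` exactly, so it is simpler. Let
`N t = #{x | x ^ p = 1, τ t = cjt x t}`, `X = {t | Opr p ⊤ ≤ gt t}`. `bW p ⊤ W - (the sum over the (t, x)) = ∑_(t ∈ X) (1 - N t) W t`.
The group `A × Multiplicative (ZMod p)` (or: `A` and the function `τ`, as in RqC) acts on the tuples. (a) For `t ∈ X` the centralizer of `gt t` is a p'-group (`RqAAux.no_cent2`/`no_cent` type lemma: it is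
normalized by .., `NoP`), so `ordProj[p] |A|` divides the size of the `A`-orbit of `t`. (b) if `τ t` is not in the `A`-orbit of `t`, then `N t = 0` and the orbit under `A` and `τ` is a union
of `p` `A`-orbits of the same size (`p` prime, `τ^[p] = id`), `W` and membership in `X` are constant on it: the contribution is divisible by `p * ordProj`. (c) if `τ t = cjt x0 t`: `x0` normalizes
`gt t` (`h3`, `gt_cjt`), hence `C = centralizer (gt t)`; `x0 ^ p ∈ C` (`h1`, `h2`); `{x | τ t = cjt x t} = x0 C`. If `x0 ∈ C` the only `x` is `1` (`C` is a p'-group). If not, `L = ⟨x0⟩ C` has order `p |C|`,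
its Sylow p-subgroups have order `p`, each contains exactly one element of `x0 C`, and these are the `x` with `x ^ p = 1`; so `N t = 1` modulo `p` (Sylow). `N (cjt g t) = N t`; so the contribution
of the `A`-orbit is divisible by `p * ordProj`.
-/

namespace Pool.Agent.Lib.P0c8ca5.By

open MonoidAlgebra Bx

variable {p : ℕ} [Fact p.Prime] {A : Type*} [Group A] [Finite A] {ι : Type*} [Finite ι]

namespace RotAux

/-- conjugation by `g` as a permutation -/
def cjtP (g : A) : Equiv.Perm (ι → A) where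
  toFun := cjt g
  invFun := cjt g⁻¹
  left_inv t := by rw [cjt_cjt, inv_mul_cancel, cjt_one]
  right_inv t := by rw [cjt_cjt, mul_inv_cancel, cjt_one]

/-- conjugation as a homomorphism -/
def cjtH : A →* Equiv.Perm (ι → A) where
  toFun := cjtP
  map_one' := Equiv.ext cjt_one
  map_mul' g h := Equiv.ext fun t => (cjt_cjt g h t).symm

omit [Finite A] [Finite ι] in
theorem cjt_inj (g : A) {s t : ι → A} (h : cjt g s = cjt g t) : s = t := by
  have h1 := congrArg (cjt g⁻¹) h
  rwa [cjt_cjt, cjt_cjt, inv_mul_cancel, cjt_one, cjt_one] at h1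

omit [Finite A] [Finite ι] in
theorem cjt_comm {z : A} {t : ι → A} (h : cjt z t = t) {x : A} (hx : x ∈ gt t) :
    z * x = x * z := by
  have h4 : gt t ≤ Subgroup.centralizer {z} := by
    rw [gt_le]
    intro i
    have h1 : z * t i * z⁻¹ = t i := congrFun h i
    exact Subgroup.mem_centralizer_singleton_iff.2
      (by rw [mul_inv_eq_iff_eq_mul] at h1; exact h1.symm)
  exact (Subgroup.mem_centralizer_singleton_iff.1 (h4 hx)).symm

omit [Finite ι] in
theorem no_cent_t (hO : NoP p (⊤ : Subgroup A)) {t : ι → A}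
    (ht : Opr p (⊤ : Subgroup A) ≤ gt t) {z : A} (hz : cjt z t = t) : ¬ p ∣ orderOf z := by
  intro hp
  have hp0 : 0 < p := (Fact.out : p.Prime).pos
  obtain ⟨n, hn⟩ := hp
  have hn0 : n ≠ 0 := by
    rintro rfl
    rw [mul_zero] at hn
    exact (orderOf_pos z).ne' hn
  have h1 : orderOf (z ^ n) = p := by
    rw [orderOf_pow' z hn0, hn, Nat.gcd_eq_right (Dvd.intro_left p rfl),
      Nat.mul_div_cancel _ (Nat.pos_of_ne_zero hn0)]
  have h2 : Subgroup.zpowers (z ^ n) = ⊥ := by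
    refine norm_trivial hO le_top (IsPGroup.of_card (n := 1) (by
      rw [Nat.card_zpowers, h1, pow_one])) ?_
    intro x hx
    have h3 : z ^ n * x = x * z ^ n := by
      have h4 : Commute z x := cjt_comm hz (ht hx)
      exact (h4.pow_left n).eq
    have h5 : x ∈ Subgroup.centralizer (Subgroup.zpowers (z ^ n) : Set A) := by
      rw [Subgroup.mem_centralizer_iff]
      rintro y ⟨k, rfl⟩
      have h6 : Commute (z ^ n) x := h3
      exact (h6.zpow_left k).eq
    exact Subgroup.centralizer_le_normalizer _ h5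
  rw [Subgroup.zpowers_eq_bot] at h2
  rw [h2, orderOf_one] at h1
  exact (Fact.out : p.Prime).one_lt.ne h1

omit [Fact p.Prime] [Finite A] [Finite ι] in
theorem opr_gt_cjt (g : A) (t : ι → A) :
    Opr p (⊤ : Subgroup A) ≤ gt (cjt g t) ↔ Opr p (⊤ : Subgroup A) ≤ gt t := by
  have h : (Opr p (⊤ : Subgroup A)).map (MulAut.conj g).toMonoidHom = Opr p ⊤ :=
    P0c8ca5.RotAux.map_Opr_top (p := p) g
  rw [gt_cjt]
  conv_lhs => rw [← h]
  exact Subgroup.map_le_map_iff_of_injective (MulAut.conj g).injective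

open Classical in
/-- the weight of a tuple -/
noncomputable def wT (p : ℕ) (W : (ι → A) → ℤ) (t : ι → A) : ℤ :=
  if Opr p (⊤ : Subgroup A) ≤ gt t then W t else 0

omit [Fact p.Prime] [Finite A] [Finite ι] in
theorem wT_cjt {W : (ι → A) → ℤ} (hW : CFt W) (g : A) (t : ι → A) :
    wT p W (cjt g t) = wT p W t := by
  classical
  unfold wT
  rw [hW]
  exact if_congr (opr_gt_cjt g t) rfl rfl

omit [Fact p.Prime] [Finite A] [Finite ι] in
theorem bW_eq [Fintype (ι → A)] (W : (ι → A) → ℤ) :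
    bW p (⊤ : Subgroup A) W = ∑ t : ι → A, wT p W t := by
  classical
  unfold bW
  rw [finsum_eq_sum_of_fintype]
  refine Finset.sum_congr rfl fun t _ => ?_
  unfold wT
  by_cases h5 : Opr p (⊤ : Subgroup A) ≤ gt t
  · rw [if_pos ⟨le_top, h5⟩, if_pos h5]
  · rw [if_neg (fun h6 => h5 h6.2), if_neg h5]

/-- the number of the `x` with `x ^ p = 1`, `τ t = x t x⁻¹` -/
noncomputable def nT (p : ℕ) (τ : (ι → A) → (ι → A)) (t : ι → A) : ℕ :=
  Nat.card {x : A // x ^ p = 1 ∧ τ t = cjt x t}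

variable {τ : (ι → A) → (ι → A)}

omit [Group A] [Finite A] [Finite ι] in
theorem t_inj (h2 : ∀ t, τ^[p] t = t) : Function.Injective τ := by
  intro s t hst
  have h1 : τ^[p] s = τ^[p] t := by
    obtain ⟨n, hn⟩ := Nat.exists_eq_succ_of_ne_zero (Fact.out : p.Prime).pos.ne'
    rw [hn, Function.iterate_succ_apply, Function.iterate_succ_apply, hst]
  rwa [h2, h2] at h1

omit [Finite A] [Finite ι] in
theorem nT_t (h1 : ∀ g t, τ (cjt g t) = cjt g (τ t)) (h2 : ∀ t, τ^[p] t = t) (t : ι → A) :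
    nT p τ (τ t) = nT p τ t := by
  unfold nT
  refine Nat.card_congr (Equiv.subtypeEquivRight fun x => and_congr Iff.rfl ?_)
  rw [← h1]
  exact ⟨fun h => t_inj h2 h, fun h => congrArg τ h⟩

omit [Fact p.Prime] [Finite A] [Finite ι] in
theorem nT_cjt (h1 : ∀ g t, τ (cjt g t) = cjt g (τ t)) (g : A) (t : ι → A) :
    nT p τ (cjt g t) = nT p τ t := by
  unfold nT
  refine (Nat.card_congr (Equiv.subtypeEquiv (MulAut.conj g).toEquiv fun x => ?_)).symm
  change _ ↔ (g * x * g⁻¹) ^ p = 1 ∧ τ (cjt g t) = cjt (g * x * g⁻¹) (cjt g t)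
  rw [h1, cjt_cjt, conj_pow, conj_eq_one_iff]
  have e1 : g * x * g⁻¹ * g = g * x := by group
  rw [e1, ← cjt_cjt]
  exact and_congr Iff.rfl ⟨fun h => congrArg _ h, fun h => cjt_inj g h⟩

omit [Fact p.Prime] [Finite A] [Finite ι] in
theorem iter_cjt (h1 : ∀ g t, τ (cjt g t) = cjt g (τ t)) (n : ℕ) (g : A) (t : ι → A) :
    τ^[n] (cjt g t) = cjt g (τ^[n] t) := by
  induction n generalizing t with
  | zero => rfl
  | succ n ih => rw [Function.iterate_succ_apply, Function.iterate_succ_apply, h1, ih]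

omit [Fact p.Prime] [Finite A] [Finite ι] in
theorem iter_fix (h1 : ∀ g t, τ (cjt g t) = cjt g (τ t)) {h : A} {t : ι → A}
    (ht : τ t = cjt h t) (n : ℕ) : τ^[n] t = cjt (h ^ n) t := by
  induction n with
  | zero => rw [pow_zero, cjt_one]; rfl
  | succ n ih =>
    rw [Function.iterate_succ_apply, ht, iter_cjt h1, ih, cjt_cjt, pow_succ']

omit [Fact p.Prime] [Finite A] [Finite ι] in
theorem fix_pow {g : A} {t : ι → A} (hg : cjt g t = t) (n : ℕ) : cjt (g ^ n) t = t := by
  induction n with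
  | zero => rw [pow_zero, cjt_one]
  | succ n ih => rw [pow_succ, ← cjt_cjt, hg, ih]

omit [Fact p.Prime] [Finite A] [Finite ι] in
theorem fix_inv {g : A} {t : ι → A} (hg : cjt g t = t) : cjt g⁻¹ t = t := by
  conv_lhs => rw [← hg]
  rw [cjt_cjt, inv_mul_cancel, cjt_one]

omit [Finite ι] in
/-- an element `x₀` with `τ t = x₀ t x₀⁻¹` and `x₀ ^ p = 1` -/
theorem exists_root (h1 : ∀ g t, τ (cjt g t) = cjt g (τ t)) (h2 : ∀ t, τ^[p] t = t)
    (hO : NoP p (⊤ : Subgroup A)) {t : ι → A} (ht : Opr p (⊤ : Subgroup A) ≤ gt t) {h : A}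
    (hh : τ t = cjt h t) : ∃ x : A, τ t = cjt x t ∧ x ^ p = 1 := by
  have hp : p.Prime := Fact.out
  have hzt : cjt (h ^ p) t = t := by rw [← iter_fix h1 hh, h2]
  have hzi : cjt (h ^ p)⁻¹ t = t := fix_inv hzt
  have h3 := no_cent_t hO ht hzi
  have h6 : p.Coprime (orderOf (h ^ p)⁻¹) := (Nat.Prime.coprime_iff_not_dvd hp).2 h3
  obtain ⟨m, hm⟩ := exists_pow_eq_self_of_coprime h6
  refine ⟨h * ((h ^ p)⁻¹) ^ m, ?_, ?_⟩
  · rw [← cjt_cjt, fix_pow hzi, hh]
  · have h7 : Commute h (((h ^ p)⁻¹) ^ m) :=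
      (((Commute.refl h).pow_right p).inv_right).pow_right m
    rw [h7.mul_pow, ← pow_mul, mul_comm m, pow_mul, hm, mul_inv_cancel]

omit [Finite ι] in
theorem nT_mod (h1 : ∀ g t, τ (cjt g t) = cjt g (τ t)) (h2 : ∀ t, τ^[p] t = t)
    (hO : NoP p (⊤ : Subgroup A)) {t : ι → A} (ht : Opr p (⊤ : Subgroup A) ≤ gt t) {h : A}
    (hh : τ t = cjt h t) : (p : ℤ) ∣ 1 - (nT p τ t : ℤ) := by
  classical
  have hp : p.Prime := Fact.out
  have : Fintype A := Fintype.ofFinite A
  have hEi := t_inj h2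
  obtain ⟨x0, hx0t, hx0q⟩ := exists_root h1 h2 hO ht hh
  have hcent : ∀ x : A, τ t = cjt x t → cjt (x0⁻¹ * x) t = t := by
    intro x hxt
    rw [← cjt_cjt, ← hxt, hx0t, cjt_cjt, inv_mul_cancel, cjt_one]
  have hstab : ∀ x : A, x ^ p = 1 ∧ τ t = cjt x t →
      (x0 * x * x0⁻¹) ^ p = 1 ∧ τ t = cjt (x0 * x * x0⁻¹) t := by
    rintro x ⟨hx, hxt⟩
    refine ⟨?_, ?_⟩
    · rw [conj_pow, hx, mul_one, mul_inv_cancel]
    · have hc := hcent x hxt
      have hs : τ (cjt x0⁻¹ t) = t := by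
        rw [h1, hx0t, cjt_cjt, inv_mul_cancel, cjt_one]
      have hcs : cjt (x0⁻¹ * x) (cjt x0⁻¹ t) = cjt x0⁻¹ t := by
        apply hEi
        rw [h1, hs, hc]
      have e1 : x0 * x * x0⁻¹ = x0 * (x0 * ((x0⁻¹ * x) * x0⁻¹)) := by group
      rw [e1, ← cjt_cjt, ← cjt_cjt x0, ← cjt_cjt (x0⁻¹ * x), hcs, cjt_cjt x0 x0⁻¹,
        mul_inv_cancel, cjt_one, hx0t]
  let S := {x : A // x ^ p = 1 ∧ τ t = cjt x t}
  let f : Function.End S := fun s => ⟨x0 * s.1 * x0⁻¹, hstab s.1 s.2⟩
  have hf1 : ∀ (n : ℕ) (s : S), ((f ^ n) s : A) = x0 ^ n * s.1 * (x0 ^ n)⁻¹ := by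
    intro n
    induction n with
    | zero =>
      intro s
      rw [pow_zero, pow_zero, one_mul, inv_one, mul_one]
      rfl
    | succ n ih =>
      intro s
      have h6 : (f ^ (n + 1)) s = f ((f ^ n) s) := by rw [pow_succ']; rfl
      rw [h6]
      change x0 * ((f ^ n) s : A) * x0⁻¹ = _
      rw [ih, pow_succ']
      group
  have hf : f ^ p ^ 1 = 1 := by
    funext s
    apply Subtype.ext
    rw [hf1, pow_one, hx0q, one_mul, inv_one, mul_one]
    rfl
  have h6 := Equiv.Perm.card_fixedPoints_modEq hf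
  have h7 : Fintype.card (Function.fixedPoints f) = 1 := by
    rw [Fintype.card_eq_one_iff]
    have hx0S : x0 ^ p = 1 ∧ τ t = cjt x0 t := ⟨hx0q, hx0t⟩
    refine ⟨⟨⟨x0, hx0S⟩, ?_⟩, ?_⟩
    · apply Subtype.ext
      change x0 * x0 * x0⁻¹ = x0
      group
    · rintro ⟨⟨x, hx, hxt⟩, hfx⟩
      have h8 : x0 * x * x0⁻¹ = x := congrArg Subtype.val hfx
      have h9 : Commute x0 x := mul_inv_eq_iff_eq_mul.1 h8
      have h10 := no_cent_t hO ht (hcent x hxt)
      have h11 : (x0⁻¹ * x) ^ p = 1 := by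
        rw [h9.inv_left.mul_pow, inv_pow, hx0q, hx, inv_one, one_mul]
      have h12 : orderOf (x0⁻¹ * x) = 1 := by
        have h13 : Nat.Coprime (orderOf (x0⁻¹ * x)) p :=
          ((Nat.Prime.coprime_iff_not_dvd hp).2 h10).symm
        exact Nat.dvd_one.1 (h13 ▸ Nat.dvd_gcd dvd_rfl (orderOf_dvd_of_pow_eq_one h11))
      rw [orderOf_eq_one_iff] at h12
      apply Subtype.ext
      apply Subtype.ext
      exact (inv_mul_eq_one.1 h12).symm
  rw [h7] at h6
  have h8 : nT p τ t = Fintype.card S := by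
    unfold nT
    exact Nat.card_eq_fintype_card
  rw [h8]
  exact (Nat.modEq_iff_dvd).1 h6

end RotAux

open Pool.Agent.Lib.P0c8ca5.By.RotAux

/-- `|A|_p` divides the sums over the tuples generating a group that contains `O^p(A)` -/
theorem bW_dvd (hA : NoP p (⊤ : Subgroup A)) {W : (ι → A) → ℤ} (hW : CFt W) :
    ((ordProj[p] (Nat.card A) : ℕ) : ℤ) ∣ bW p (⊤ : Subgroup A) W := by
  classical
  have hp : p.Prime := Fact.out
  have : Fintype A := Fintype.ofFinite A
  have : Fintype ι := Fintype.ofFinite ι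
  let I : MulAction A (ι → A) := MulAction.compHom _ (cjtH : A →* Equiv.Perm (ι → A))
  have key := @orb_dvd_p p _ A (ι → A) _ _ I _ (wT p W) (fun g t => wT_cjt hW g t) 1 ?_
  · rw [one_mul] at key
    rw [bW_eq]
    exact key
  · intro t
    by_cases hw : Opr p (⊤ : Subgroup A) ≤ gt t
    swap
    · have hw0 : wT p W t = 0 := if_neg hw
      rw [hw0]
      exact dvd_zero _
    have h1 : ¬ p ∣ Nat.card (@MulAction.stabilizer A (ι → A) _ I t) := by
      intro h1
      obtain ⟨s, hs⟩ := exists_prime_orderOf_dvd_card' p h1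
      have h2 : cjt (s : A) t = t := s.2
      refine no_cent_t hA hw h2 ?_
      rw [Subgroup.orderOf_coe, hs]
    rw [Nat.factorization_eq_zero_of_not_dvd h1, pow_zero, Nat.cast_one, one_mul]
    exact one_dvd _

open Classical in
theorem rot (hA : NoP p (⊤ : Subgroup A)) {W : (ι → A) → ℤ} (hW : CFt W)
    {τ : (ι → A) → (ι → A)} (h1 : ∀ g t, τ (cjt g t) = cjt g (τ t)) (h2 : ∀ t, τ^[p] t = t)
    (h3 : ∀ t, gt (τ t) = gt t) (h4 : ∀ t, W (τ t) = W t) :
    (p : ℤ) * (ordProj[p] (Nat.card A) : ℕ) ∣ bW p (⊤ : Subgroup A) W -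
      ∑ᶠ y : (ι → A) × A, if y.2 ^ p = 1 ∧ τ y.1 = cjt y.2 y.1 ∧ Opr p (⊤ : Subgroup A) ≤ gt y.1
        then W y.1 else 0 := by
  classical
  have hp : p.Prime := Fact.out
  have : Fintype A := Fintype.ofFinite A
  have : Fintype ι := Fintype.ofFinite ι
  have hinj := t_inj h2
  let F : Equiv.Perm (ι → A) := Equiv.ofBijective τ (Finite.injective_iff_bijective.1 hinj)
  have hFE : ∀ t, F t = τ t := fun t => rfl
  let C : Subgroup (Equiv.Perm (ι → A)) := Subgroup.zpowers F
  have hcomm : ∀ (g : A) (c : ↥C), Commute (cjtH g) (C.subtype c) := by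
    rintro g ⟨c, k, rfl⟩
    refine Commute.zpow_right ?_ k
    exact Equiv.ext fun t => (h1 g t).symm
  let Ψ : A × ↥C →* Equiv.Perm (ι → A) := MonoidHom.noncommCoprod cjtH C.subtype hcomm
  let _ : MulAction (A × ↥C) (ι → A) := MulAction.compHom _ Ψ
  have hsm : ∀ (g : A) (c : ↥C) (t : ι → A),
      ((g, c) : A × ↥C) • t = cjt g ((c : Equiv.Perm (ι → A)) t) := fun _ _ _ => rfl
  have hwt : ∀ t, wT p W (τ t) = wT p W t := by
    intro t
    unfold wT
    rw [h3, h4]
  have hFk : ∀ g : (ι → A) → ℤ, (∀ t, g (τ t) = g t) → ∀ (k : ℤ) (t : ι → A),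
      g ((F ^ k) t) = g t := by
    intro g hg
    have e1 : ∀ (n : ℕ) (t : ι → A), g ((F ^ n) t) = g t := by
      intro n
      induction n with
      | zero => intro t; rfl
      | succ n ih =>
        intro t
        rw [pow_succ, Equiv.Perm.mul_apply, ih, hFE, hg]
    intro k t
    obtain ⟨n, rfl | rfl⟩ := k.eq_nat_or_neg
    · rw [zpow_natCast, e1]
    · rw [← e1 n ((F ^ (-(n : ℤ))) t), ← Equiv.Perm.mul_apply, zpow_neg, zpow_natCast,
        mul_inv_cancel]
      rfl
  have hwF : ∀ (k : ℤ) (t : ι → A), wT p W ((F ^ k) t) = wT p W t := hFk _ hwt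
  have hnF : ∀ (k : ℤ) (t : ι → A), (nT p τ ((F ^ k) t) : ℤ) = nT p τ t :=
    hFk (fun t => (nT p τ t : ℤ)) fun t => by rw [nT_t h1 h2]
  have key := orb_dvd_p (p := p) (T := A × ↥C) (X := ι → A)
    (fun t => ((ordProj[p] (Nat.card C) : ℕ) : ℤ) *
      (wT p W t * (1 - (nT p τ t : ℤ)))) ?_ (p : ℤ) ?_
  · rw [← Finset.mul_sum, Nat.card_prod, Nat.ordProj_mul p Nat.card_pos.ne' Nat.card_pos.ne'] at key
    have e1 : (((ordProj[p] (Nat.card C) : ℕ) : ℤ)) ≠ 0 := by
      exact_mod_cast (Nat.ordProj_pos (Nat.card C) p).ne'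
    have e2 : (p : ℤ) * ((ordProj[p] (Nat.card A) * ordProj[p] (Nat.card C) : ℕ) : ℤ)
        = ((ordProj[p] (Nat.card C) : ℕ) : ℤ) * ((p : ℤ) * (ordProj[p] (Nat.card A) : ℕ)) := by
      push_cast
      ring
    rw [e2] at key
    have e3 := (mul_dvd_mul_iff_left e1).1 key
    refine (congrArg (fun z : ℤ => (p : ℤ) * (ordProj[p] (Nat.card A) : ℕ) ∣ z) ?_).mpr e3
    rw [bW_eq, finsum_eq_sum_of_fintype, Fintype.sum_prod_type, ← Finset.sum_sub_distrib]
    refine Finset.sum_congr rfl fun t _ => ?_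
    have e6 : (nT p τ t : ℤ) = ∑ x : A, if x ^ p = 1 ∧ τ t = cjt x t then (1 : ℤ) else 0 := by
      rw [Finset.sum_boole]
      unfold nT
      rw [Nat.card_eq_fintype_card, Fintype.card_subtype]
    rw [mul_sub, mul_one, e6, Finset.mul_sum]
    congr 1
    refine Finset.sum_congr rfl fun x _ => ?_
    unfold wT
    by_cases e7 : Opr p (⊤ : Subgroup A) ≤ gt t
    · by_cases e8 : x ^ p = 1 ∧ τ t = cjt x t
      · rw [if_pos ⟨e8.1, e8.2, e7⟩, if_pos e7, if_pos e8, mul_one]
      · rw [if_neg (fun e9 => e8 ⟨e9.1, e9.2.1⟩), if_neg e8, mul_zero]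
    · rw [if_neg (fun e9 => e7 e9.2.2), if_neg e7, zero_mul]
  · rintro ⟨g, c, k, rfl⟩ t
    simp only [hsm]
    rw [wT_cjt hW, hwF, nT_cjt h1, hnF]
  · intro t
    by_cases hw : Opr p (⊤ : Subgroup A) ≤ gt t
    swap
    · have hw0 : wT p W t = 0 := if_neg hw
      simp only [hw0, zero_mul, mul_zero]
      exact dvd_zero _
    let St : Subgroup (A × ↥C) := MulAction.stabilizer (A × ↥C) t
    let π : ↥St →* ↥C := (MonoidHom.snd A ↥C).comp St.subtype
    have hπ : ∀ s : ↥St, π s = (s : A × ↥C).2 := fun s => rfl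
    have hker : ¬ p ∣ Nat.card π.ker := by
      intro e1
      obtain ⟨s, hs⟩ := exists_prime_orderOf_dvd_card' p e1
      have e2 : ((s : ↥St) : A × ↥C).2 = 1 := s.2
      have e3 : (((s : ↥St) : A × ↥C)) • t = t := (s : ↥St).2
      have e4 : cjt ((s : ↥St) : A × ↥C).1 t = t := by
        have e5 := hsm ((s : ↥St) : A × ↥C).1 ((s : ↥St) : A × ↥C).2 t
        rw [e2] at e5
        rw [← Prod.mk.eta (p := ((s : ↥St) : A × ↥C)), e2] at e3
        exact e5.symm.trans e3
      refine no_cent_t hA hw e4 ?_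
      have e5 : ((s : ↥St) : A × ↥C).1 ^ p = 1 := by
        have e6 : s ^ p = 1 := by rw [← hs]; exact pow_orderOf_eq_one s
        have e7 := congrArg (fun s : ↥π.ker => ((s : ↥St) : A × ↥C).1) e6
        simpa using e7
      have e6 : ((s : ↥St) : A × ↥C).1 ≠ 1 := by
        intro e7
        have e8 : s = 1 := Subtype.ext (Subtype.ext (Prod.ext e7 e2))
        rw [e8, orderOf_one] at hs
        exact hp.one_lt.ne hs
      rw [orderOf_eq_prime e5 e6]
    let E0 : ↥C := ⟨F, Subgroup.mem_zpowers F⟩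
    have hcm : ∀ a b : ↥C, a * b = b * a := by
      rintro ⟨a, i, rfl⟩ ⟨b, j, rfl⟩
      apply Subtype.ext
      exact zpow_mul_comm F i j
    have hN : π.range.Normal := ⟨fun n hn g => by
      rw [hcm g n, mul_inv_cancel_right]
      exact hn⟩
    have hc : Nat.card ↥St = Nat.card π.ker * Nat.card π.range := by
      rw [← Subgroup.index_ker, Subgroup.card_mul_index]
    by_cases hfix : ∃ h : A, τ t = cjt h t
    · obtain ⟨h, hh⟩ := hfix
      obtain ⟨q, hq⟩ := nT_mod h1 h2 hA hw hh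
      have e2 := RotPAux.arith' hp hc hker π.range.index_ne_zero_of_finite Nat.card_pos.ne'
      rw [Subgroup.card_mul_index] at e2
      obtain ⟨i, hi⟩ := e2
      refine ⟨(i : ℤ) * (wT p W t * q), ?_⟩
      rw [hq, hi]
      push_cast
      ring
    refine Dvd.dvd.mul_right ?_ _
    have hidx : p ∣ π.range.index := by
      have e1 : E0 ^ p = 1 := by
        apply Subtype.ext
        apply Equiv.ext
        intro s
        change (F ^ p) s = s
        rw [← Equiv.Perm.iterate_eq_pow]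
        exact h2 s
      have e2 : E0 ∉ π.range := by
        rintro ⟨s, hs⟩
        rw [hπ] at hs
        have e3 : ((s : A × ↥C)) • t = t := s.2
        have e4 := hsm (s : A × ↥C).1 (s : A × ↥C).2 t
        rw [Prod.mk.eta, e3, hs] at e4
        have e5 : t = cjt (s : A × ↥C).1 (τ t) := e4
        refine hfix ⟨((s : A × ↥C).1)⁻¹, ?_⟩
        conv_rhs => rw [e5]
        rw [cjt_cjt, inv_mul_cancel, cjt_one]
      have e3 : (QuotientGroup.mk E0 : ↥C ⧸ π.range) ^ p = 1 := by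
        rw [← QuotientGroup.mk_pow, e1, QuotientGroup.mk_one]
      have e4 : (QuotientGroup.mk E0 : ↥C ⧸ π.range) ≠ 1 := by
        intro e5
        rw [QuotientGroup.eq_one_iff] at e5
        exact e2 e5
      have e5 : orderOf (QuotientGroup.mk E0 : ↥C ⧸ π.range) = p := orderOf_eq_prime e3 e4
      have e6 : p ∣ orderOf (QuotientGroup.mk E0 : ↥C ⧸ π.range) := by rw [e5]
      exact e6.trans (orderOf_dvd_natCard _)
    have e2 := P0c8ca5.RotAux.arith hp hc hker hidx Nat.card_pos.ne'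
      π.range.index_ne_zero_of_finite
    rw [Subgroup.card_mul_index] at e2
    exact_mod_cast e2

end Pool.Agent.Lib.P0c8ca5.By
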