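import Mathlib
import Pool.Agent.Lib.P0c8ca5By.Rot

/-!
# Ones: elimination of the trivial members of the tuples

PROOF. `aH_om`: `h = omf p`: `(m * omf p u) ^ p = if u ^ p = 1 then m ^ p else 0` (`p ≠ 0`), the conditions on `r i.castSucc`, `i : Fin n`, and on `r (Fin.last n)` together are those on all `r i` (`Fin.lastCases`).
`aH_dl`: `h = dl`: only `r` with `r (Fin.last n) = 1` count, `r = Fin.snoc r' 1`, `pd r = pd r'` (`List.ofFn_succ'`/`Fin.snoc`, `List.prod_append`..), `gt r = gt r'`.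
`bS_succ`: for `k ≤ n`: the difference `bS p (n + 1) k m - bS p (n + 1) (k + 1) m` is the sum over the `r` with `r ⟨k, _⟩ = 1`; `r = Fin.insertNth ⟨k, _⟩ 1 r'` (`Fin.insertNthEquiv`), `pd r = pd r'`
(lemma: `(List.ofFn (Fin.insertNth i 1 r')).prod = (List.ofFn r').prod`, by induction on `n` with `Fin.cases`, `List.ofFn_succ`), `gt r = gt r'`, and the first `k` members are the same.
`bS_small`: a p-group `gt r` (`n = 0` or one generator with `r ^ p = 1`) containing `Opr p ⊤` gives `Opr p ⊤ = ⊥`, so `A` has no p-regular elements `≠ 1` and is a p-group, against `NoP` (`R = ⊤`) and `Nontrivial A`.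
`bS_dvd`: `bW_dvd` (Rot) for `W r = if (∀ i, ..) then m (pd r) ^ p else 0`, a `CFt` weight.
`bS_five`, `bS_four`: `A` nontrivial: unroll `bS_succ`: `bS 2 5 5 = a5 - 5 a4 + 10 a3 - 10 a2 + 5 a1 - a0` with `aj = bS 2 j 0`, `a1 = a0 = 0` (`bS_small`), so
`a5 - a4 - bS 2 5 5 = 4 a4 - 10 a3 + 10 a2`, divisible by `2 * ordProj` (`bS_dvd`). p = 3: `bS 3 4 4 = a4 - 4 a3 + 6 a2 - 4 a1 + a0`, `a4 - a3 - bS 3 4 4 = 3 a3 - 6 a2`. `A` trivial (`Subsingleton A`): `a5 = a4 = m 1 ^ 2`, `bS 2 5 5 = 0`;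
`a4 = a3 = m 1 ^ 3`, `bS 3 4 4 = 0`.
-/

namespace Pool.Agent.Lib.P0c8ca5.By

open MonoidAlgebra Bx

variable {p : ℕ} [Fact p.Prime] {A : Type*} [Group A] [Finite A]

namespace OnesAux

omit [Fact p.Prime] [Finite A] in
theorem ins_succ {n : ℕ} (i : Fin (n + 1)) (r : Fin (n + 1) → A) :
    (fun l : Fin (n + 1) => (i.succ.insertNth (1 : A) r : Fin (n + 2) → A) l.succ) =
      i.insertNth (1 : A) (fun l => r l.succ) := by
  funext l
  rcases Fin.eq_self_or_eq_succAbove i l with h | ⟨j, h⟩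
  · subst h
    rw [Fin.insertNth_apply_same, Fin.insertNth_apply_same]
  · subst h
    rw [Fin.insertNth_apply_succAbove, ← Fin.succ_succAbove_succ, Fin.insertNth_apply_succAbove]

omit [Fact p.Prime] [Finite A] in
theorem pd_succ {n : ℕ} (r : Fin (n + 1) → A) : pd r = r 0 * pd (fun i => r i.succ) := by
  unfold pd
  rw [List.ofFn_succ, List.prod_cons]

omit [Fact p.Prime] [Finite A] in
theorem pd_ins : ∀ {n : ℕ} (j : Fin (n + 1)) (r : Fin n → A),
    pd (j.insertNth (1 : A) r : Fin (n + 1) → A) = pd r := by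
  intro n
  induction n with
  | zero =>
    intro j r
    have hj : j = 0 := Fin.ext (by omega)
    subst hj
    rw [pd_succ, Fin.insertNth_apply_same, one_mul]
    unfold pd
    rw [List.ofFn_zero, List.ofFn_zero]
  | succ n ih =>
    intro j r
    refine Fin.cases ?_ (fun i => ?_) j
    · rw [pd_succ, Fin.insertNth_apply_same, one_mul]
      congr 1
    · rw [pd_succ, ins_succ, ih, pd_succ r]
      congr 1

omit [Fact p.Prime] [Finite A] in
theorem gt_ins {n : ℕ} (j : Fin (n + 1)) (r : Fin n → A) :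
    gt (j.insertNth (1 : A) r : Fin (n + 1) → A) = gt r := by
  apply le_antisymm
  · rw [gt_le]
    intro i
    rcases Fin.eq_self_or_eq_succAbove j i with h | ⟨l, h⟩
    · subst h
      rw [Fin.insertNth_apply_same]
      exact Subgroup.one_mem _
    · subst h
      rw [Fin.insertNth_apply_succAbove]
      exact mem_gt r l
  · rw [gt_le]
    intro i
    have h := Fin.insertNth_apply_succAbove (α := fun _ => A) j (1 : A) r i
    have h2 := mem_gt (j.insertNth (1 : A) r : Fin (n + 1) → A) (j.succAbove i)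
    rw [h] at h2
    exact h2

omit [Fact p.Prime] in
theorem fs_one {n : ℕ} (j : Fin (n + 1)) (F : (Fin (n + 1) → A) → ℤ)
    (hF : ∀ r, r j ≠ 1 → F r = 0) :
    ∑ᶠ r, F r = ∑ᶠ r : Fin n → A, F (j.insertNth (1 : A) r : Fin (n + 1) → A) := by
  classical
  haveI := Fintype.ofFinite A
  rw [finsum_eq_sum_of_fintype, finsum_eq_sum_of_fintype,
    ← (Fin.insertNthEquiv (fun _ => A) j).sum_comp, Fintype.sum_prod_type]
  rw [Finset.sum_eq_single (1 : A)]
  · rfl
  · intro b _ hb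
    apply Finset.sum_eq_zero
    intro r _
    apply hF
    change (j.insertNth b r : Fin (n + 1) → A) j ≠ 1
    rw [Fin.insertNth_apply_same]
    exact hb
  · intro h
    exact absurd (Finset.mem_univ _) h

end OnesAux

open OnesAux

theorem aH_om (n : ℕ) (m : A → ℤ) : aH p n (omf p) m = bS p (n + 1) 0 m := by
  classical
  have hp : p ≠ 0 := (Fact.out : p.Prime).ne_zero
  unfold aH bS
  refine finsum_congr fun r => ?_
  by_cases hc : Opr p (⊤ : Subgroup A) ≤ gt r
  · by_cases h1 : ∀ i : Fin n, r i.castSucc ^ p = 1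
    · rw [if_pos ⟨h1, hc⟩]
      by_cases h2 : r (Fin.last n) ^ p = 1
      · have h3 : ∀ i, r i ^ p = 1 ∧ (i.1 < 0 → r i ≠ 1) := by
          intro i
          refine ⟨?_, fun h => absurd h (Nat.not_lt_zero _)⟩
          exact Fin.lastCases h2 h1 i
        rw [if_pos ⟨h3, hc⟩]
        unfold omf
        rw [if_pos h2, mul_one]
      · rw [if_neg (fun h => h2 (h.1 (Fin.last n)).1)]
        unfold omf
        rw [if_neg h2, mul_zero, zero_pow hp]
    · rw [if_neg (fun h => h1 h.1), if_neg (fun h => h1 fun i => (h.1 i.castSucc).1)]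
  · rw [if_neg (fun h => hc h.2), if_neg (fun h => hc h.2)]

theorem aH_dl (n : ℕ) (m : A → ℤ) : aH p n dl m = bS p n 0 m := by
  classical
  have hp : p ≠ 0 := (Fact.out : p.Prime).ne_zero
  unfold aH bS
  rw [fs_one (Fin.last n)]
  · refine finsum_congr fun r => ?_
    rw [pd_ins, gt_ins, Fin.insertNth_apply_same]
    have e1 : ∀ i : Fin n, (Fin.insertNth (Fin.last n) (1 : A) r : Fin (n + 1) → A) i.castSucc
        = r i := by
      intro i
      rw [← Fin.succAbove_last_apply, Fin.insertNth_apply_succAbove]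
    have e2 : ((∀ i : Fin n,
        (Fin.insertNth (Fin.last n) (1 : A) r : Fin (n + 1) → A) i.castSucc ^ p = 1) ∧
        Opr p (⊤ : Subgroup A) ≤ gt r) ↔
        ((∀ i : Fin n, r i ^ p = 1 ∧ (i.1 < 0 → r i ≠ 1)) ∧ Opr p (⊤ : Subgroup A) ≤ gt r) := by
      simp only [e1]
      constructor
      · rintro ⟨h1, h2⟩
        exact ⟨fun i => ⟨h1 i, fun h => absurd h (Nat.not_lt_zero _)⟩, h2⟩
      · rintro ⟨h1, h2⟩
        exact ⟨fun i => (h1 i).1, h2⟩
    refine if_congr e2 ?_ rfl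
    unfold dl
    rw [if_pos rfl, mul_one]
  · intro r hr
    split_ifs with hc
    · unfold dl
      rw [if_neg hr, mul_zero, zero_pow hp]
    · rfl

theorem bS_succ {n k : ℕ} (hk : k ≤ n) (m : A → ℤ) :
    bS p (n + 1) (k + 1) m = bS p (n + 1) k m - bS p n k m := by
  classical
  haveI := Fintype.ofFinite A
  have hkn : k < n + 1 := Nat.lt_succ_of_le hk
  have key : bS p n k m = ∑ᶠ r : Fin (n + 1) → A,
      if ((∀ i, r i ^ p = 1 ∧ (i.1 < k → r i ≠ 1)) ∧ r ⟨k, hkn⟩ = 1) ∧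
        Opr p (⊤ : Subgroup A) ≤ gt r then m (pd r) ^ p else 0 := by
    rw [fs_one ⟨k, hkn⟩]
    · unfold bS
      refine finsum_congr fun r => ?_
      rw [pd_ins, gt_ins, Fin.insertNth_apply_same]
      refine if_congr ?_ rfl rfl
      refine and_congr_left fun _ => ?_
      rw [Fin.forall_iff_succAbove (⟨k, hkn⟩ : Fin (n + 1))]
      simp only [Fin.insertNth_apply_same, Fin.insertNth_apply_succAbove, one_pow]
      have e3 : ∀ i : Fin n, ((⟨k, hkn⟩ : Fin (n + 1)).succAbove i).1 < k ↔ i.1 < k := by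
        intro i
        by_cases h : i.castSucc < (⟨k, hkn⟩ : Fin (n + 1))
        · rw [Fin.succAbove_of_castSucc_lt _ _ h]
          rfl
        · have h' : (⟨k, hkn⟩ : Fin (n + 1)) ≤ i.castSucc := not_lt.1 h
          rw [Fin.succAbove_of_le_castSucc _ _ h']
          have h2 : k ≤ i.1 := h'
          constructor
          · intro h3
            have h4 : i.1 + 1 < k := h3
            omega
          · intro h3
            omega
      constructor
      · intro h
        refine ⟨⟨⟨trivial, fun h => absurd h (lt_irrefl _)⟩, fun i => ?_⟩, trivial⟩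
        exact ⟨(h i).1, fun h3 => (h i).2 ((e3 i).1 h3)⟩
      · intro h i
        exact ⟨(h.1.2 i).1, fun h3 => (h.1.2 i).2 ((e3 i).2 h3)⟩
    · intro r hr
      exact if_neg fun h => hr h.1.2
  rw [key]
  unfold bS
  rw [finsum_eq_sum_of_fintype, finsum_eq_sum_of_fintype, finsum_eq_sum_of_fintype,
    ← Finset.sum_sub_distrib]
  refine Finset.sum_congr rfl fun r _ => ?_
  by_cases hc : Opr p (⊤ : Subgroup A) ≤ gt r
  · by_cases h1 : ∀ i, r i ^ p = 1 ∧ (i.1 < k → r i ≠ 1)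
    · by_cases h2 : r ⟨k, hkn⟩ = 1
      · have h3 : ¬ ((∀ i, r i ^ p = 1 ∧ (i.1 < k + 1 → r i ≠ 1)) ∧
            Opr p (⊤ : Subgroup A) ≤ gt r) :=
          fun h => (h.1 ⟨k, hkn⟩).2 (Nat.lt_succ_self k) h2
        rw [if_neg h3, if_pos ⟨h1, hc⟩, if_pos ⟨⟨h1, h2⟩, hc⟩, sub_self]
      · have h3 : ∀ i, r i ^ p = 1 ∧ (i.1 < k + 1 → r i ≠ 1) := by
          intro i
          refine ⟨(h1 i).1, fun h4 => ?_⟩
          rcases Nat.lt_succ_iff_lt_or_eq.1 h4 with h5 | h5
          · exact (h1 i).2 h5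
          · have h6 : i = ⟨k, hkn⟩ := Fin.ext h5
            rw [h6]
            exact h2
        rw [if_pos ⟨h3, hc⟩, if_pos ⟨h1, hc⟩, if_neg (fun h => h2 h.1.2), sub_zero]
    · have h3 : ¬ ((∀ i, r i ^ p = 1 ∧ (i.1 < k + 1 → r i ≠ 1)) ∧
          Opr p (⊤ : Subgroup A) ≤ gt r) :=
        fun h => h1 fun i => ⟨(h.1 i).1, fun h4 => (h.1 i).2 (Nat.lt_succ_of_lt h4)⟩
      rw [if_neg h3, if_neg (fun h => h1 h.1), if_neg (fun h => h1 h.1.1), sub_zero]
  · rw [if_neg (fun h => hc h.2), if_neg (fun h => hc h.2), if_neg (fun h => hc h.2), sub_zero]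

namespace OnesAux

theorem no_pgroup [Nontrivial A] (hA : NoP p (⊤ : Subgroup A)) {G : Subgroup A}
    (hG : IsPGroup p G) : ¬ Opr p (⊤ : Subgroup A) ≤ G := by
  intro h
  have h1 : Opr p (⊤ : Subgroup A) = ⊥ :=
    hA _ le_top (Opr_normal ⊤) (hG.to_le h)
  have h2 : IsPGroup p (⊤ : Subgroup A) := by
    rintro ⟨x, hx⟩
    obtain ⟨n, hn⟩ := Opr_pow (p := p) hx
    refine ⟨n, ?_⟩
    rw [h1, Subgroup.mem_bot] at hn
    exact Subtype.ext hn
  have h3 := hA ⊤ le_rfl (Subgroup.le_normalizer) h2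
  exact top_ne_bot h3

theorem pgroup_small {n : ℕ} (hn : n ≤ 1) {r : Fin n → A} (hr : ∀ i, r i ^ p = 1) :
    IsPGroup p (gt r) := by
  rcases Nat.le_one_iff_eq_zero_or_eq_one.1 hn with h | h
  · subst h
    have e : gt r = ⊥ := by
      rw [eq_bot_iff, gt_le]
      intro i
      exact i.elim0
    rw [e]
    exact IsPGroup.of_bot
  · subst h
    have e : gt r = Subgroup.zpowers (r 0) := by
      apply le_antisymm
      · rw [gt_le]
        intro i
        have hi : i = 0 := Subsingleton.elim _ _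
        rw [hi]
        exact Subgroup.mem_zpowers _
      · rw [Subgroup.zpowers_le]
        exact mem_gt r 0
    rw [e]
    rintro ⟨x, hx⟩
    refine ⟨1, ?_⟩
    obtain ⟨z, hz⟩ := Subgroup.mem_zpowers_iff.1 hx
    apply Subtype.ext
    change x ^ p ^ 1 = 1
    rw [pow_one, ← hz, ← zpow_natCast, ← zpow_mul, mul_comm, zpow_mul, zpow_natCast, hr 0,
      one_zpow]

theorem bS_triv [Subsingleton A] (n : ℕ) (m : A → ℤ) : bS p n 0 m = m 1 ^ p := by
  classical
  haveI : Unique (Fin n → A) := ⟨⟨fun _ => 1⟩, fun _ => funext fun _ => Subsingleton.elim _ _⟩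
  unfold bS
  rw [finsum_unique, if_pos]
  · congr 2
    exact Subsingleton.elim _ _
  · refine ⟨fun i => ⟨Subsingleton.elim _ _, fun h => absurd h (Nat.not_lt_zero _)⟩, ?_⟩
    intro x _
    have hx : x = 1 := Subsingleton.elim _ _
    rw [hx]
    exact Subgroup.one_mem _

omit [Fact p.Prime] [Finite A] in
theorem pd_cjt {n : ℕ} (g : A) (r : Fin n → A) : pd (cjt g r) = g * pd r * g⁻¹ := by
  have e : List.ofFn (cjt g r) = (List.ofFn r).map (MulAut.conj g) := by
    rw [List.map_ofFn]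
    rfl
  unfold pd
  rw [e, ← map_list_prod]
  rfl

end OnesAux

theorem bS_small [Nontrivial A] (hA : NoP p (⊤ : Subgroup A)) {n : ℕ} (hn : n ≤ 1) (k : ℕ)
    (m : A → ℤ) : bS p n k m = 0 := by
  classical
  unfold bS
  refine finsum_eq_zero_of_forall_eq_zero fun r => ?_
  rw [if_neg]
  rintro ⟨h1, h2⟩
  exact no_pgroup hA (pgroup_small hn fun i => (h1 i).1) h2

theorem bS_dvd (hA : NoP p (⊤ : Subgroup A)) {m : A → ℤ} (hm : CF m) (n k : ℕ) :
    ((ordProj[p] (Nat.card A) : ℕ) : ℤ) ∣ bS p n k m := by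
  classical
  have hW : CFt (fun r : Fin n → A =>
      if ∀ i, r i ^ p = 1 ∧ (i.1 < k → r i ≠ 1) then m (pd r) ^ p else 0) := by
    intro g r
    change (if ∀ i, cjt g r i ^ p = 1 ∧ (i.1 < k → cjt g r i ≠ 1) then m (pd (cjt g r)) ^ p
      else 0) = _
    rw [pd_cjt, hm]
    refine if_congr ?_ rfl rfl
    unfold cjt
    simp only [conj_pow, conj_eq_one_iff, ne_eq]
  have h := bW_dvd hA hW
  have e : bS p n k m = bW p (⊤ : Subgroup A) (fun r : Fin n → A =>
      if ∀ i, r i ^ p = 1 ∧ (i.1 < k → r i ≠ 1) then m (pd r) ^ p else 0) := by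
    unfold bS bW
    refine finsum_congr fun r => ?_
    by_cases hc : Opr p (⊤ : Subgroup A) ≤ gt r
    · rw [if_pos (⟨le_top, hc⟩ : gt r ≤ ⊤ ∧ Opr p (⊤ : Subgroup A) ≤ gt r)]
      exact if_congr (and_iff_left hc) rfl rfl
    · rw [if_neg (fun h => hc h.2), if_neg (fun h => hc h.2)]
  rw [e]
  exact h

theorem bS_five {A : Type*} [Group A] [Finite A] (hA : NoP 2 (⊤ : Subgroup A)) {m : A → ℤ}
    (hm : CF m) : (2 : ℤ) * (ordProj[2] (Nat.card A) : ℕ) ∣
      aH 2 4 (omf 2) m - aH 2 4 dl m - bS 2 5 5 m := by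
  haveI : Fact (Nat.Prime 2) := ⟨Nat.prime_two⟩
  rw [aH_om, aH_dl]
  have e : bS 2 (4 + 1) 0 m - bS 2 4 0 m - bS 2 5 5 m = 4 * bS 2 4 0 m - 10 * bS 2 3 0 m +
      10 * bS 2 2 0 m - 5 * bS 2 1 0 m + bS 2 0 0 m := by
    simp only [bS_succ (p := 2) (n := 4) (k := 4) (by norm_num) m,
      bS_succ (p := 2) (n := 4) (k := 3) (by norm_num) m,
      bS_succ (p := 2) (n := 4) (k := 2) (by norm_num) m,
      bS_succ (p := 2) (n := 4) (k := 1) (by norm_num) m,
      bS_succ (p := 2) (n := 4) (k := 0) (by norm_num) m,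
      bS_succ (p := 2) (n := 3) (k := 3) (by norm_num) m,
      bS_succ (p := 2) (n := 3) (k := 2) (by norm_num) m,
      bS_succ (p := 2) (n := 3) (k := 1) (by norm_num) m,
      bS_succ (p := 2) (n := 3) (k := 0) (by norm_num) m,
      bS_succ (p := 2) (n := 2) (k := 2) (by norm_num) m,
      bS_succ (p := 2) (n := 2) (k := 1) (by norm_num) m,
      bS_succ (p := 2) (n := 2) (k := 0) (by norm_num) m,
      bS_succ (p := 2) (n := 1) (k := 1) (by norm_num) m,
      bS_succ (p := 2) (n := 1) (k := 0) (by norm_num) m,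
      bS_succ (p := 2) (n := 0) (k := 0) (by norm_num) m]
    ring
  rw [e]
  rcases subsingleton_or_nontrivial A with hs | hs
  · simp only [bS_triv]
    have e2 : 4 * m 1 ^ 2 - 10 * m 1 ^ 2 + 10 * m 1 ^ 2 - 5 * m 1 ^ 2 + m 1 ^ 2 = 0 := by ring
    rw [e2]
    exact dvd_zero _
  · rw [bS_small (p := 2) hA (n := 1) le_rfl, bS_small (p := 2) hA (n := 0) (by norm_num)]
    obtain ⟨x4, h4⟩ := bS_dvd (p := 2) hA hm 4 0
    obtain ⟨x3, h3⟩ := bS_dvd (p := 2) hA hm 3 0
    obtain ⟨x2, h2⟩ := bS_dvd (p := 2) hA hm 2 0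
    rw [h4, h3, h2]
    exact ⟨2 * x4 - 5 * x3 + 5 * x2, by ring⟩

theorem bS_four {A : Type*} [Group A] [Finite A] (hA : NoP 3 (⊤ : Subgroup A)) {m : A → ℤ}
    (hm : CF m) : (3 : ℤ) * (ordProj[3] (Nat.card A) : ℕ) ∣
      aH 3 3 (omf 3) m - aH 3 3 dl m - bS 3 4 4 m := by
  haveI : Fact (Nat.Prime 3) := ⟨Nat.prime_three⟩
  rw [aH_om, aH_dl]
  have e : bS 3 (3 + 1) 0 m - bS 3 3 0 m - bS 3 4 4 m = 3 * bS 3 3 0 m - 6 * bS 3 2 0 m +
      4 * bS 3 1 0 m - bS 3 0 0 m := by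
    simp only [bS_succ (p := 3) (n := 3) (k := 3) (by norm_num) m,
      bS_succ (p := 3) (n := 3) (k := 2) (by norm_num) m,
      bS_succ (p := 3) (n := 3) (k := 1) (by norm_num) m,
      bS_succ (p := 3) (n := 3) (k := 0) (by norm_num) m,
      bS_succ (p := 3) (n := 2) (k := 2) (by norm_num) m,
      bS_succ (p := 3) (n := 2) (k := 1) (by norm_num) m,
      bS_succ (p := 3) (n := 2) (k := 0) (by norm_num) m,
      bS_succ (p := 3) (n := 1) (k := 1) (by norm_num) m,
      bS_succ (p := 3) (n := 1) (k := 0) (by norm_num) m,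
      bS_succ (p := 3) (n := 0) (k := 0) (by norm_num) m]
    ring
  rw [e]
  rcases subsingleton_or_nontrivial A with hs | hs
  · simp only [bS_triv]
    have e2 : 3 * m 1 ^ 3 - 6 * m 1 ^ 3 + 4 * m 1 ^ 3 - m 1 ^ 3 = 0 := by ring
    rw [e2]
    exact dvd_zero _
  · rw [bS_small (p := 3) hA (n := 1) le_rfl, bS_small (p := 3) hA (n := 0) (by norm_num)]
    obtain ⟨x3, h3⟩ := bS_dvd (p := 3) hA hm 3 0
    obtain ⟨x2, h2⟩ := bS_dvd (p := 3) hA hm 2 0
    rw [h3, h2]
    exact ⟨x3 - 2 * x2, by ring⟩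

end Pool.Agent.Lib.P0c8ca5.By
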