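import Mathlib
import Pool.Agent.Lib.P0c8ca5Bx.Fin
import Pool.Agent.Lib.P0c8ca5By.Fam
import Pool.Agent.Lib.P0c8ca5By.Mas
import Pool.Agent.Lib.P0c8ca5By.BijA
import Pool.Agent.Lib.P0c8ca5By.BijB
import Pool.Agent.Lib.P0c8ca5By.Ones
import Pool.Agent.Lib.P0c8ca5By.ClsT

/-!
# The blockwise weight conjecture and tuples of elements of order p, p = 2, 3

* `bQ_five`, `bQ_four`: one group with `O_p(A) = 1`: the pairs with p-singular commutator and the 5-tuples of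
  involutions (4-tuples of elements of order 3).
* `baw_iff_five`: the blockwise weight conjecture for `p = 2` holds if and only if for all finite groups `G` with
  `O_2(G) = 1` and all classes `C` of elements of odd order `2 |G|_2` divides the number of 5-tuples of
  involutions with product in `C` that generate a group containing `O^2(G)`.
* `baw_iff_four`: the same for `p = 3` and 4-tuples of elements of order 3.
-/

namespace Pool.Agent.Lib.P0c8ca5.By

open MonoidAlgebra Bx TFinAux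

universe u v

theorem dvd_sub_of_eq {d b X Y : ℤ} (h : X = Y) (h1 : d ∣ b - X) : d ∣ b - Y := h ▸ h1

/-- one group, `p = 2` -/
theorem bQ_five {A : Type u} [Group A] [Finite A] (hA : NoP 2 (⊤ : Subgroup A)) {m : A → ℤ}
    (hm : IsWt 2 ⊤ m) : (2 : ℤ) * (ordProj[2] (Nat.card A) : ℕ) ∣
      bQ 2 (⊤ : Subgroup A) (sf 2 m) - bS 2 5 5 m := by
  classical
  have : Fact (Nat.Prime 2) := ⟨Nat.prime_two⟩
  have hc : CF m := CF_of_wt hm
  have hr : ∀ h : A → ℤ, CF h → (∀ x, h x⁻¹ = h x) →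
      (2 : ℤ) * (ordProj[2] (Nat.card A) : ℕ) ∣ bW 2 (⊤ : Subgroup A) (W2 m h) - aH 2 4 h m := by
    intro h hh hh'
    have h0 := rot (p := 2) hA (CFt_W2 hc hh) (fun g t => (tau2_spec t).2.2 g)
      (fun t => (tau2_spec t).1) (fun t => (tau2_spec t).2.1) (fun t => W2_tau m h t)
    rw [← bijA hc hh hh']
    exact dvd_sub_of_eq (finsum_congr fun y => by split_ifs <;> rfl) h0
  have h1 := hr (omf 2) (CF_omf 2) (fun x => by unfold omf; rw [inv_pow, inv_eq_one])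
  have h2 := hr dl CF_dl (fun x => by unfold dl; rw [inv_eq_one])
  have h3 := bS_five hA hc
  have h4 := bW_family (p := 2) (fun (G : Type u) [Group G] m => D2 m)
    (fun G _ _ U m t => D2_dn U m t) (fun G _ _ m hm => CFt_D2 (CF_of_wt hm))
    (fun G _ _ m hm => by exact_mod_cast nW_D2 hm) A m hm hA
  have e1 : bW 2 (⊤ : Subgroup A) (D2 m) = bW 2 (⊤ : Subgroup A) (W2 m (omf 2)) -
      bW 2 (⊤ : Subgroup A) (W2 m dl) - bQ 2 (⊤ : Subgroup A) (sf 2 m) := by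
    rw [← bW_Pn 2 4 (sf 2 m) (⊤ : Subgroup A), ← bW_sub, ← bW_sub]
    rfl
  have h5 : (2 : ℤ) * (ordProj[2] (Nat.card A) : ℕ) ∣ bW 2 (⊤ : Subgroup A) (D2 m) := by
    exact_mod_cast h4
  rw [e1] at h5
  have h6 := dvd_add (dvd_sub (dvd_sub h1 h2) h5) h3
  have e2 : bQ 2 (⊤ : Subgroup A) (sf 2 m) - bS 2 5 5 m =
      bW 2 (⊤ : Subgroup A) (W2 m (omf 2)) - aH 2 4 (omf 2) m -
      (bW 2 (⊤ : Subgroup A) (W2 m dl) - aH 2 4 dl m) -
      (bW 2 (⊤ : Subgroup A) (W2 m (omf 2)) - bW 2 (⊤ : Subgroup A) (W2 m dl) -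
        bQ 2 (⊤ : Subgroup A) (sf 2 m)) +
      (aH 2 4 (omf 2) m - aH 2 4 dl m - bS 2 5 5 m) := by ring
  rw [e2]
  exact h6

/-- one group, `p = 3` -/
theorem bQ_four {A : Type u} [Group A] [Finite A] (hA : NoP 3 (⊤ : Subgroup A)) {m : A → ℤ}
    (hm : IsWt 3 ⊤ m) : (3 : ℤ) * (ordProj[3] (Nat.card A) : ℕ) ∣
      bQ 3 (⊤ : Subgroup A) (sf 3 m) - bS 3 4 4 m := by
  classical
  have : Fact (Nat.Prime 3) := ⟨Nat.prime_three⟩
  have hc : CF m := CF_of_wt hm
  have hr : ∀ h : A → ℤ, CF h → (∀ x, h x⁻¹ = h x) →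
      (3 : ℤ) * (ordProj[3] (Nat.card A) : ℕ) ∣ bW 3 (⊤ : Subgroup A) (W3 m h) - aH 3 3 h m := by
    intro h hh hh'
    have h0 := rot (p := 3) hA (CFt_W3 hc hh) (fun g t => (tau3_spec t).2.2 g)
      (fun t => (tau3_spec t).1) (fun t => (tau3_spec t).2.1) (fun t => W3_tau m h t)
    rw [← bijB hc hh hh']
    exact dvd_sub_of_eq (finsum_congr fun y => by split_ifs <;> rfl) h0
  have h1 := hr (omf 3) (CF_omf 3) (fun x => by unfold omf; rw [inv_pow, inv_eq_one])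
  have h2 := hr dl CF_dl (fun x => by unfold dl; rw [inv_eq_one])
  have h3 := bS_four hA hc
  have h4 := bW_family (p := 3) (fun (G : Type u) [Group G] m => D3 m)
    (fun G _ _ U m t => D3_dn U m t) (fun G _ _ m hm => CFt_D3 (CF_of_wt hm))
    (fun G _ _ m hm => by exact_mod_cast nW_D3 hm) A m hm hA
  have e1 : bW 3 (⊤ : Subgroup A) (D3 m) = bW 3 (⊤ : Subgroup A) (W3 m (omf 3)) -
      bW 3 (⊤ : Subgroup A) (W3 m dl) - bQ 3 (⊤ : Subgroup A) (sf 3 m) := by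
    rw [← bW_Pn 3 6 (sf 3 m) (⊤ : Subgroup A), ← bW_sub, ← bW_sub]
    rfl
  have h5 : (3 : ℤ) * (ordProj[3] (Nat.card A) : ℕ) ∣ bW 3 (⊤ : Subgroup A) (D3 m) := by
    exact_mod_cast h4
  rw [e1] at h5
  have h6 := dvd_add (dvd_sub (dvd_sub h1 h2) h5) h3
  have e2 : bQ 3 (⊤ : Subgroup A) (sf 3 m) - bS 3 4 4 m =
      bW 3 (⊤ : Subgroup A) (W3 m (omf 3)) - aH 3 3 (omf 3) m -
      (bW 3 (⊤ : Subgroup A) (W3 m dl) - aH 3 3 dl m) -
      (bW 3 (⊤ : Subgroup A) (W3 m (omf 3)) - bW 3 (⊤ : Subgroup A) (W3 m dl) -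
        bQ 3 (⊤ : Subgroup A) (sf 3 m)) +
      (aH 3 3 (omf 3) m - aH 3 3 dl m - bS 3 4 4 m) := by ring
  rw [e2]
  exact h6

/-- **Five involutions.** -/
theorem baw_iff_five {k : Type v} [Field k] [IsAlgClosed k] [CharP k 2] :
    (∀ (G : Type u) [Group G] [Finite G] (b : MonoidAlgebra k G), IsBlock (⊤ : Subgroup G) b →
      gap 2 (⊤ : Subgroup G) ⊤ b = 0) ↔
    (∀ (G : Type u) [Group G] [Finite G], NoP 2 (⊤ : Subgroup G) → ∀ c : G, Preg 2 c →
      2 * ordProj[2] (Nat.card G) ∣ Nat.card {r : Fin 5 → G // (∀ i, orderOf (r i) = 2) ∧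
        IsConj c (List.ofFn r).prod ∧
        ∀ w : G, Preg 2 w → w ∈ Subgroup.closure (Set.range r)}) := by
  have : Fact (Nat.Prime 2) := ⟨Nat.prime_two⟩
  constructor
  · intro h G _ _ hG c hc
    have h1 := (bawp_iff_bQ (p := 2) (k := k)).1 (fun G _ _ b hb => ⟨0, by
      rw [h G b hb]
      simp⟩)
    have h2 := (bS_cls (A := G) 5 ((2 : ℤ) * (ordProj[2] (Nat.card G) : ℕ))).1
      (fun m hm => (dvd_sub_right (h1 G m hm hG)).1 (bQ_five hG hm)) c hc
    exact_mod_cast h2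
  · intro h
    refine amp (p := 2) ?_
    refine (bawp_iff_bQ (p := 2) (k := k)).2 (fun G _ _ m hm hG => ?_)
    have h2 := (bS_cls (A := G) 5 ((2 : ℤ) * (ordProj[2] (Nat.card G) : ℕ))).2
      (fun c hc => by exact_mod_cast h G hG c hc) m hm
    have h3 := dvd_add (bQ_five hG hm) h2
    rwa [sub_add_cancel] at h3

/-- **Four elements of order 3.** -/
theorem baw_iff_four {k : Type v} [Field k] [IsAlgClosed k] [CharP k 3] :
    (∀ (G : Type u) [Group G] [Finite G] (b : MonoidAlgebra k G), IsBlock (⊤ : Subgroup G) b →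
      gap 3 (⊤ : Subgroup G) ⊤ b = 0) ↔
    (∀ (G : Type u) [Group G] [Finite G], NoP 3 (⊤ : Subgroup G) → ∀ c : G, Preg 3 c →
      3 * ordProj[3] (Nat.card G) ∣ Nat.card {r : Fin 4 → G // (∀ i, orderOf (r i) = 3) ∧
        IsConj c (List.ofFn r).prod ∧
        ∀ w : G, Preg 3 w → w ∈ Subgroup.closure (Set.range r)}) := by
  have : Fact (Nat.Prime 3) := ⟨Nat.prime_three⟩
  constructor
  · intro h G _ _ hG c hc
    have h1 := (bawp_iff_bQ (p := 3) (k := k)).1 (fun G _ _ b hb => ⟨0, by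
      rw [h G b hb]
      simp⟩)
    have h2 := (bS_cls (A := G) 4 ((3 : ℤ) * (ordProj[3] (Nat.card G) : ℕ))).1
      (fun m hm => (dvd_sub_right (h1 G m hm hG)).1 (bQ_four hG hm)) c hc
    exact_mod_cast h2
  · intro h
    refine amp (p := 3) ?_
    refine (bawp_iff_bQ (p := 3) (k := k)).2 (fun G _ _ m hm hG => ?_)
    have h2 := (bS_cls (A := G) 4 ((3 : ℤ) * (ordProj[3] (Nat.card G) : ℕ))).2
      (fun c hc => by exact_mod_cast h G hG c hc) m hm
    have h3 := dvd_add (bQ_four hG hm) h2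
    rwa [sub_add_cancel] at h3

end Pool.Agent.Lib.P0c8ca5.By
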